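import Pool.Agent.H50.LBL.Pl1

/-!
The sum of the absolute values of the coefficients of a real polynomial in several variables.
-/

set_option autoImplicit false

namespace Pool.GLM

open Finset MvPolynomial

variable {d : ℕ}

/-- Sum of the absolute values of the coefficients. -/
noncomputable def ml (q : MvPolynomial (Fin d) ℝ) : ℝ := ∑ i ∈ q.support, |coeff i q|

theorem ml_eq {q : MvPolynomial (Fin d) ℝ} {S : Finset (Fin d →₀ ℕ)} (h : q.support ⊆ S) :
    ml q = ∑ i ∈ S, |coeff i q| := by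
  unfold ml
  refine Finset.sum_subset h fun i _ hi => ?_
  rw [MvPolynomial.notMem_support_iff.mp hi, abs_zero]

theorem ml_nn (q : MvPolynomial (Fin d) ℝ) : 0 ≤ ml q := Finset.sum_nonneg fun _ _ => abs_nonneg _

theorem ml_zero : ml (0 : MvPolynomial (Fin d) ℝ) = 0 := by simp [ml]

theorem ml_monomial (n : Fin d →₀ ℕ) (a : ℝ) : ml (monomial n a) = |a| := by
  classical
  rw [ml_eq (S := {n}) (by
    intro i hi
    have := MvPolynomial.support_monomial_subset hi
    exact this)]
  simp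

theorem ml_C (a : ℝ) : ml (C a : MvPolynomial (Fin d) ℝ) = |a| := ml_monomial 0 a

theorem ml_add (p q : MvPolynomial (Fin d) ℝ) : ml (p + q) ≤ ml p + ml q := by
  classical
  rw [ml_eq (q := p + q) (S := p.support ∪ q.support) MvPolynomial.support_add,
    ml_eq (q := p) (S := p.support ∪ q.support) Finset.subset_union_left,
    ml_eq (q := q) (S := p.support ∪ q.support) Finset.subset_union_right,
    ← Finset.sum_add_distrib]
  refine Finset.sum_le_sum fun i _ => ?_
  rw [MvPolynomial.coeff_add]; exact abs_add_le _ _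

theorem ml_neg (p : MvPolynomial (Fin d) ℝ) : ml (-p) = ml p := by
  unfold ml
  rw [MvPolynomial.support_neg]
  refine Finset.sum_congr rfl fun i _ => ?_
  rw [MvPolynomial.coeff_neg, abs_neg]

theorem ml_sub (p q : MvPolynomial (Fin d) ℝ) : ml (p - q) ≤ ml p + ml q := by
  rw [sub_eq_add_neg]
  refine (ml_add _ _).trans ?_
  rw [ml_neg]

theorem ml_sum {ι : Type*} (s : Finset ι) (f : ι → MvPolynomial (Fin d) ℝ) :
    ml (∑ i ∈ s, f i) ≤ ∑ i ∈ s, ml (f i) := by
  classical
  induction s using Finset.induction_on with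
  | empty => simp [ml_zero]
  | insert a s ha ih =>
    rw [Finset.sum_insert ha, Finset.sum_insert ha]
    exact (ml_add _ _).trans (add_le_add le_rfl ih)

theorem ml_sum_le {ι : Type*} (s : Finset ι) (f : ι → MvPolynomial (Fin d) ℝ) (b : ℝ)
    (h : ∀ i ∈ s, ml (f i) ≤ b) : ml (∑ i ∈ s, f i) ≤ s.card * b := by
  refine (ml_sum s f).trans ((Finset.sum_le_sum h).trans (le_of_eq ?_))
  rw [Finset.sum_const, nsmul_eq_mul]

theorem ml_mul (p q : MvPolynomial (Fin d) ℝ) : ml (p * q) ≤ ml p * ml q := by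
  rw [MvPolynomial.mul_def, MvPolynomial.sum_def]
  refine (ml_sum _ _).trans ?_
  unfold ml
  rw [Finset.sum_mul]
  refine Finset.sum_le_sum fun i _ => ?_
  rw [MvPolynomial.sum_def, Finset.mul_sum]
  refine (ml_sum _ _).trans (Finset.sum_le_sum fun j _ => ?_)
  rw [ml_monomial, abs_mul]

theorem ml_mul_le {p q : MvPolynomial (Fin d) ℝ} {a b : ℝ} (hp : ml p ≤ a) (hq : ml q ≤ b) :
    ml (p * q) ≤ a * b :=
  (ml_mul p q).trans (mul_le_mul hp hq (ml_nn q) ((ml_nn p).trans hp))

theorem ml_prod {ι : Type*} (s : Finset ι) (f : ι → MvPolynomial (Fin d) ℝ) (b : ℝ) (hb : 0 ≤ b)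
    (h : ∀ i ∈ s, ml (f i) ≤ b) : ml (∏ i ∈ s, f i) ≤ b ^ s.card := by
  classical
  induction s using Finset.induction_on with
  | empty =>
    rw [Finset.prod_empty, Finset.card_empty, pow_zero]
    have : (1 : MvPolynomial (Fin d) ℝ) = C 1 := by simp
    rw [this, ml_C, abs_one]
  | insert a s ha ih =>
    rw [Finset.prod_insert ha, Finset.card_insert_of_notMem ha, pow_succ']
    exact ml_mul_le (h a (Finset.mem_insert_self a s))
      (ih fun i hi => h i (Finset.mem_insert_of_mem hi))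

theorem prod_le_one' {x : Fin d → ℝ} (hx : ∀ i, |x i| ≤ 1) (e : Fin d → ℕ) (s : Finset (Fin d)) :
    |∏ i ∈ s, x i ^ e i| ≤ 1 := by
  rw [Finset.abs_prod]
  refine Finset.prod_le_one (fun i _ => abs_nonneg _) fun i _ => ?_
  rw [abs_pow]
  exact pow_le_one₀ (abs_nonneg _) (hx i)

theorem eval_ml (q : MvPolynomial (Fin d) ℝ) {t : Fin d → ℝ} (ht : ∀ i, |t i| ≤ 1) :
    |eval t q| ≤ ml q := by
  rw [MvPolynomial.eval_eq']
  refine (Finset.abs_sum_le_sum_abs _ _).trans (Finset.sum_le_sum fun i _ => ?_)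
  rw [abs_mul]
  calc |coeff i q| * |∏ j, t j ^ i j| ≤ |coeff i q| * 1 :=
        mul_le_mul_of_nonneg_left (prod_le_one' ht _ _) (abs_nonneg _)
    _ = _ := mul_one _

theorem prod_lip {t u : Fin d → ℝ} (ht : ∀ i, |t i| ≤ 1) (hu : ∀ i, |u i| ≤ 1) {r : ℝ}
    (hr : ∀ i, |t i - u i| ≤ r) (e : Fin d → ℕ) (s : Finset (Fin d)) :
    |∏ i ∈ s, t i ^ e i - ∏ i ∈ s, u i ^ e i| ≤ (∑ i ∈ s, e i : ℕ) * r := by
  classical
  induction s using Finset.induction_on with
  | empty => simp
  | insert a s ha ih =>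
    rw [Finset.prod_insert ha, Finset.prod_insert ha, Finset.sum_insert ha]
    have e1 : t a ^ e a * ∏ i ∈ s, t i ^ e i - u a ^ e a * ∏ i ∈ s, u i ^ e i =
        t a ^ e a * (∏ i ∈ s, t i ^ e i - ∏ i ∈ s, u i ^ e i) +
          (t a ^ e a - u a ^ e a) * ∏ i ∈ s, u i ^ e i := by ring
    rw [e1]
    refine (abs_add_le _ _).trans ?_
    rw [abs_mul, abs_mul]
    have h1 : |t a ^ e a| * |∏ i ∈ s, t i ^ e i - ∏ i ∈ s, u i ^ e i| ≤
        1 * ((∑ i ∈ s, e i : ℕ) * r) := by
      refine mul_le_mul ?_ ih (abs_nonneg _) (by norm_num)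
      rw [abs_pow]
      exact pow_le_one₀ (abs_nonneg _) (ht a)
    have h2 : |t a ^ e a - u a ^ e a| * |∏ i ∈ s, u i ^ e i| ≤ (e a * r) * 1 := by
      refine mul_le_mul ((Pool.LBL.pow_lip (e a) (ht a) (hu a)).trans ?_) (prod_le_one' hu _ _)
        (abs_nonneg _) ?_
      · exact mul_le_mul_of_nonneg_left (hr a) (Nat.cast_nonneg _)
      · exact mul_nonneg (Nat.cast_nonneg _) ((abs_nonneg _).trans (hr a))
    push_cast at h1 ⊢
    linarith

theorem lip_ml (q : MvPolynomial (Fin d) ℝ) {t u : Fin d → ℝ} (ht : ∀ i, |t i| ≤ 1)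
    (hu : ∀ i, |u i| ≤ 1) {r : ℝ} (hr0 : 0 ≤ r) (hr : ∀ i, |t i - u i| ≤ r) :
    |eval t q - eval u q| ≤ q.totalDegree * ml q * r := by
  rw [MvPolynomial.eval_eq', MvPolynomial.eval_eq', ← Finset.sum_sub_distrib]
  refine (Finset.abs_sum_le_sum_abs _ _).trans ?_
  unfold ml
  rw [Finset.mul_sum, Finset.sum_mul]
  refine Finset.sum_le_sum fun i hi => ?_
  rw [← mul_sub, abs_mul]
  have h1 : ((∑ j, i j : ℕ) : ℝ) ≤ q.totalDegree := by
    have h2 := MvPolynomial.le_totalDegree hi
    rw [Finsupp.sum_fintype _ _ (fun _ => rfl)] at h2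
    exact_mod_cast h2
  calc |coeff i q| * |∏ j, t j ^ i j - ∏ j, u j ^ i j| ≤
        |coeff i q| * ((∑ j, i j : ℕ) * r) :=
        mul_le_mul_of_nonneg_left (prod_lip ht hu hr _ _) (abs_nonneg _)
    _ ≤ |coeff i q| * (q.totalDegree * r) :=
        mul_le_mul_of_nonneg_left (mul_le_mul_of_nonneg_right h1 hr0) (abs_nonneg _)
    _ = _ := by ring

section Det

variable {m : Type*} [Fintype m] [DecidableEq m]

theorem ml_det (M : Matrix m m (MvPolynomial (Fin d) ℝ)) (b : ℝ) (hb : 0 ≤ b)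
    (h : ∀ i j, ml (M i j) ≤ b) :
    ml M.det ≤ (Fintype.card m).factorial * b ^ (Fintype.card m) := by
  rw [Matrix.det_apply']
  refine (ml_sum_le _ _ (b ^ (Fintype.card m)) ?_).trans (le_of_eq ?_)
  · intro σ _
    have h1 : ml (∏ i, M (σ i) i) ≤ b ^ (Fintype.card m) := by
      have := ml_prod Finset.univ (fun i => M (σ i) i) b hb (fun i _ => h _ _)
      rwa [Finset.card_univ] at this
    rcases Int.units_eq_one_or (Equiv.Perm.sign σ) with h2 | h2
    · rw [h2]; simpa using h1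
    · rw [h2]
      simp only [Units.val_neg, Units.val_one, Int.cast_neg, Int.cast_one, neg_mul, one_mul]
      rw [ml_neg]; exact h1
  · rw [Finset.card_univ, Fintype.card_perm]

theorem mdeg_det (M : Matrix m m (MvPolynomial (Fin d) ℝ)) (e : ℕ)
    (h : ∀ i j, (M i j).totalDegree ≤ e) : M.det.totalDegree ≤ Fintype.card m * e := by
  rw [Matrix.det_apply']
  refine MvPolynomial.totalDegree_finsetSum_le ?_
  intro σ _
  have h1 : (∏ i, M (σ i) i).totalDegree ≤ Fintype.card m * e := by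
    refine (MvPolynomial.totalDegree_finsetProd _ _).trans ?_
    refine (Finset.sum_le_sum fun i _ => h _ _).trans (le_of_eq ?_)
    rw [Finset.sum_const, Finset.card_univ, smul_eq_mul]
  rcases Int.units_eq_one_or (Equiv.Perm.sign σ) with h2 | h2
  · rw [h2]; simpa using h1
  · rw [h2]
    simp only [Units.val_neg, Units.val_one, Int.cast_neg, Int.cast_one, neg_mul, one_mul]
    rw [MvPolynomial.totalDegree_neg]; exact h1

theorem madj_ml (M : Matrix m m (MvPolynomial (Fin d) ℝ)) (b : ℝ) (hb : 1 ≤ b)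
    (h : ∀ i j, ml (M i j) ≤ b)
    (i j : m) : ml (M.adjugate i j) ≤ (Fintype.card m).factorial * b ^ (Fintype.card m) := by
  rw [Matrix.adjugate_apply]
  refine ml_det _ b (by linarith) ?_
  intro i' j'
  by_cases hi : i' = j
  · subst hi
    rw [Matrix.updateRow_self]
    by_cases hj : j' = i
    · subst hj
      rw [Pi.single_eq_same]
      have : (1 : MvPolynomial (Fin d) ℝ) = C 1 := by simp
      rw [this, ml_C, abs_one]; exact hb
    · rw [Pi.single_eq_of_ne hj, ml_zero]; linarith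
  · rw [Matrix.updateRow_ne hi]; exact h _ _

theorem madj_deg (M : Matrix m m (MvPolynomial (Fin d) ℝ)) (e : ℕ)
    (h : ∀ i j, (M i j).totalDegree ≤ e)
    (i j : m) : (M.adjugate i j).totalDegree ≤ Fintype.card m * e := by
  rw [Matrix.adjugate_apply]
  refine mdeg_det _ e ?_
  intro i' j'
  by_cases hi : i' = j
  · subst hi
    rw [Matrix.updateRow_self]
    by_cases hj : j' = i
    · subst hj
      rw [Pi.single_eq_same, MvPolynomial.totalDegree_one]; exact Nat.zero_le _
    · rw [Pi.single_eq_of_ne hj, MvPolynomial.totalDegree_zero]; exact Nat.zero_le _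
  · rw [Matrix.updateRow_ne hi]; exact h _ _

end Det

end Pool.GLM
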