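import Pool.Agent.H50.LBL.Cel

/-!
# LEMMA B, linear form (row 223)

The fresh sample of a shape is given, on a cell of the time, by a polynomial in the time and the
position; the polynomial is a function of the nodes, of their shapes, of the earlier samples and of
the cell.
-/

set_option autoImplicit false

namespace Pool.LBL

open Finset Polynomial Matrix
open Pool.Agent.H49.Ent Pool.Agent.H32.Dense Pool.STK Pool.KS3 Pool.BFL Pool.GNB

theorem Pb_two {Ω : Type} [Fintype Ω] {p : Ω → ℝ} (hp : ∀ ω, 0 ≤ p ω) (A B : Ω → Prop) :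
    Pb p (fun ω => A ω ∨ B ω) ≤ Pb p A + Pb p B := by
  classical
  unfold Pb
  rw [← Finset.sum_add_distrib]
  refine Finset.sum_le_sum fun ω _ => ?_
  by_cases hA : A ω
  · rw [if_pos hA, if_pos (Or.inl hA)]
    split_ifs
    · linarith [hp ω]
    · linarith
  · rw [if_neg hA]
    by_cases hB : B ω
    · rw [if_pos hB, if_pos (Or.inr hB)]; linarith
    · rw [if_neg hB, if_neg]
      · linarith
      · rintro (h | h)
        · exact hA h
        · exact hB h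

section

variable {k n D E : ℕ}

/-- The functionals of the earlier samples. -/
def WF (k D E : ℕ) {n r : ℕ} (v : Fin n → ℝ) (S' : Fin n → Pl k) (Ps : Fin r → ℝ × Pl k) :
    Set ({γ // γ ∈ uexp k D E} → ℝ) :=
  {w | ∃ (i : Fin r) (l : Fin k), w = uu (cf k D E) v S' (Ps i).1 (Ps i).2 l}

/-- The projection. -/
noncomputable def PF (k D E : ℕ) (ρ : ℝ) {n r : ℕ} (v : Fin n → ℝ) (S' : Fin n → Pl k)
    (Ps : Fin r → ℝ × Pl k) : Matrix {γ // γ ∈ uexp k D E} {γ // γ ∈ uexp k D E} ℝ := by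
  classical
  exact pm (mch ρ (WF k D E v S' Ps))

/-- The property of the polynomial on the cell. -/
def GoodF (k D E : ℕ) (C₀ Λ : ℝ) (a K₂ : ℕ) {n r : ℕ} (v : Fin n → ℝ) (S' : Fin n → Pl k)
    (Ps : Fin r → ℝ × Pl k) (z : ℤ) (G : Pl (k + 1)) : Prop :=
  G.totalDegree ≤ K₂ ∧ ∀ (T : ℝ) (S : Pl k), |T| ≤ 1 → ⌊T * Λ ^ (4 * (mx k D).card + 2)⌋ = z →
    Inj (cf k D E) (PF k D E (Λ⁻¹ ^ (a + 4 * (mx k D).card + 2)) v S' Ps) T (Λ⁻¹ ^ 2) →
    S.totalDegree ≤ D →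
    (∀ l γ, |(PF k D E (Λ⁻¹ ^ (a + 4 * (mx k D).card + 2)) v S' Ps *ᵥ
      uu (cf k D E) v S' T S l) γ| ≤ Λ⁻¹ ^ (a + 4 * (mx k D).card + 2)) →
    ∀ y : Fin k → ℝ, (∀ i, |y i| ≤ C₀) → ∀ l,
      |MvPolynomial.eval y (MvPolynomial.pderiv l S) -
        MvPolynomial.eval (Fin.cons T y : Fin (k + 1) → ℝ)
          (MvPolynomial.pderiv l.succ G)| * Λ ^ a ≤ 1

open Classical in
/-- The polynomial of the cell. -/
noncomputable def FF (k D E : ℕ) (C₀ Λ : ℝ) (a K₂ : ℕ) {n r : ℕ} (v : Fin n → ℝ)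
    (S' : Fin n → Pl k) (Ps : Fin r → ℝ × Pl k) (z : ℤ) : Pl (k + 1) :=
  if h : ∃ G, GoodF k D E C₀ Λ a K₂ v S' Ps z G then h.choose else 0

theorem FF_deg (C₀ Λ : ℝ) (a K₂ : ℕ) {r : ℕ} (v : Fin n → ℝ) (S' : Fin n → Pl k)
    (Ps : Fin r → ℝ × Pl k) (z : ℤ) : (FF k D E C₀ Λ a K₂ v S' Ps z).totalDegree ≤ K₂ := by
  unfold FF
  split_ifs with h
  · exact h.choose_spec.1
  · rw [MvPolynomial.totalDegree_zero]; exact Nat.zero_le _

theorem FF_good (C₀ Λ : ℝ) (a K₂ : ℕ) {r : ℕ} (v : Fin n → ℝ) (S' : Fin n → Pl k)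
    (Ps : Fin r → ℝ × Pl k) (z : ℤ) (h : ∃ G, GoodF k D E C₀ Λ a K₂ v S' Ps z G) :
    GoodF k D E C₀ Λ a K₂ v S' Ps z (FF k D E C₀ Λ a K₂ v S' Ps z) := by
  unfold FF
  rw [dif_pos h]
  exact h.choose_spec

theorem floor_near {T T₀ x : ℝ} (hx : 0 < x) (h : ⌊T * x⌋ = ⌊T₀ * x⌋) : |T - T₀| * x ≤ 1 := by
  have h1 := Int.abs_sub_lt_one_of_floor_eq_floor h
  have h2 : |T - T₀| * x = |T * x - T₀ * x| := by
    rw [← sub_mul, abs_mul, abs_of_pos hx]
  rw [h2]; exact h1.le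

end

/-- **LEMMA B, linear form.** -/
theorem lbl_thm : LBLStmt := by
  classical
  intro k n D E C₀ hC₀
  obtain ⟨b, e, hb, hab, hae⟩ := cf_bound k D E
  obtain ⟨Ci, hCi1, hinj⟩ := inj_prob (cf k D E) (hu_cf k D E) hb hab C₀ hC₀
  obtain ⟨Cc, hCc1, hcell⟩ := cell_F k n D E C₀ hC₀
  set M : ℕ := (mx k D).card with hM
  set N : ℕ := (uexp k D E).card with hN
  have hNt : Fintype.card {γ // γ ∈ uexp k D E} = N := Fintype.card_coe _
  have hb0 : 0 < b := by linarith only [hb]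
  set C : ℝ := Ci + Cc + k + (1 + n * 2 ^ n) + M * b + (1 + N) + 2 with hC
  have hx1 : (0 : ℝ) ≤ n * 2 ^ n := by positivity
  have hx2 : (0 : ℝ) ≤ M * b := by positivity
  have hx3 : (0 : ℝ) ≤ N := by positivity
  have hx4 : (0 : ℝ) ≤ k := by positivity
  refine ⟨C, 4 * M + 2, N, by linarith, ?_⟩
  intro a
  obtain ⟨K₂, hK₂⟩ := hcell a
  set bb : ℕ := a + 4 * M + 2 with hbb
  refine ⟨(n + 1) + (n + 5 + bb) * N + 3, K₂, ?_⟩
  intro R Ω Γ _ p L Y c β t v S S' g Gd Λ τ θ η hR hp hY hSd hS'd hθ hη hη1 hτ hH hGd hL hexp hCΛ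
    hτΛ hgood
  have hΛ1 : 1 ≤ Λ := by linarith
  have hΛ0 : 0 < Λ := by linarith
  set y : ℝ := Λ⁻¹ with hy
  have hy0 : 0 < y := inv_pos.mpr hΛ0
  have hΛy : Λ * y = 1 := mul_inv_cancel₀ hΛ0.ne'
  set ρ : ℝ := y ^ bb with hρ
  have hρ0 : 0 < ρ := by positivity
  set Ps : (r : ℕ) → Γ → Fin r → ℝ × Pl k := fun r x i => (t i x, S i x) with hPs
  set W : (r : ℕ) → Γ → Set ({γ // γ ∈ uexp k D E} → ℝ) := fun r x =>
    WF k D E (v x) (S' x) (Ps r x) with hW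
  have hWmono : ∀ r x, W r x ⊆ W (r + 1) x := by
    intro r x w hw
    obtain ⟨i, l, hw⟩ := hw
    exact ⟨i.castSucc, l, hw⟩
  obtain ⟨r, hr, hrP⟩ := rank_step p hp R N hR (fun r ω => rk ρ (W r (c ω)))
    (fun r ω => rk_mono (hWmono r (c ω)))
    (fun r ω => (rk_le ρ (W r (c ω))).trans (le_of_eq hNt))
  refine ⟨r, hr, fun v S' Ps z => FF k D E C₀ Λ a K₂ v S' Ps z, fun v S' Ps z =>
    FF_deg C₀ Λ a K₂ v S' Ps z, ?_⟩
  -- the numbers
  set δ : ℝ := (1 + n * (2 * Λ) ^ n) * τ with hδ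
  set B : ℝ := (1 + n * (2 * Λ) ^ n) * (M * (b * Λ)) with hB
  set q : ℝ := 1 + (1 + N * B) / ρ with hq
  have hδ0 : 0 ≤ δ := by positivity
  have hB0 : 0 ≤ B := by positivity
  have hq1 : 1 ≤ q := by
    have : 0 ≤ (1 + N * B) / ρ := by positivity
    linarith only [this]
  have hΛn : 1 + n * (2 * Λ) ^ n ≤ Λ ^ (n + 1) := by
    have h1 : 1 ≤ Λ ^ n := one_le_pow₀ hΛ1
    have h2 : 1 + n * 2 ^ n ≤ Λ := by linarith
    calc 1 + n * (2 * Λ) ^ n = 1 + n * 2 ^ n * Λ ^ n := by rw [mul_pow]; ring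
      _ ≤ Λ ^ n + n * 2 ^ n * Λ ^ n := by linarith only [h1]
      _ = (1 + n * 2 ^ n) * Λ ^ n := by ring
      _ ≤ Λ * Λ ^ n := mul_le_mul_of_nonneg_right h2 (by positivity)
      _ = _ := by ring
  have hBΛ : B ≤ Λ ^ (n + 3) := by
    have h1 : M * (b * Λ) ≤ Λ * Λ := by
      have : M * b ≤ Λ := by linarith
      calc M * (b * Λ) = M * b * Λ := by ring
        _ ≤ Λ * Λ := mul_le_mul_of_nonneg_right this hΛ0.le
    calc B ≤ Λ ^ (n + 1) * (Λ * Λ) := mul_le_mul hΛn h1 (by positivity) (by positivity)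
      _ = _ := by ring
  have hqΛ : q ≤ Λ ^ (n + 5 + bb) := by
    have h0 : 1 ≤ Λ ^ (n + 3) := one_le_pow₀ hΛ1
    have h1 : 1 + N * B ≤ Λ ^ (n + 4) := by
      have h2 : (1 : ℝ) + N ≤ Λ := by linarith
      calc 1 + N * B ≤ Λ ^ (n + 3) + N * Λ ^ (n + 3) := by
            have := mul_le_mul_of_nonneg_left hBΛ hx3
            linarith only [h0, this]
        _ = (1 + N) * Λ ^ (n + 3) := by ring
        _ ≤ Λ * Λ ^ (n + 3) := mul_le_mul_of_nonneg_right h2 (by positivity)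
        _ = _ := by ring
    have h2 : (1 + N * B) / ρ ≤ Λ ^ (n + 4 + bb) := by
      rw [div_le_iff₀ hρ0]
      have h3 : Λ ^ (n + 4 + bb) * ρ = Λ ^ (n + 4) * (Λ * y) ^ bb := by
        rw [hρ, mul_pow]; ring
      rw [h3, hΛy, one_pow, mul_one]
      exact h1
    have h3 : 1 ≤ Λ ^ (n + 4 + bb) := one_le_pow₀ hΛ1
    have h4 : (2 : ℝ) ≤ Λ := by linarith
    calc q ≤ 2 * Λ ^ (n + 4 + bb) := by linarith only [h2, h3]
      _ ≤ Λ * Λ ^ (n + 4 + bb) := mul_le_mul_of_nonneg_right h4 (by positivity)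
      _ = _ := by ring
  set dl : ℝ := δ * q ^ N with hdl
  have hdl0 : 0 ≤ dl := by positivity
  have hdlΛ : dl * Λ ^ 3 ≤ 1 := by
    have h1 : q ^ N ≤ Λ ^ ((n + 5 + bb) * N) := by
      rw [pow_mul]
      exact pow_le_pow_left₀ (by linarith only [hq1]) hqΛ N
    have h2 : δ ≤ Λ ^ (n + 1) * τ := mul_le_mul_of_nonneg_right hΛn hτ.le
    calc dl * Λ ^ 3 ≤ Λ ^ (n + 1) * τ * Λ ^ ((n + 5 + bb) * N) * Λ ^ 3 :=
          mul_le_mul_of_nonneg_right (mul_le_mul h2 h1 (by positivity) (by positivity))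
            (by positivity)
      _ = τ * Λ ^ ((n + 1) + (n + 5 + bb) * N + 3) := by ring
      _ ≤ 1 := hτΛ
  -- the injectivity
  have hinjr := hinj Ω Γ p L (Y r) c β (t r) (fun x => PF k D E ρ (v x) (S' x) (Ps r x)) Gd Λ dl
    θ η hp (hY r hr) hθ hη hη1 (hH r hr) hGd
    (le_trans (div_le_div_of_nonneg_right (mul_le_mul_of_nonneg_right (by linarith)
      (by linarith only [hθ])) hη.le) hL)
    (le_trans (Real.exp_le_exp.2 (div_le_div_of_nonneg_right (mul_le_mul_of_nonneg_right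
      (by linarith) (by linarith)) hη.le)) hexp) (by linarith) hdl0 hdlΛ
    (fun x u w => pm_dot _ u w) (by
      intro ω hω
      obtain ⟨hβ, ht, hv, hs, hg, hpos, hSc, hS'c, hown, hown'⟩ := hgood ω hω
      refine ⟨hβ, ht r hr, hpos r hr, fun γ => ?_⟩
      have h1 := res_bound hρ0 hB0 hδ0 (mv (uexp k D E) (β ω)) (mch ρ (W r (c ω)))
        (mch_ch ρ (W r (c ω))) (by
          intro w hw i
          obtain ⟨j, l, rfl⟩ := mch_mem ρ (W r (c ω)) w hw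
          exact uu_bound (cf k D E) hb0.le hΛ1 hab hv hs hS'c (ht j (j.2.trans hr))
            (hSc j (j.2.trans hr)) l i) (by
          intro w hw
          obtain ⟨j, l, rfl⟩ := mch_mem ρ (W r (c ω)) w hw
          exact uu_small (cf k D E) (hu_cf k D E) hΛ1 hτ.le hv hs (hS'd (c ω))
            (ht j (j.2.trans hr)) (hSd j (c ω)) l (β ω) (g ω l) (hg l)
            (hown j (j.2.trans hr) l) (fun j => hown' j l)) γ
      have h2 : (mch ρ (W r (c ω))).length ≤ N := by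
        rw [mch_len]
        exact (rk_le _ _).trans (le_of_eq hNt)
      have h3 : δ * (1 + (1 + Fintype.card {γ // γ ∈ uexp k D E} * B) / ρ) ^
          (mch ρ (W r (c ω))).length ≤ dl := by
        rw [hNt]
        exact mul_le_mul_of_nonneg_left (pow_le_pow_right₀ hq1 h2) hδ0
      have h4 : |mv (uexp k D E) (β ω) γ - (PF k D E ρ (v (c ω)) (S' (c ω)) (Ps r (c ω)) *ᵥ
          mv (uexp k D E) (β ω)) γ| = |mv (uexp k D E) (β ω) γ -
          (pm (mch ρ (W r (c ω))) *ᵥ mv (uexp k D E) (β ω)) γ| := rfl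
      rw [h4]
      linarith only [hδ0, h1, h3])
  -- the inclusion
  have hincl : ∀ ω, (Gd ω ∧ ¬ ∀ z : Fin k → ℝ, (∀ i, |z i| ≤ C₀) → ∀ l,
      |MvPolynomial.eval z (MvPolynomial.pderiv l (S r (c ω))) -
        MvPolynomial.eval (Fin.cons (t r (c ω)) z : Fin (k + 1) → ℝ)
          (MvPolynomial.pderiv l.succ (FF k D E C₀ Λ a K₂ (v (c ω)) (S' (c ω))
            (fun i : Fin r => (t i (c ω), S i (c ω))) ⌊t r (c ω) * Λ ^ (4 * M + 2)⌋))| *
              Λ ^ a ≤ 1) →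
      (rk ρ (W r (c ω)) < rk ρ (W (r + 1) (c ω))) ∨
      (Gd ω ∧ ¬ Inj (cf k D E) (PF k D E ρ (v (c ω)) (S' (c ω)) (Ps r (c ω))) (t r (c ω))
        (Λ⁻¹ ^ 2)) := by
    intro ω hω
    obtain ⟨hGω, hne⟩ := hω
    by_contra hcon
    rw [not_or] at hcon
    obtain ⟨hrk, hI'⟩ := hcon
    have hrk' : rk ρ (W (r + 1) (c ω)) ≤ rk ρ (W r (c ω)) := not_lt.mp hrk
    have hI : Inj (cf k D E) (PF k D E ρ (v (c ω)) (S' (c ω)) (Ps r (c ω))) (t r (c ω))
        (Λ⁻¹ ^ 2) := by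
      by_contra hI
      exact hI' ⟨hGω, hI⟩
    obtain ⟨hβ, ht, hv, hs, hg, hpos, hSc, hS'c, hown, hown'⟩ := hgood ω hGω
    apply hne
    have hex : ∃ G, GoodF k D E C₀ Λ a K₂ (v (c ω)) (S' (c ω))
        (fun i : Fin r => (t i (c ω), S i (c ω))) ⌊t r (c ω) * Λ ^ (4 * M + 2)⌋ G := by
      obtain ⟨G, hG1, hG2⟩ := hK₂ Λ (v (c ω)) (S' (c ω))
        (PF k D E ρ (v (c ω)) (S' (c ω)) (Ps r (c ω))) (t r (c ω)) (by linarith) hv hs hS'c
        (pm_symm _) (pm_idem _) (pm_entry _) (ht r hr) hI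
      refine ⟨G, hG1, ?_⟩
      intro T S₁ hT hTz hIT hS₁ hσ
      exact hG2 T S₁ hT (floor_near (by positivity) hTz) hIT hS₁ hσ
    have hFF := (FF_good C₀ Λ a K₂ (v (c ω)) (S' (c ω))
        (fun i : Fin r => (t i (c ω), S i (c ω))) ⌊t r (c ω) * Λ ^ (4 * M + 2)⌋ hex).2
      (t r (c ω)) (S r (c ω)) (ht r hr) rfl hI (hSd r (c ω)) (by
        intro l γ
        have hu : uu (cf k D E) (v (c ω)) (S' (c ω)) (t r (c ω)) (S r (c ω)) l ∈
            W (r + 1) (c ω) := ⟨Fin.last r, l, rfl⟩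
        have h1 := near hρ0 (hWmono r (c ω)) hrk' hu
        set w := pm (mch ρ (W r (c ω))) *ᵥ
          uu (cf k D E) (v (c ω)) (S' (c ω)) (t r (c ω)) (S r (c ω)) l with hw
        have h2 : w γ ^ 2 ≤ w ⬝ᵥ w := by
          unfold dotProduct
          have := Finset.single_le_sum (f := fun j => w j * w j) (fun j _ => mul_self_nonneg _)
            (Finset.mem_univ γ)
          rw [sq]; exact this
        have h3 : |w γ| ≤ ρ := abs_le_of_sq_le_sq (h2.trans h1.le) hρ0.le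
        exact h3)
    exact hFF
  refine (Pb_mono hp.nonneg hincl).trans ((Pb_two hp.nonneg _ _).trans ?_)
  have h1 : (k : ℝ) * η ≤ C * η := mul_le_mul_of_nonneg_right (by linarith) hη.le
  linarith only [hrP, hinjr, h1]

end Pool.LBL
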