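import Pool.Agent.H50.LBL.Rat
import Pool.Agent.H44.GN.LemB

/-!
# LEMMA B, linear form: statements

`UNIVStmt`: the gradient of the shape along the path, as a bilinear expression in the coefficients of
the shape and the monomials of the line data.
`LBLStmt`: the fresh sample is given by a polynomial in the time and the position on a cell.
-/

set_option autoImplicit false

namespace Pool.LBL

open Finset Polynomial Matrix
open Pool.Agent.H49.Ent Pool.Agent.H32.Dense Pool.STK Pool.KS3 Pool.BFL Pool.GNB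

/-- The non-zero exponents with entries at most `D`. -/
noncomputable def mx (k D : ℕ) : Finset (Fin k →₀ ℕ) := (Pool.Agent.H36.KBX.bx k D).erase 0

/-- The position at the time `T`. -/
noncomputable def pos {k E : ℕ} (β : Fin k → Fin (E + 1) → ℝ) (T : ℝ) : Fin k → ℝ :=
  fun i => ∑ e : Fin (E + 1), β i e * T ^ (e : ℕ)

/-- The monomial in the line data. -/
noncomputable def mon {k E : ℕ} (β : Fin k → Fin (E + 1) → ℝ)
    (γ : (Fin k × Fin (E + 1)) →₀ ℕ) : ℝ := γ.prod fun q d => β q.1 q.2 ^ d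

/-- The gradient along the path is bilinear in the coefficients and the monomials. -/
def UNIVStmt (k D E : ℕ) : Prop :=
  ∃ (NN : Finset ((Fin k × Fin (E + 1)) →₀ ℕ))
    (a : Fin k → {γ // γ ∈ NN} → {α // α ∈ mx k D} → ℝ[X]),
    ∀ (S : Pl k), (∀ α, MvPolynomial.coeff α S ≠ 0 → α ∈ Pool.Agent.H36.KBX.bx k D) →
      ∀ (T : ℝ) (β : Fin k → Fin (E + 1) → ℝ) (l : Fin k),
      MvPolynomial.eval (pos β T) (MvPolynomial.pderiv l S) =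
        ∑ γ : {γ // γ ∈ NN}, (∑ α : {α // α ∈ mx k D},
          (a l γ α).eval T * MvPolynomial.coeff α.1 S) * mon β γ.1

/-- **LEMMA B, linear form.** -/
def LBLStmt : Prop :=
  ∀ (k n D E : ℕ) (C₀ : ℝ), 1 ≤ C₀ → ∃ (C : ℝ) (A₂ Nn : ℕ), 1 ≤ C ∧ ∀ a : ℕ, ∃ A K₂ : ℕ,
    ∀ (R : ℕ) (Ω Γ : Type) [Fintype Ω] (p : Ω → ℝ) (L : ℕ) (Y : ℕ → Ω → Fin k → ℕ) (c : Ω → Γ)
      (β : Ω → Fin k → Fin (E + 1) → ℝ) (t : ℕ → Γ → ℝ) (v : Γ → Fin n → ℝ) (S : ℕ → Γ → Pl k)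
      (S' : Γ → Fin n → Pl k) (g : Ω → Fin k → ℝ[X]) (Gd : Ω → Prop) (Λ τ θ η : ℝ),
      0 < R → IsLaw p → (∀ r < R, ∀ ω i, Y r ω i < 2 ^ L) → (∀ r x, (S r x).totalDegree ≤ D) →
      (∀ x j, (S' x j).totalDegree ≤ D) → 0 ≤ θ → 0 < η → η ≤ 1 → 0 < τ →
      (∀ r < R, k * (L * Real.log 2) - θ ≤ CH p (Y r) c) →
      Pb p (fun ω => ¬ Gd ω) ≤ η / 4 → C * (θ + 1) / η ≤ L * Real.log 2 →
      Real.exp (C * (θ + 1) / η) ≤ Λ → C ≤ Λ → τ * Λ ^ A ≤ 1 →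
      (∀ ω, Gd ω → (∀ i e, |β ω i e| ≤ C₀) ∧ (∀ r < R, |t r (c ω)| ≤ 1) ∧
        (∀ j, |v (c ω) j| ≤ 1) ∧ (∀ i j, i ≠ j → 1 ≤ Λ * |v (c ω) i - v (c ω) j|) ∧
        (∀ l, (g ω l).degree < n) ∧
        (∀ r < R, ∀ i, |pos (β ω) (t r (c ω)) i - (Y r ω i : ℝ) / 2 ^ L| ≤ C₀ / 2 ^ L) ∧
        (∀ r < R, ∀ α, |MvPolynomial.coeff α (S r (c ω))| ≤ Λ) ∧
        (∀ j α, |MvPolynomial.coeff α (S' (c ω) j)| ≤ Λ) ∧
        (∀ r < R, ∀ l, |MvPolynomial.eval (pos (β ω) (t r (c ω)))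
          (MvPolynomial.pderiv l (S r (c ω))) - (g ω l).eval (t r (c ω))| ≤ τ) ∧
        (∀ j l, |MvPolynomial.eval (pos (β ω) (v (c ω) j))
          (MvPolynomial.pderiv l (S' (c ω) j)) - (g ω l).eval (v (c ω) j)| ≤ τ)) →
      ∃ r < R, ∃ F : (Fin n → ℝ) → (Fin n → Pl k) → (Fin r → ℝ × Pl k) → ℤ → Pl (k + 1),
        (∀ v S' P z, (F v S' P z).totalDegree ≤ K₂) ∧
        Pb p (fun ω => Gd ω ∧ ¬ ∀ z : Fin k → ℝ, (∀ i, |z i| ≤ C₀) → ∀ l,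
          |MvPolynomial.eval z (MvPolynomial.pderiv l (S r (c ω))) -
            MvPolynomial.eval (Fin.cons (t r (c ω)) z : Fin (k + 1) → ℝ)
              (MvPolynomial.pderiv l.succ (F (v (c ω)) (S' (c ω))
                (fun i : Fin r => (t i (c ω), S i (c ω))) ⌊t r (c ω) * Λ ^ A₂⌋))| * Λ ^ a ≤ 1) ≤
          (Nn : ℝ) / R + C * η

end Pool.LBL
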