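import Mathlib

/-!
The sum of the absolute values of the coefficients of a real polynomial.
-/

set_option autoImplicit false

namespace Pool.LBL

open Finset Polynomial

/-- Sum of the absolute values of the coefficients. -/
noncomputable def l1 (q : ℝ[X]) : ℝ := ∑ i ∈ q.support, |q.coeff i|

theorem l1_eq {q : ℝ[X]} {S : Finset ℕ} (h : q.support ⊆ S) : l1 q = ∑ i ∈ S, |q.coeff i| := by
  unfold l1
  refine Finset.sum_subset h fun i _ hi => ?_
  rw [Polynomial.notMem_support_iff.mp hi, abs_zero]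

theorem l1_nn (q : ℝ[X]) : 0 ≤ l1 q := Finset.sum_nonneg fun _ _ => abs_nonneg _

theorem l1_zero : l1 0 = 0 := by simp [l1]

theorem l1_monomial (n : ℕ) (a : ℝ) : l1 (monomial n a) = |a| := by
  rw [l1_eq (S := {n}) (by
    intro i hi
    have := Polynomial.support_monomial' n a hi
    exact this)]
  simp

theorem l1_C (a : ℝ) : l1 (C a) = |a| := by
  rw [← monomial_zero_left]; exact l1_monomial 0 a

theorem l1_add (p q : ℝ[X]) : l1 (p + q) ≤ l1 p + l1 q := by
  classical
  rw [l1_eq (q := p + q) (S := p.support ∪ q.support) Polynomial.support_add,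
    l1_eq (q := p) (S := p.support ∪ q.support) Finset.subset_union_left,
    l1_eq (q := q) (S := p.support ∪ q.support) Finset.subset_union_right,
    ← Finset.sum_add_distrib]
  refine Finset.sum_le_sum fun i _ => ?_
  rw [Polynomial.coeff_add]; exact abs_add_le _ _

theorem l1_neg (p : ℝ[X]) : l1 (-p) = l1 p := by
  unfold l1
  rw [Polynomial.support_neg]
  refine Finset.sum_congr rfl fun i _ => ?_
  rw [Polynomial.coeff_neg, abs_neg]

theorem l1_sub (p q : ℝ[X]) : l1 (p - q) ≤ l1 p + l1 q := by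
  rw [sub_eq_add_neg]
  refine (l1_add _ _).trans ?_
  rw [l1_neg]

theorem l1_sum {ι : Type*} (s : Finset ι) (f : ι → ℝ[X]) : l1 (∑ i ∈ s, f i) ≤ ∑ i ∈ s, l1 (f i) := by
  classical
  induction s using Finset.induction_on with
  | empty => simp [l1_zero]
  | insert a s ha ih =>
    rw [Finset.sum_insert ha, Finset.sum_insert ha]
    exact (l1_add _ _).trans (add_le_add le_rfl ih)

theorem l1_sum_le {ι : Type*} (s : Finset ι) (f : ι → ℝ[X]) (b : ℝ) (h : ∀ i ∈ s, l1 (f i) ≤ b) :
    l1 (∑ i ∈ s, f i) ≤ s.card * b := by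
  refine (l1_sum s f).trans ((Finset.sum_le_sum h).trans (le_of_eq ?_))
  rw [Finset.sum_const, nsmul_eq_mul]

theorem l1_mul (p q : ℝ[X]) : l1 (p * q) ≤ l1 p * l1 q := by
  rw [Polynomial.mul_eq_sum_sum]
  refine (l1_sum _ _).trans ?_
  unfold l1
  rw [Finset.sum_mul]
  refine Finset.sum_le_sum fun i _ => ?_
  rw [Polynomial.sum_def, Finset.mul_sum]
  refine (l1_sum _ _).trans (Finset.sum_le_sum fun j _ => ?_)
  rw [l1_monomial, abs_mul]

theorem l1_mul_le {p q : ℝ[X]} {a b : ℝ} (hp : l1 p ≤ a) (hq : l1 q ≤ b) :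
    l1 (p * q) ≤ a * b :=
  (l1_mul p q).trans (mul_le_mul hp hq (l1_nn q) ((l1_nn p).trans hp))

theorem l1_prod {ι : Type*} (s : Finset ι) (f : ι → ℝ[X]) (b : ℝ) (hb : 0 ≤ b)
    (h : ∀ i ∈ s, l1 (f i) ≤ b) : l1 (∏ i ∈ s, f i) ≤ b ^ s.card := by
  classical
  induction s using Finset.induction_on with
  | empty =>
    rw [Finset.prod_empty, Finset.card_empty, pow_zero]
    have : (1 : ℝ[X]) = C 1 := by simp
    rw [this, l1_C, abs_one]
  | insert a s ha ih =>
    rw [Finset.prod_insert ha, Finset.card_insert_of_notMem ha, pow_succ']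
    exact l1_mul_le (h a (Finset.mem_insert_self a s))
      (ih fun i hi => h i (Finset.mem_insert_of_mem hi))

theorem eval_l1 (q : ℝ[X]) {t : ℝ} (ht : |t| ≤ 1) : |q.eval t| ≤ l1 q := by
  rw [Polynomial.eval_eq_sum, Polynomial.sum_def]
  refine (Finset.abs_sum_le_sum_abs _ _).trans (Finset.sum_le_sum fun i _ => ?_)
  rw [abs_mul, abs_pow]
  calc |q.coeff i| * |t| ^ i ≤ |q.coeff i| * 1 :=
        mul_le_mul_of_nonneg_left (pow_le_one₀ (abs_nonneg _) ht) (abs_nonneg _)
    _ = _ := mul_one _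

theorem pow_lip (i : ℕ) {t u : ℝ} (ht : |t| ≤ 1) (hu : |u| ≤ 1) : |t ^ i - u ^ i| ≤ i * |t - u| := by
  induction i with
  | zero => simp
  | succ i ih =>
    have e : t ^ (i + 1) - u ^ (i + 1) = t * (t ^ i - u ^ i) + (t - u) * u ^ i := by ring
    rw [e]
    refine (abs_add_le _ _).trans ?_
    rw [abs_mul, abs_mul, abs_pow]
    have h1 : |t| * |t ^ i - u ^ i| ≤ 1 * (i * |t - u|) :=
      mul_le_mul ht ih (abs_nonneg _) (by norm_num)
    have h2 : |t - u| * |u| ^ i ≤ |t - u| * 1 :=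
      mul_le_mul_of_nonneg_left (pow_le_one₀ (abs_nonneg _) hu) (abs_nonneg _)
    push_cast
    linarith

theorem lip_l1 (q : ℝ[X]) {t u : ℝ} (ht : |t| ≤ 1) (hu : |u| ≤ 1) :
    |q.eval t - q.eval u| ≤ q.natDegree * l1 q * |t - u| := by
  rw [Polynomial.eval_eq_sum, Polynomial.eval_eq_sum, Polynomial.sum_def, Polynomial.sum_def,
    ← Finset.sum_sub_distrib]
  refine (Finset.abs_sum_le_sum_abs _ _).trans ?_
  unfold l1
  rw [Finset.mul_sum, Finset.sum_mul]
  refine Finset.sum_le_sum fun i hi => ?_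
  rw [← mul_sub, abs_mul]
  have h1 : (i : ℝ) ≤ q.natDegree := by
    exact_mod_cast Polynomial.le_natDegree_of_mem_supp i hi
  calc |q.coeff i| * |t ^ i - u ^ i| ≤ |q.coeff i| * (i * |t - u|) :=
        mul_le_mul_of_nonneg_left (pow_lip i ht hu) (abs_nonneg _)
    _ ≤ |q.coeff i| * (q.natDegree * |t - u|) := by gcongr
    _ = _ := by ring

section Det

variable {m : Type*} [Fintype m] [DecidableEq m]

theorem l1_det (M : Matrix m m ℝ[X]) (b : ℝ) (hb : 0 ≤ b) (h : ∀ i j, l1 (M i j) ≤ b) :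
    l1 M.det ≤ (Fintype.card m).factorial * b ^ (Fintype.card m) := by
  rw [Matrix.det_apply']
  refine (l1_sum_le _ _ (b ^ (Fintype.card m)) ?_).trans (le_of_eq ?_)
  · intro σ _
    have h1 : l1 (∏ i, M (σ i) i) ≤ b ^ (Fintype.card m) := by
      have := l1_prod Finset.univ (fun i => M (σ i) i) b hb (fun i _ => h _ _)
      rwa [Finset.card_univ] at this
    rcases Int.units_eq_one_or (Equiv.Perm.sign σ) with h2 | h2
    · rw [h2]; simpa using h1
    · rw [h2]
      simp only [Units.val_neg, Units.val_one, Int.cast_neg, Int.cast_one, neg_mul, one_mul]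
      rw [l1_neg]; exact h1
  · rw [Finset.card_univ, Fintype.card_perm]

theorem deg_det (M : Matrix m m ℝ[X]) (e : ℕ) (h : ∀ i j, (M i j).natDegree ≤ e) :
    M.det.natDegree ≤ Fintype.card m * e := by
  rw [Matrix.det_apply']
  refine Polynomial.natDegree_sum_le_of_forall_le _ _ ?_
  intro σ _
  refine Polynomial.natDegree_mul_le.trans ?_
  rw [Polynomial.natDegree_intCast, zero_add]
  refine (Polynomial.natDegree_prod_le _ _).trans ?_
  refine (Finset.sum_le_sum fun i _ => h _ _).trans (le_of_eq ?_)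
  rw [Finset.sum_const, Finset.card_univ, smul_eq_mul]

theorem adj_entry_l1 (M : Matrix m m ℝ[X]) (b : ℝ) (hb : 1 ≤ b) (h : ∀ i j, l1 (M i j) ≤ b)
    (i j : m) : l1 (M.adjugate i j) ≤ (Fintype.card m).factorial * b ^ (Fintype.card m) := by
  rw [Matrix.adjugate_apply]
  refine l1_det _ b (by linarith) ?_
  intro i' j'
  by_cases hi : i' = j
  · subst hi
    rw [Matrix.updateRow_self]
    by_cases hj : j' = i
    · subst hj
      rw [Pi.single_eq_same]
      have : (1 : ℝ[X]) = C 1 := by simp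
      rw [this, l1_C, abs_one]; exact hb
    · rw [Pi.single_eq_of_ne hj, l1_zero]; linarith
  · rw [Matrix.updateRow_ne hi]; exact h _ _

theorem adj_entry_deg (M : Matrix m m ℝ[X]) (e : ℕ) (h : ∀ i j, (M i j).natDegree ≤ e)
    (i j : m) : (M.adjugate i j).natDegree ≤ Fintype.card m * e := by
  rw [Matrix.adjugate_apply]
  refine deg_det _ e ?_
  intro i' j'
  by_cases hi : i' = j
  · subst hi
    rw [Matrix.updateRow_self]
    by_cases hj : j' = i
    · subst hj
      rw [Pi.single_eq_same, Polynomial.natDegree_one]; exact Nat.zero_le _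
    · rw [Pi.single_eq_of_ne hj, Polynomial.natDegree_zero]; exact Nat.zero_le _
  · rw [Matrix.updateRow_ne hi]; exact h _ _

/-- Lower bound for the determinant of a symmetric matrix. -/
theorem det_lower (G : Matrix m m ℝ) (hG : G.IsSymm) (c : ℝ) (hc : 0 ≤ c)
    (h : ∀ x : m → ℝ, c * (x ⬝ᵥ x) ≤ x ⬝ᵥ (G.mulVec x)) : c ^ (Fintype.card m) ≤ G.det := by
  have hH : G.IsHermitian := by
    rw [Matrix.IsHermitian, Matrix.conjTranspose_eq_transpose_of_trivial]
    exact hG
  rw [hH.det_eq_prod_eigenvalues]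
  have h1 : ∀ i, c ≤ hH.eigenvalues i := by
    intro i
    have h2 := hH.mulVec_eigenvectorBasis i
    have h3 := h (hH.eigenvectorBasis i)
    rw [h2, dotProduct_smul, smul_eq_mul] at h3
    have h4 : (⇑(hH.eigenvectorBasis i) : m → ℝ) ⬝ᵥ ⇑(hH.eigenvectorBasis i) = 1 := by
      have h5 : ‖hH.eigenvectorBasis i‖ ^ 2 = 1 := by
        rw [hH.eigenvectorBasis.orthonormal.1 i]; norm_num
      rw [EuclideanSpace.norm_sq_eq] at h5
      rw [← h5]
      unfold dotProduct
      refine Finset.sum_congr rfl fun j _ => ?_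
      rw [Real.norm_eq_abs, sq_abs, sq]
    rw [h4, mul_one, mul_one] at h3
    exact h3
  have h2 : c ^ (Fintype.card m) = ∏ _i : m, c := by
    rw [Finset.prod_const, Finset.card_univ]
  rw [h2]
  exact Finset.prod_le_prod (fun _ _ => hc) (fun i _ => h1 i)

end Det

end Pool.LBL
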