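import Pool.Agent.H50.LBL.Inj
import Pool.Agent.H52.LBL.Univ

/-!
LEMMA B, linear form: the polynomial on a cell.
-/

set_option autoImplicit false

namespace Pool.LBL

open Finset Polynomial Matrix
open Pool.Agent.H49.Ent Pool.Agent.H32.Dense Pool.STK Pool.KS3 Pool.BFL Pool.GNB

/-- The universal polynomials. -/
noncomputable def cf (k D E : ℕ) : Fin k → {γ // γ ∈ uexp k D E} → {α // α ∈ mx k D} → ℝ[X] :=
  ucf k D E

theorem hu_cf (k D E : ℕ) : HU (cf k D E) := fun S hS T β l => univ_eval k D E S hS T β l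

theorem cf_bound (k D E : ℕ) : ∃ (b : ℝ) (e : ℕ), 1 ≤ b ∧
    (∀ l γ α, l1 (cf k D E l γ α) ≤ b) ∧ ∀ l γ α, (cf k D E l γ α).natDegree ≤ e :=
  ucf_bound k D E

/-- The gradient in terms of the coefficients. -/
theorem grad_sum {k D : ℕ} {S : Pl k} (hS : S.totalDegree ≤ D) (y : Fin k → ℝ) (l : Fin k) :
    MvPolynomial.eval y (MvPolynomial.pderiv l S) = ∑ α : {α // α ∈ mx k D}, sv D S α *
      MvPolynomial.eval y (MvPolynomial.pderiv l (MvPolynomial.monomial α.1 (1 : ℝ))) := by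
  classical
  have h1 : S = ∑ α ∈ Pool.Agent.H36.KBX.bx k D, MvPolynomial.monomial α
      (MvPolynomial.coeff α S) := by
    conv_lhs => rw [MvPolynomial.as_sum S]
    refine Finset.sum_subset (Pool.Agent.H36.KBX.support_bx S hS) fun α _ hα => ?_
    rw [MvPolynomial.notMem_support_iff.1 hα, map_zero]
  have h0 : (0 : Fin k →₀ ℕ) ∈ Pool.Agent.H36.KBX.bx k D := by
    rw [Pool.Agent.H36.KBX.mem_bx]; intro i; exact Nat.zero_le _
  have h2 : MvPolynomial.pderiv l S = ∑ α ∈ mx k D,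
      MvPolynomial.C (MvPolynomial.coeff α S) *
        MvPolynomial.pderiv l (MvPolynomial.monomial α (1 : ℝ)) := by
    conv_lhs => rw [h1]
    rw [map_sum, ← Finset.add_sum_erase _ _ h0]
    have e0 : MvPolynomial.pderiv l (MvPolynomial.monomial (0 : Fin k →₀ ℕ)
        (MvPolynomial.coeff 0 S)) = 0 := by
      rw [MvPolynomial.pderiv_monomial]
      simp
    rw [e0, zero_add]
    unfold mx
    refine Finset.sum_congr rfl fun α _ => ?_
    rw [← MvPolynomial.pderiv_C_mul, MvPolynomial.C_mul_monomial, mul_one]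
  rw [h2, map_sum, ← Finset.sum_coe_sort (mx k D)]
  refine Finset.sum_congr rfl fun α _ => ?_
  rw [map_mul, MvPolynomial.eval_C]
  rfl

/-- The polynomial in the time and the position. -/
theorem Gpoly {k D dR : ℕ} (R : {α // α ∈ mx k D} → ℝ[X]) (hR : ∀ α, (R α).natDegree ≤ dR) :
    ∃ G : Pl (k + 1), G.totalDegree ≤ dR + k * D ∧ ∀ (T : ℝ) (y : Fin k → ℝ) (l : Fin k),
      MvPolynomial.eval (Fin.cons T y : Fin (k + 1) → ℝ) (MvPolynomial.pderiv l.succ G) =
        ∑ α : {α // α ∈ mx k D}, (R α).eval T *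
          MvPolynomial.eval y (MvPolynomial.pderiv l (MvPolynomial.monomial α.1 (1 : ℝ))) := by
  classical
  refine ⟨∑ α : {α // α ∈ mx k D}, Polynomial.aeval (MvPolynomial.X 0 : Pl (k + 1)) (R α) *
    MvPolynomial.rename Fin.succ (MvPolynomial.monomial α.1 (1 : ℝ)), ?_, ?_⟩
  · refine MvPolynomial.totalDegree_finsetSum_le fun α _ => ?_
    refine (MvPolynomial.totalDegree_mul _ _).trans (Nat.add_le_add ?_ ?_)
    · rw [Polynomial.aeval_eq_sum_range]
      refine MvPolynomial.totalDegree_finsetSum_le fun i hi => ?_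
      refine (MvPolynomial.totalDegree_smul_le _ _).trans ?_
      refine (MvPolynomial.totalDegree_pow _ _).trans ?_
      rw [MvPolynomial.totalDegree_X, mul_one]
      have h1 := Finset.mem_range.mp hi
      have h2 := hR α
      omega
    · refine (MvPolynomial.totalDegree_rename_le _ _).trans ?_
      refine (MvPolynomial.totalDegree_monomial_le _ _).trans ?_
      have h3 := α.2
      unfold mx at h3
      have h4 := Pool.Agent.H36.KBX.mem_bx.mp (Finset.mem_erase.mp h3).2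
      rw [Finsupp.sum_fintype _ _ (fun _ => rfl)]
      refine (Finset.sum_le_sum fun i _ => h4 i).trans (le_of_eq ?_)
      rw [Finset.sum_const, Finset.card_univ, Fintype.card_fin, smul_eq_mul]
  · intro T y l
    rw [map_sum, map_sum]
    refine Finset.sum_congr rfl fun α _ => ?_
    have h1 : MvPolynomial.pderiv l.succ (Polynomial.aeval (MvPolynomial.X 0 : Pl (k + 1)) (R α)) =
        0 := by
      rw [Derivation.map_aeval, MvPolynomial.pderiv_X_of_ne (Fin.succ_ne_zero l).symm, smul_zero]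
    have h2 : MvPolynomial.pderiv l.succ (MvPolynomial.rename Fin.succ
        (MvPolynomial.monomial α.1 (1 : ℝ)) : Pl (k + 1)) = MvPolynomial.rename Fin.succ
        (MvPolynomial.pderiv l (MvPolynomial.monomial α.1 (1 : ℝ))) :=
      MvPolynomial.pderiv_rename (Fin.succ_injective k) l _
    rw [MvPolynomial.pderiv_mul, h1, h2, zero_mul, zero_add, map_mul, MvPolynomial.eval_rename]
    have h3 : (Fin.cons T y : Fin (k + 1) → ℝ) ∘ Fin.succ = y := by
      funext i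
      rfl
    rw [h3]
    congr 1
    rw [Polynomial.aeval_eq_sum_range, map_sum, Polynomial.eval_eq_sum_range]
    refine Finset.sum_congr rfl fun i _ => ?_
    rw [MvPolynomial.smul_eval, map_pow, MvPolynomial.eval_X, Fin.cons_zero]

theorem mono_bound (k D : ℕ) {C₀ : ℝ} (hC₀ : 1 ≤ C₀) : ∃ Cm : ℝ, 1 ≤ Cm ∧
    ∀ y : Fin k → ℝ, (∀ i, |y i| ≤ C₀) → ∀ l (α : {α // α ∈ mx k D}),
      |MvPolynomial.eval y (MvPolynomial.pderiv l (MvPolynomial.monomial α.1 (1 : ℝ)))| ≤ Cm := by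
  classical
  have hB0 : 0 ≤ ((Pool.Agent.H36.KBX.bx k (k * D)).card : ℝ) *
      ((D : ℝ) * C₀ ^ (k * (k * D))) := by positivity
  refine ⟨1 + ((Pool.Agent.H36.KBX.bx k (k * D)).card : ℝ) *
      ((D : ℝ) * C₀ ^ (k * (k * D))), by linarith only [hB0], ?_⟩
  intro y hy l α
  have h3 := α.2
  unfold mx at h3
  have h4 := Pool.Agent.H36.KBX.mem_bx.mp (Finset.mem_erase.mp h3).2
  have h5 : (MvPolynomial.monomial α.1 (1 : ℝ)).totalDegree ≤ k * D := by
    refine (MvPolynomial.totalDegree_monomial_le _ _).trans ?_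
    rw [Finsupp.sum_fintype _ _ (fun _ => rfl)]
    refine (Finset.sum_le_sum fun i _ => h4 i).trans (le_of_eq ?_)
    rw [Finset.sum_const, Finset.card_univ, Fintype.card_fin, smul_eq_mul]
  have h6 := Pool.Agent.H36.KBX.eval_bound
    (MvPolynomial.pderiv l (MvPolynomial.monomial α.1 (1 : ℝ))) (td_pd h5 l) (D : ℝ) C₀ hC₀ (by
      intro α'
      rw [MvPolynomial.pderiv_monomial, MvPolynomial.coeff_monomial]
      split_ifs
      · rw [one_mul, abs_of_nonneg (by positivity)]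
        exact_mod_cast h4 l
      · rw [abs_zero]; positivity) y hy
  linarith only [h6]

/-- **The polynomial on a cell.** -/
theorem cell_F (k n D E : ℕ) (C₀ : ℝ) (hC₀ : 1 ≤ C₀) : ∃ C : ℝ, 1 ≤ C ∧ ∀ a : ℕ, ∃ K₂ : ℕ,
    ∀ (Λ : ℝ) (v : Fin n → ℝ) (S' : Fin n → Pl k)
      (P : Matrix {γ // γ ∈ uexp k D E} {γ // γ ∈ uexp k D E} ℝ) (T₀ : ℝ), C ≤ Λ →
      (∀ i, |v i| ≤ 1) → (∀ i j, i ≠ j → 1 ≤ Λ * |v i - v j|) →
      (∀ j α, |MvPolynomial.coeff α (S' j)| ≤ Λ) → Pᵀ = P → P * P = P → (∀ i j, |P i j| ≤ 1) →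
      |T₀| ≤ 1 → Inj (cf k D E) P T₀ (Λ⁻¹ ^ 2) →
      ∃ G : Pl (k + 1), G.totalDegree ≤ K₂ ∧ ∀ (T : ℝ) (S : Pl k), |T| ≤ 1 →
        |T - T₀| * Λ ^ (4 * (mx k D).card + 2) ≤ 1 → Inj (cf k D E) P T (Λ⁻¹ ^ 2) →
        S.totalDegree ≤ D →
        (∀ l γ, |(P *ᵥ uu (cf k D E) v S' T S l) γ| ≤ Λ⁻¹ ^ (a + 4 * (mx k D).card + 2)) →
        ∀ y : Fin k → ℝ, (∀ i, |y i| ≤ C₀) → ∀ l,
          |MvPolynomial.eval y (MvPolynomial.pderiv l S) -
            MvPolynomial.eval (Fin.cons T y : Fin (k + 1) → ℝ)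
              (MvPolynomial.pderiv l.succ G)| * Λ ^ a ≤ 1 := by
  classical
  obtain ⟨b, e, hb, hab, hae⟩ := cf_bound k D E
  obtain ⟨Cm, hCm1, hCm⟩ := mono_bound k D hC₀
  set M : ℕ := (mx k D).card with hM
  set N : ℕ := (uexp k D E).card with hN
  have hMt : Fintype.card {α // α ∈ mx k D} = M := Fintype.card_coe _
  have hNt : Fintype.card {γ // γ ∈ uexp k D E} = N := Fintype.card_coe _
  have hb0 : 0 < b := by linarith only [hb]
  set bQ : ℝ := (M.factorial : ℝ) * (1 + k * (N : ℝ) ^ 2 * b ^ 2) ^ M with hbQ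
  have hbQ0 : 0 ≤ bQ := by positivity
  set c1 : ℝ := M * bQ * (k * N * b) with hc1
  set c2 : ℝ := M * bQ * (k * (N : ℝ) ^ 2 * (b * (n * (2 ^ n * (M * b))))) with hc2
  set c3 : ℝ := ((M * (2 * e) : ℕ) : ℝ) * bQ with hc3
  have hc10 : 0 ≤ c1 := by positivity
  have hc20 : 0 ≤ c2 := by positivity
  have hc30 : 0 ≤ c3 := by positivity
  refine ⟨1 + (M * ((c1 + c2) * Cm) + c3), ?_, ?_⟩
  · have : 0 ≤ M * ((c1 + c2) * Cm) + c3 := by positivity
    linarith only [this]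
  intro a
  refine ⟨M * (2 * e) + (e + n) + (a + 4 * M + n + 3) * (M * (2 * e)) + k * D, ?_⟩
  intro Λ v S' P T₀ hCΛ hv hs hS' hP hPP hent hT₀ hI₀
  have hx3 : 0 ≤ M * ((c1 + c2) * Cm) := by positivity
  have hΛ1 : 1 ≤ Λ := by linarith only [hc30, hCΛ, hx3]
  have hΛ0 : 0 < Λ := by linarith only [hc30, hCΛ, hx3]
  set y : ℝ := Λ⁻¹ with hy
  have hy0 : 0 < y := inv_pos.mpr hΛ0
  have hΛy : Λ * y = 1 := mul_inv_cancel₀ hΛ0.ne'
  have hpow : ∀ j : ℕ, Λ ^ j * y ^ j = 1 := fun j => by rw [← mul_pow, hΛy, one_pow]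
  have hdet : ∀ T, Inj (cf k D E) P T (y ^ 2) → y ^ (4 * M) ≤ (Gm (cf k D E) P).det.eval T := by
    intro T hT
    have h1 := det_inj (cf k D E) hP hPP T (y ^ 2) hT
    rw [hMt] at h1
    have h2 : 4 * M = 2 * 2 * M := by omega
    rw [h2, pow_mul, pow_mul]
    exact h1
  exact by
   obtain ⟨R, hRd, hRe⟩ := cell_poly (cf k D E) b (n * ((2 * Λ) ^ n * (M * (b * Λ)))) e n
     (a + 4 * M + n + 3) hb (by positivity) hab hae P hent (psi (cf k D E) v S')
     (fun l γ => psi_l1 (cf k D E) hb0.le hΛ1 hab hv hs hS' l γ)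
     (fun l γ => psi_deg (cf k D E) v S' l γ) (y ^ (4 * M)) (by positivity) T₀ hT₀ (hdet T₀ hI₀)
   rw [hMt] at hRd
   simp only [hMt, hNt] at hRe
   obtain ⟨G, hGd, hGe⟩ := Gpoly R hRd
   refine ⟨G, hGd, ?_⟩
   intro T S hT hTT hI hSd hσ z hz l
   have hcell : c3 * |T - T₀| ≤ y * y ^ (4 * M) := by
     have h1 : |T - T₀| ≤ y ^ (4 * M + 2) := by
       have h2 : |T - T₀| = |T - T₀| * (Λ ^ (4 * M + 2) * y ^ (4 * M + 2)) := by
         rw [hpow, mul_one]
       rw [h2, ← mul_assoc]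
       have h3 : 0 ≤ y ^ (4 * M + 2) := by positivity
       calc |T - T₀| * Λ ^ (4 * M + 2) * y ^ (4 * M + 2) ≤ 1 * y ^ (4 * M + 2) :=
             mul_le_mul_of_nonneg_right hTT h3
         _ = _ := one_mul _
     have h4 : c3 ≤ Λ := by linarith only [hCΛ, hx3]
     calc c3 * |T - T₀| ≤ Λ * y ^ (4 * M + 2) :=
           mul_le_mul h4 h1 (abs_nonneg _) hΛ0.le
       _ = (Λ * y) * (y * y ^ (4 * M)) := by ring
       _ = _ := by rw [hΛy, one_mul]
   have h1 := hRe T (sv D S) y (y ^ (a + 4 * M + 2)) hT (by positivity) (hdet T hI) hcell hσ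
   have h2 : ∀ α, |sv D S α - (R α).eval T| ≤ (c1 + c2) * y ^ (a + 2) := by
     intro α
     refine (h1 α).trans (le_of_eq ?_)
     have e1 : M * bQ * (k * N * b * y ^ (a + 4 * M + 2)) / y ^ (4 * M) = c1 * y ^ (a + 2) := by
       rw [hc1, div_eq_iff (by positivity)]
       ring
     have e2 : M * bQ * (k * (N : ℝ) ^ 2 * (b * (n * ((2 * Λ) ^ n * (M * (b * Λ)))))) /
         y ^ (4 * M) * y ^ (a + 4 * M + n + 3) = c2 * y ^ (a + 2) := by
       have e3 : y ^ (a + 4 * M + n + 3) = y ^ (4 * M) * y ^ (a + 2) * y ^ (n + 1) := by ring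
       have e4 : (2 * Λ) ^ n = 2 ^ n * Λ ^ n := mul_pow _ _ _
       have e5 := hpow (n + 1)
       have e6 : M * bQ * (k * (N : ℝ) ^ 2 * (b * (n * ((2 * Λ) ^ n * (M * (b * Λ)))))) =
           c2 * Λ ^ (n + 1) := by
         rw [hc2, e4]; ring
       rw [e6, e3]
       have h0 : y ^ (4 * M) ≠ 0 := pow_ne_zero _ hy0.ne'
       rw [div_mul_eq_mul_div, div_eq_iff h0]
       calc c2 * Λ ^ (n + 1) * (y ^ (4 * M) * y ^ (a + 2) * y ^ (n + 1)) =
             c2 * y ^ (a + 2) * y ^ (4 * M) * (Λ ^ (n + 1) * y ^ (n + 1)) := by ring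
         _ = _ := by rw [e5, mul_one]
     rw [e1, e2]; ring
   exact by
    rw [grad_sum hSd z l, hGe T z l, ← Finset.sum_sub_distrib]
    have h3 : |∑ α : {α // α ∈ mx k D}, (sv D S α *
        MvPolynomial.eval z (MvPolynomial.pderiv l (MvPolynomial.monomial α.1 (1 : ℝ))) -
        (R α).eval T * MvPolynomial.eval z (MvPolynomial.pderiv l
          (MvPolynomial.monomial α.1 (1 : ℝ))))| ≤ M * ((c1 + c2) * y ^ (a + 2) * Cm) := by
      refine (Finset.abs_sum_le_sum_abs _ _).trans ?_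
      refine (Finset.sum_le_sum (g := fun _ => (c1 + c2) * y ^ (a + 2) * Cm) fun α _ => ?_).trans
        (le_of_eq ?_)
      · rw [← sub_mul, abs_mul]
        exact mul_le_mul (h2 α) (hCm z hz l α) (abs_nonneg _) (by positivity)
      · rw [Finset.sum_const, Finset.card_univ, hMt, nsmul_eq_mul]
    have h4 : M * ((c1 + c2) * y ^ (a + 2) * Cm) * Λ ^ a = M * ((c1 + c2) * Cm) * y ^ 2 := by
      have e1 : y ^ (a + 2) = y ^ a * y ^ 2 := by ring
      rw [e1]
      calc M * ((c1 + c2) * (y ^ a * y ^ 2) * Cm) * Λ ^ a =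
            M * ((c1 + c2) * Cm) * y ^ 2 * (Λ ^ a * y ^ a) := by ring
        _ = _ := by rw [hpow, mul_one]
    have h5 : M * ((c1 + c2) * Cm) * y ^ 2 ≤ 1 := by
      have e1 : M * ((c1 + c2) * Cm) ≤ Λ := by linarith only [hc30, hCΛ]
      have e2 : y ^ 2 ≤ y := by
        have : y ≤ 1 := inv_le_one_of_one_le₀ hΛ1
        nlinarith only [hc30, hCΛ, hx3, hy0, hΛy]
      calc M * ((c1 + c2) * Cm) * y ^ 2 ≤ Λ * y := mul_le_mul e1 e2 (by positivity) hΛ0.le
        _ = 1 := hΛy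
    calc _ ≤ M * ((c1 + c2) * y ^ (a + 2) * Cm) * Λ ^ a :=
          mul_le_mul_of_nonneg_right h3 (by positivity)
      _ ≤ 1 := by rw [h4]; exact h5

end Pool.LBL
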