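import Pool.Agent.H50.LBL.Pre

/-!
# General linear elimination: statement and preparations

An unknown vector `s`, function of the context, satisfies along typical lines `c` linear equations
whose coefficients are polynomials in the time with coefficients monomials in bounded hidden data of
the line. `GLBStmt`: the fresh vector is polynomial in the time on a cell.
-/

set_option autoImplicit false

namespace Pool.GLB

open Finset Polynomial Matrix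
open Pool.Agent.H49.Ent Pool.Agent.H32.Dense Pool.STK Pool.KS3 Pool.BFL Pool.GNB Pool.LBL

section

variable {h m c n : ℕ} {NN : Finset (Fin h →₀ ℕ)}

/-- The monomials of the line data. -/
noncomputable def mo (NN : Finset (Fin h →₀ ℕ)) (β : Fin h → ℝ) : {γ // γ ∈ NN} → ℝ :=
  fun γ => γ.1.prod fun i d => β i ^ d

/-- The value of the equation `l` on the vector `s` at the time `T` along the line `β`. -/
noncomputable def ev (a : Fin c → {γ // γ ∈ NN} → Fin m → ℝ[X]) (β : Fin h → ℝ) (T : ℝ)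
    (s : Fin m → ℝ) (l : Fin c) : ℝ :=
  ∑ γ : {γ // γ ∈ NN}, (∑ α, (a l γ α).eval T * s α) * γ.1.prod fun i d => β i ^ d

end

/-- **General linear elimination.** -/
def GLBStmt : Prop :=
  ∀ (h m c n : ℕ) (NN : Finset (Fin h →₀ ℕ)) (a : Fin c → {γ // γ ∈ NN} → Fin m → ℝ[X]) (C₀ : ℝ),
    1 ≤ C₀ → ∀ j : ℕ, ∃ (C : ℝ) (A₂ : ℕ), 1 ≤ C ∧ ∀ q : ℕ, ∃ A K₂ : ℕ,
    ∀ (R : ℕ) (Ω Γ : Type) [Fintype Ω] (p : Ω → ℝ) (x : Ω → Γ) (β : Ω → Fin h → ℝ)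
      (t : ℕ → Γ → ℝ) (v : Γ → Fin n → ℝ) (s : ℕ → Γ → Fin m → ℝ) (s' : Γ → Fin n → Fin m → ℝ)
      (g : Ω → Fin c → ℝ[X]) (Gd : Ω → Prop) (Λ τ η : ℝ),
      0 < R → IsLaw p → 0 < τ → C ≤ Λ → τ * Λ ^ A ≤ 1 →
      (∀ ω, Gd ω → (∀ i, |β ω i| ≤ C₀) ∧ (∀ r < R, |t r (x ω)| ≤ 1) ∧
        (∀ i, |v (x ω) i| ≤ 1) ∧ (∀ i i', i ≠ i' → 1 ≤ Λ * |v (x ω) i - v (x ω) i'|) ∧
        (∀ l, (g ω l).degree < n) ∧ (∀ r < R, ∀ α, |s r (x ω) α| ≤ Λ) ∧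
        (∀ i α, |s' (x ω) i α| ≤ Λ) ∧
        (∀ r < R, ∀ l, |ev a (β ω) (t r (x ω)) (s r (x ω)) l -
          (g ω l).eval (t r (x ω))| ≤ τ) ∧
        (∀ i l, |ev a (β ω) (v (x ω) i) (s' (x ω) i) l - (g ω l).eval (v (x ω) i)| ≤ τ)) →
      (∀ r < R, ∀ s₀ : Γ → Fin m → ℝ, (∀ y α, |s₀ y α| ≤ 1) →
        (∀ ω, Gd ω → (∃ α, |s₀ (x ω) α| = 1) →
          ∀ l, |ev a (β ω) (t r (x ω)) (s₀ (x ω)) l| * Λ ^ j ≤ 1) →
        Pb p (fun ω => Gd ω ∧ ∃ α, |s₀ (x ω) α| = 1) ≤ η) →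
      ∃ r < R, ∃ F : (Fin n → ℝ) → (Fin n → Fin m → ℝ) → (Fin r → ℝ × (Fin m → ℝ)) → ℤ →
          Fin m → ℝ[X],
        (∀ v s' P z α, (F v s' P z α).natDegree ≤ K₂) ∧
        Pb p (fun ω => Gd ω ∧ ¬ ∀ α, |s r (x ω) α - (F (v (x ω)) (s' (x ω))
          (fun i : Fin r => (t i (x ω), s i (x ω))) ⌊t r (x ω) * Λ ^ A₂⌋ α).eval
            (t r (x ω))| * Λ ^ q ≤ 1) ≤ (NN.card : ℝ) / R + η

section

variable {h m c n : ℕ} {NN : Finset (Fin h →₀ ℕ)}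

theorem ev_eq (a : Fin c → {γ // γ ∈ NN} → Fin m → ℝ[X]) (β : Fin h → ℝ) (T : ℝ)
    (s : Fin m → ℝ) (l : Fin c) : ev a β T s l = (Am a T l *ᵥ s) ⬝ᵥ mo NN β := rfl

/-- The part of the nodes. -/
noncomputable def psi (a : Fin c → {γ // γ ∈ NN} → Fin m → ℝ[X])
    (v : Fin n → ℝ) (s' : Fin n → Fin m → ℝ) (l : Fin c) (γ : {γ // γ ∈ NN}) : ℝ[X] :=
  ∑ j, Lagrange.basis Finset.univ v j * C ((Am a (v j) l *ᵥ s' j) γ)

/-- The functional of a sample. -/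
noncomputable def uu (a : Fin c → {γ // γ ∈ NN} → Fin m → ℝ[X])
    (v : Fin n → ℝ) (s' : Fin n → Fin m → ℝ) (T : ℝ) (s : Fin m → ℝ) (l : Fin c) :
    {γ // γ ∈ NN} → ℝ :=
  Am a T l *ᵥ s - fun γ => (psi a v s' l γ).eval T

theorem dot_uu (a : Fin c → {γ // γ ∈ NN} → Fin m → ℝ[X])
    (v : Fin n → ℝ) (s' : Fin n → Fin m → ℝ) (T : ℝ) (s : Fin m → ℝ) (l : Fin c)
    (β : Fin h → ℝ) :
    uu a v s' T s l ⬝ᵥ mo NN β = ev a β T s l - ∑ j, lw v j T * ev a β (v j) (s' j) l := by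
  unfold uu
  rw [sub_dotProduct, ev_eq]
  congr 1
  have h1 : (fun γ => (psi a v s' l γ).eval T) = ∑ j, lw v j T • (Am a (v j) l *ᵥ s' j) := by
    funext γ
    unfold psi lw
    rw [Polynomial.eval_finsetSum, Finset.sum_apply]
    refine Finset.sum_congr rfl fun j _ => ?_
    rw [Polynomial.eval_mul, Polynomial.eval_C, Pi.smul_apply, smul_eq_mul]
  rw [h1, sum_dotProduct]
  refine Finset.sum_congr rfl fun j _ => ?_
  rw [smul_dotProduct, smul_eq_mul, ev_eq]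

theorem Am_bd (a : Fin c → {γ // γ ∈ NN} → Fin m → ℝ[X]) {b Λ : ℝ} (hb : 0 ≤ b)
    (hab : ∀ l γ α, l1 (a l γ α) ≤ b) {T : ℝ} (hT : |T| ≤ 1) (s : Fin m → ℝ)
    (hs : ∀ α, |s α| ≤ Λ) (l : Fin c) (γ : {γ // γ ∈ NN}) :
    |(Am a T l *ᵥ s) γ| ≤ m * (b * Λ) := by
  show |∑ α, Am a T l γ α * s α| ≤ _
  refine (Finset.abs_sum_le_sum_abs _ _).trans ?_
  have h1 : ∀ α ∈ (Finset.univ : Finset (Fin m)), |Am a T l γ α * s α| ≤ b * Λ := by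
    intro α _
    rw [abs_mul]
    exact mul_le_mul ((eval_l1 _ hT).trans (hab l γ α)) (hs α) (abs_nonneg _) hb
  refine (Finset.sum_le_sum h1).trans (le_of_eq ?_)
  rw [Finset.sum_const, Finset.card_univ, Fintype.card_fin, nsmul_eq_mul]

theorem psi_l1 (a : Fin c → {γ // γ ∈ NN} → Fin m → ℝ[X]) {b Λ : ℝ} (hb : 0 ≤ b)
    (hΛ : 1 ≤ Λ) (hab : ∀ l γ α, l1 (a l γ α) ≤ b) {v : Fin n → ℝ} (hv : ∀ i, |v i| ≤ 1)
    (hs : ∀ i j, i ≠ j → 1 ≤ Λ * |v i - v j|) {s' : Fin n → Fin m → ℝ}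
    (hs' : ∀ j α, |s' j α| ≤ Λ) (l : Fin c) (γ : {γ // γ ∈ NN}) :
    l1 (psi a v s' l γ) ≤ n * ((2 * Λ) ^ n * (m * (b * Λ))) := by
  unfold psi
  refine (l1_sum_le _ _ ((2 * Λ) ^ n * (m * (b * Λ))) ?_).trans (le_of_eq ?_)
  · intro j _
    refine l1_mul_le (basis_l1 hΛ hv hs j) ?_
    rw [l1_C]
    exact Am_bd a hb hab (hv j) _ (fun α => hs' j α) l γ
  · rw [Finset.card_univ, Fintype.card_fin]

theorem psi_deg (a : Fin c → {γ // γ ∈ NN} → Fin m → ℝ[X]) (v : Fin n → ℝ)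
    (s' : Fin n → Fin m → ℝ) (l : Fin c) (γ : {γ // γ ∈ NN}) :
    (psi a v s' l γ).natDegree ≤ n := by
  unfold psi
  refine Polynomial.natDegree_sum_le_of_forall_le _ _ fun j _ => ?_
  refine Polynomial.natDegree_mul_le.trans ?_
  rw [Polynomial.natDegree_C, add_zero]
  exact basis_deg v j

theorem uu_bd (a : Fin c → {γ // γ ∈ NN} → Fin m → ℝ[X]) {b Λ : ℝ} (hb : 0 ≤ b)
    (hΛ : 1 ≤ Λ) (hab : ∀ l γ α, l1 (a l γ α) ≤ b) {v : Fin n → ℝ} (hv : ∀ i, |v i| ≤ 1)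
    (hs : ∀ i j, i ≠ j → 1 ≤ Λ * |v i - v j|) {s' : Fin n → Fin m → ℝ}
    (hs' : ∀ j α, |s' j α| ≤ Λ) {T : ℝ} (hT : |T| ≤ 1) {s : Fin m → ℝ}
    (hS : ∀ α, |s α| ≤ Λ) (l : Fin c) (γ : {γ // γ ∈ NN}) :
    |uu a v s' T s l γ| ≤ (1 + n * (2 * Λ) ^ n) * (m * (b * Λ)) := by
  unfold uu
  rw [Pi.sub_apply]
  refine (abs_sub _ _).trans ?_
  have h1 := Am_bd a hb hab hT s hS l γ
  have h2 := (eval_l1 (psi a v s' l γ) hT).trans (psi_l1 a hb hΛ hab hv hs hs' l γ)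
  calc _ ≤ m * (b * Λ) + n * ((2 * Λ) ^ n * (m * (b * Λ))) := add_le_add h1 h2
    _ = _ := by ring

theorem uu_sm (a : Fin c → {γ // γ ∈ NN} → Fin m → ℝ[X])
    {Λ τ : ℝ} (hΛ : 1 ≤ Λ) (hτ : 0 ≤ τ) {v : Fin n → ℝ} (hv : ∀ i, |v i| ≤ 1)
    (hs : ∀ i j, i ≠ j → 1 ≤ Λ * |v i - v j|) {s' : Fin n → Fin m → ℝ}
    {T : ℝ} (hT : |T| ≤ 1) {s : Fin m → ℝ}
    (l : Fin c) (β : Fin h → ℝ) (q : ℝ[X]) (hq : q.degree < n)
    (h1 : |ev a β T s l - q.eval T| ≤ τ)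
    (h2 : ∀ j, |ev a β (v j) (s' j) l - q.eval (v j)| ≤ τ) :
    |uu a v s' T s l ⬝ᵥ mo NN β| ≤ (1 + n * (2 * Λ) ^ n) * τ := by
  rw [dot_uu a v s' T s l β]
  have hΛ0 : 0 < Λ := by linarith
  have hsep : ∀ i j, i ≠ j → Λ⁻¹ ≤ |v i - v j| := by
    intro i j hij
    rw [inv_le_iff_one_le_mul₀ hΛ0, mul_comm]
    exact hs i j hij
  have hinj : Function.Injective v := by
    intro i j hij
    by_contra hne
    have h3 := hs i j hne
    rw [hij, sub_self, abs_zero, mul_zero] at h3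
    linarith
  have h3 := lw_sum hinj hq T
  set a₀ := ev a β T s l with ha₀
  set a' : Fin n → ℝ := fun j => ev a β (v j) (s' j) l with ha'
  have h4 : a₀ - ∑ j, lw v j T * a' j = (a₀ - q.eval T) -
      ∑ j, lw v j T * (a' j - q.eval (v j)) := by
    simp only [mul_sub, Finset.sum_sub_distrib]
    rw [h3]
    ring
  have h5 : |∑ j, lw v j T * (a' j - q.eval (v j))| ≤ n * ((2 * Λ) ^ n * τ) := by
    refine (Finset.abs_sum_le_sum_abs _ _).trans ?_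
    have h6 : ∀ j ∈ (Finset.univ : Finset (Fin n)),
        |lw v j T * (a' j - q.eval (v j))| ≤ (2 * Λ) ^ n * τ := by
      intro j _
      rw [abs_mul]
      refine mul_le_mul ?_ (h2 j) (abs_nonneg _) (by positivity)
      have h7 := lw_bound (inv_pos.mpr hΛ0) (inv_le_one_of_one_le₀ hΛ) hT hv hsep j
      rw [div_inv_eq_mul] at h7
      exact h7
    refine (Finset.sum_le_sum h6).trans (le_of_eq ?_)
    rw [Finset.sum_const, Finset.card_univ, Fintype.card_fin, nsmul_eq_mul]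
  rw [h4]
  refine (abs_sub _ _).trans ?_
  calc |a₀ - q.eval T| + |∑ j, lw v j T * (a' j - q.eval (v j))| ≤
        τ + n * ((2 * Λ) ^ n * τ) := add_le_add h1 h5
    _ = _ := by ring

theorem mo_bd {C₀ : ℝ} (hC₀ : 1 ≤ C₀) (NN : Finset (Fin h →₀ ℕ)) :
    ∃ Cv : ℝ, 1 ≤ Cv ∧ ∀ β : Fin h → ℝ, (∀ i, |β i| ≤ C₀) →
      ∀ γ : {γ // γ ∈ NN}, |mo NN β γ| ≤ Cv := by
  refine ⟨1 + ∑ γ ∈ NN, C₀ ^ (γ.sum fun _ d => d), ?_, ?_⟩
  · have : 0 ≤ ∑ γ ∈ NN, C₀ ^ (γ.sum fun _ d => d) :=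
      Finset.sum_nonneg fun _ _ => by positivity
    linarith
  · intro β hβ γ
    have h1 : |mo NN β γ| ≤ C₀ ^ (γ.1.sum fun _ d => d) := by
      unfold mo
      rw [Finsupp.prod, Finset.abs_prod, Finsupp.sum, ← Finset.prod_pow_eq_pow_sum]
      refine Finset.prod_le_prod (fun _ _ => abs_nonneg _) fun q _ => ?_
      rw [abs_pow]
      exact pow_le_pow_left₀ (abs_nonneg _) (hβ _) _
    have h2 : C₀ ^ (γ.1.sum fun _ d => d) ≤ ∑ γ ∈ NN, C₀ ^ (γ.sum fun _ d => d) :=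
      Finset.single_le_sum (f := fun γ : Fin h →₀ ℕ => C₀ ^ (γ.sum fun _ d => d))
        (fun _ _ => by positivity) γ.2
    linarith

/-- Injectivity at the tolerance. -/
def Inj (a : Fin c → {γ // γ ∈ NN} → Fin m → ℝ[X])
    (P : Matrix {γ // γ ∈ NN} {γ // γ ∈ NN} ℝ) (T μ : ℝ) : Prop :=
  ∀ x : Fin m → ℝ, μ ^ 2 * (x ⬝ᵥ x) ≤
    ∑ l, (P *ᵥ (Am a T l *ᵥ x)) ⬝ᵥ (P *ᵥ (Am a T l *ᵥ x))

theorem not_inj (a : Fin c → {γ // γ ∈ NN} → Fin m → ℝ[X])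
    (P : Matrix {γ // γ ∈ NN} {γ // γ ∈ NN} ℝ) (T μ : ℝ) (hμ : 0 ≤ μ) (hI : ¬ Inj a P T μ) :
    ∃ s : Fin m → ℝ, (∀ α, |s α| ≤ 1) ∧ (∃ α, |s α| = 1) ∧
      ∀ l γ, |(P *ᵥ (Am a T l *ᵥ s)) γ| ≤ μ * m := by
  unfold Inj at hI
  push Not at hI
  obtain ⟨x, hx⟩ := hI
  have hx0 : 0 < x ⬝ᵥ x := by
    have h0 : 0 ≤ x ⬝ᵥ x := by
      unfold dotProduct
      exact Finset.sum_nonneg fun i _ => mul_self_nonneg _
    rcases h0.lt_or_eq with h1 | h1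
    · exact h1
    · exfalso
      rw [← h1, mul_zero] at hx
      have : 0 ≤ ∑ l, (P *ᵥ (Am a T l *ᵥ x)) ⬝ᵥ (P *ᵥ (Am a T l *ᵥ x)) := by
        refine Finset.sum_nonneg fun l _ => ?_
        unfold dotProduct
        exact Finset.sum_nonneg fun i _ => mul_self_nonneg _
      linarith
  have hne : (Finset.univ : Finset (Fin m)).Nonempty := by
    by_contra hcon
    rw [Finset.not_nonempty_iff_eq_empty] at hcon
    unfold dotProduct at hx0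
    rw [hcon, Finset.sum_empty] at hx0
    exact lt_irrefl _ hx0
  obtain ⟨α₀, _, hα₀⟩ := Finset.exists_max_image _ (fun α => |x α|) hne
  set σ : ℝ := |x α₀| with hσ
  have hσm : ∀ α, |x α| ≤ σ := fun α => hα₀ α (Finset.mem_univ α)
  have hM : x ⬝ᵥ x ≤ m * σ ^ 2 := by
    unfold dotProduct
    have h1 : ∀ α ∈ (Finset.univ : Finset (Fin m)), x α * x α ≤ σ ^ 2 := by
      intro α _
      rw [← sq, ← sq_abs]
      exact pow_le_pow_left₀ (abs_nonneg _) (hσm α) 2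
    refine (Finset.sum_le_sum h1).trans (le_of_eq ?_)
    rw [Finset.sum_const, Finset.card_univ, Fintype.card_fin, nsmul_eq_mul]
  have hσ0 : 0 < σ := by
    rcases (abs_nonneg (x α₀)).lt_or_eq with h1 | h1
    · exact h1
    · exfalso
      rw [← hσ] at h1
      rw [← h1] at hM
      simp at hM
      linarith
  have hcard : (1 : ℝ) ≤ m := by
    have h2 : 0 < m := by
      have := Finset.card_pos.mpr hne
      rwa [Finset.card_univ, Fintype.card_fin] at this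
    exact_mod_cast h2
  refine ⟨fun α => x α / σ, ?_, ⟨α₀, ?_⟩, ?_⟩
  · intro α
    rw [abs_div, abs_of_pos hσ0, div_le_one hσ0]
    exact hσm α
  · rw [abs_div, abs_of_pos hσ0, ← hσ, div_self hσ0.ne']
  · intro l γ
    have h1 : (fun α => x α / σ) = σ⁻¹ • x := by
      funext α
      rw [Pi.smul_apply, smul_eq_mul, div_eq_inv_mul]
    rw [h1, Matrix.mulVec_smul, Matrix.mulVec_smul, Pi.smul_apply, smul_eq_mul, abs_mul, abs_inv,
      abs_of_pos hσ0, inv_mul_le_iff₀ hσ0]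
    have h2 : (P *ᵥ (Am a T l *ᵥ x)) γ ^ 2 ≤ (σ * (μ * m)) ^ 2 := by
      have h3 : (P *ᵥ (Am a T l *ᵥ x)) γ ^ 2 ≤
          (P *ᵥ (Am a T l *ᵥ x)) ⬝ᵥ (P *ᵥ (Am a T l *ᵥ x)) := by
        rw [sq]
        unfold dotProduct
        exact Finset.single_le_sum (f := fun γ => (P *ᵥ (Am a T l *ᵥ x)) γ *
          (P *ᵥ (Am a T l *ᵥ x)) γ) (fun _ _ => mul_self_nonneg _) (Finset.mem_univ γ)
      have h4 : (P *ᵥ (Am a T l *ᵥ x)) ⬝ᵥ (P *ᵥ (Am a T l *ᵥ x)) ≤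
          ∑ l, (P *ᵥ (Am a T l *ᵥ x)) ⬝ᵥ (P *ᵥ (Am a T l *ᵥ x)) :=
        Finset.single_le_sum (f := fun l => (P *ᵥ (Am a T l *ᵥ x)) ⬝ᵥ (P *ᵥ (Am a T l *ᵥ x)))
          (fun l _ => by
            unfold dotProduct
            exact Finset.sum_nonneg fun i _ => mul_self_nonneg _) (Finset.mem_univ l)
      have h5 : μ ^ 2 * (x ⬝ᵥ x) ≤ μ ^ 2 * (m * σ ^ 2) :=
        mul_le_mul_of_nonneg_left hM (sq_nonneg _)
      have h6 : μ ^ 2 * (m * σ ^ 2) ≤ (σ * (μ * m)) ^ 2 := by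
        have h7 : (σ * (μ * m)) ^ 2 = μ ^ 2 * σ ^ 2 * (m : ℝ) ^ 2 := by ring
        rw [h7]
        have h8 : (m : ℝ) ≤ (m : ℝ) ^ 2 := by nlinarith
        have h9 : 0 ≤ μ ^ 2 * σ ^ 2 := by positivity
        nlinarith
      linarith
    have h3 : 0 ≤ σ * (μ * m) := by positivity
    exact abs_le_of_sq_le_sq h2 h3

theorem a_bound (a : Fin c → {γ // γ ∈ NN} → Fin m → ℝ[X]) : ∃ (b : ℝ) (e : ℕ), 1 ≤ b ∧
    (∀ l γ α, l1 (a l γ α) ≤ b) ∧ ∀ l γ α, (a l γ α).natDegree ≤ e := by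
  classical
  refine ⟨1 + ∑ l, ∑ γ, ∑ α, l1 (a l γ α), ∑ l, ∑ γ, ∑ α, (a l γ α).natDegree, ?_, ?_, ?_⟩
  · have : 0 ≤ ∑ l, ∑ γ, ∑ α, l1 (a l γ α) :=
      Finset.sum_nonneg fun _ _ => Finset.sum_nonneg fun _ _ => Finset.sum_nonneg fun _ _ => l1_nn _
    linarith
  · intro l γ α
    have h1 : l1 (a l γ α) ≤ ∑ α, l1 (a l γ α) :=
      Finset.single_le_sum (f := fun α => l1 (a l γ α)) (fun _ _ => l1_nn _) (Finset.mem_univ α)
    have h2 : ∑ α, l1 (a l γ α) ≤ ∑ γ, ∑ α, l1 (a l γ α) :=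
      Finset.single_le_sum (f := fun γ => ∑ α, l1 (a l γ α))
        (fun _ _ => Finset.sum_nonneg fun _ _ => l1_nn _) (Finset.mem_univ γ)
    have h3 : ∑ γ, ∑ α, l1 (a l γ α) ≤ ∑ l, ∑ γ, ∑ α, l1 (a l γ α) :=
      Finset.single_le_sum (f := fun l => ∑ γ, ∑ α, l1 (a l γ α))
        (fun _ _ => Finset.sum_nonneg fun _ _ => Finset.sum_nonneg fun _ _ => l1_nn _)
        (Finset.mem_univ l)
    linarith
  · intro l γ α
    have h1 : (a l γ α).natDegree ≤ ∑ α, (a l γ α).natDegree :=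
      Finset.single_le_sum (f := fun α => (a l γ α).natDegree) (fun _ _ => Nat.zero_le _)
        (Finset.mem_univ α)
    have h2 : ∑ α, (a l γ α).natDegree ≤ ∑ γ, ∑ α, (a l γ α).natDegree :=
      Finset.single_le_sum (f := fun γ => ∑ α, (a l γ α).natDegree)
        (fun _ _ => Nat.zero_le _) (Finset.mem_univ γ)
    have h3 : ∑ γ, ∑ α, (a l γ α).natDegree ≤ ∑ l, ∑ γ, ∑ α, (a l γ α).natDegree :=
      Finset.single_le_sum (f := fun l => ∑ γ, ∑ α, (a l γ α).natDegree)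
        (fun _ _ => Nat.zero_le _) (Finset.mem_univ l)
    omega

end

end Pool.GLB
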