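import Pool.Agent.H50.LBL.GlbT

/-!
# General linear elimination as a dichotomy

Either the fresh vector is polynomial in the time on a cell, or there is a relation: a vector `s₀` of
norm `1`, a function of the context, which satisfies all the homogeneous equations on an event of
probability larger than `η`.
-/

set_option autoImplicit false

namespace Pool.GLB

open Finset Polynomial Matrix
open Pool.Agent.H49.Ent Pool.Agent.H32.Dense Pool.STK Pool.KS3 Pool.BFL Pool.GNB Pool.LBL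

/-- **General linear elimination, dichotomy.** -/
theorem glb_or (h m c n : ℕ) (NN : Finset (Fin h →₀ ℕ))
    (a : Fin c → {γ // γ ∈ NN} → Fin m → ℝ[X]) (C₀ : ℝ) (hC₀ : 1 ≤ C₀) (j : ℕ) :
    ∃ (C : ℝ) (A₂ : ℕ), 1 ≤ C ∧ ∀ q : ℕ, ∃ A K₂ : ℕ,
    ∀ (R : ℕ) (Ω Γ : Type) [Fintype Ω] (p : Ω → ℝ) (x : Ω → Γ) (β : Ω → Fin h → ℝ)
      (t : ℕ → Γ → ℝ) (v : Γ → Fin n → ℝ) (s : ℕ → Γ → Fin m → ℝ) (s' : Γ → Fin n → Fin m → ℝ)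
      (g : Ω → Fin c → ℝ[X]) (Gd : Ω → Prop) (Λ τ η : ℝ),
      0 < R → IsLaw p → 0 < τ → C ≤ Λ → τ * Λ ^ A ≤ 1 →
      (∀ ω, Gd ω → (∀ i, |β ω i| ≤ C₀) ∧ (∀ r < R, |t r (x ω)| ≤ 1) ∧
        (∀ i, |v (x ω) i| ≤ 1) ∧ (∀ i i', i ≠ i' → 1 ≤ Λ * |v (x ω) i - v (x ω) i'|) ∧
        (∀ l, (g ω l).degree < n) ∧ (∀ r < R, ∀ α, |s r (x ω) α| ≤ Λ) ∧
        (∀ i α, |s' (x ω) i α| ≤ Λ) ∧
        (∀ r < R, ∀ l, |ev a (β ω) (t r (x ω)) (s r (x ω)) l -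
          (g ω l).eval (t r (x ω))| ≤ τ) ∧
        (∀ i l, |ev a (β ω) (v (x ω) i) (s' (x ω) i) l - (g ω l).eval (v (x ω) i)| ≤ τ)) →
      (∃ r < R, ∃ F : (Fin n → ℝ) → (Fin n → Fin m → ℝ) → (Fin r → ℝ × (Fin m → ℝ)) → ℤ →
          Fin m → ℝ[X],
        (∀ v s' P z α, (F v s' P z α).natDegree ≤ K₂) ∧
        Pb p (fun ω => Gd ω ∧ ¬ ∀ α, |s r (x ω) α - (F (v (x ω)) (s' (x ω))
          (fun i : Fin r => (t i (x ω), s i (x ω))) ⌊t r (x ω) * Λ ^ A₂⌋ α).eval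
            (t r (x ω))| * Λ ^ q ≤ 1) ≤ (NN.card : ℝ) / R + η) ∨
      ∃ r < R, ∃ s₀ : Γ → Fin m → ℝ, (∀ y α, |s₀ y α| ≤ 1) ∧
        (∀ ω, Gd ω → (∃ α, |s₀ (x ω) α| = 1) →
          ∀ l, |ev a (β ω) (t r (x ω)) (s₀ (x ω)) l| * Λ ^ j ≤ 1) ∧
        η < Pb p (fun ω => Gd ω ∧ ∃ α, |s₀ (x ω) α| = 1) := by
  obtain ⟨C, A₂, hC, H⟩ := glb_thm h m c n NN a C₀ hC₀ j
  refine ⟨C, A₂, hC, fun q => ?_⟩
  obtain ⟨A, K₂, H1⟩ := H q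
  refine ⟨A, K₂, ?_⟩
  intro R Ω Γ _ p x β t v s s' g Gd Λ τ η hR hp hτ hΛ hτΛ hG
  by_cases hI : ∀ r < R, ∀ s₀ : Γ → Fin m → ℝ, (∀ y α, |s₀ y α| ≤ 1) →
        (∀ ω, Gd ω → (∃ α, |s₀ (x ω) α| = 1) →
          ∀ l, |ev a (β ω) (t r (x ω)) (s₀ (x ω)) l| * Λ ^ j ≤ 1) →
        Pb p (fun ω => Gd ω ∧ ∃ α, |s₀ (x ω) α| = 1) ≤ η
  · exact Or.inl (H1 R Ω Γ p x β t v s s' g Gd Λ τ η hR hp hτ hΛ hτΛ hG hI)
  · right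
    push Not at hI
    obtain ⟨r, hr, s₀, h1, h2, h3⟩ := hI
    exact ⟨r, hr, s₀, h1, h2, h3⟩

end Pool.GLB
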