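import Pool.Agent.H50.LBL.Glb

/-!
# General linear elimination: the theorem
-/

set_option autoImplicit false

namespace Pool.GLB

open Finset Polynomial Matrix
open Pool.Agent.H49.Ent Pool.Agent.H32.Dense Pool.STK Pool.KS3 Pool.BFL Pool.GNB Pool.LBL

theorem Pb_two {Ω : Type} [Fintype Ω] {p : Ω → ℝ} (hp : ∀ ω, 0 ≤ p ω) (A B : Ω → Prop) :
    Pb p (fun ω => A ω ∨ B ω) ≤ Pb p A + Pb p B := by
  classical
  unfold Pb
  rw [← Finset.sum_add_distrib]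
  refine Finset.sum_le_sum fun ω _ => ?_
  by_cases hA : A ω
  · rw [if_pos hA, if_pos (Or.inl hA)]
    split_ifs
    · linarith [hp ω]
    · linarith
  · rw [if_neg hA]
    by_cases hB : B ω
    · rw [if_pos hB, if_pos (Or.inr hB)]; linarith
    · rw [if_neg hB, if_neg]
      · linarith
      · rintro (h | h)
        · exact hA h
        · exact hB h

theorem floor_near {T T₀ x : ℝ} (hx : 0 < x) (h : ⌊T * x⌋ = ⌊T₀ * x⌋) : |T - T₀| * x ≤ 1 := by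
  have h1 := Int.abs_sub_lt_one_of_floor_eq_floor h
  have h2 : |T - T₀| * x = |T * x - T₀ * x| := by
    rw [← sub_mul, abs_mul, abs_of_pos hx]
  rw [h2]; exact h1.le

section

variable {h m c n : ℕ} {NN : Finset (Fin h →₀ ℕ)}

/-- **The polynomials on a cell.** `E2` is the number of digits of `q₀`. -/
theorem cell_G (a : Fin c → {γ // γ ∈ NN} → Fin m → ℝ[X]) (n j : ℕ) : ∃ C : ℝ, 1 ≤ C ∧
    ∀ q : ℕ, ∃ K₂ : ℕ,
    ∀ (Λ : ℝ) (v : Fin n → ℝ) (s' : Fin n → Fin m → ℝ)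
      (P : Matrix {γ // γ ∈ NN} {γ // γ ∈ NN} ℝ) (T₀ : ℝ), C ≤ Λ →
      (∀ i, |v i| ≤ 1) → (∀ i j, i ≠ j → 1 ≤ Λ * |v i - v j|) →
      (∀ i α, |s' i α| ≤ Λ) → Pᵀ = P → P * P = P → (∀ i j, |P i j| ≤ 1) →
      |T₀| ≤ 1 → Inj a P T₀ (Λ⁻¹ ^ (j + 1)) →
      ∃ G : Fin m → ℝ[X], (∀ α, (G α).natDegree ≤ K₂) ∧ ∀ (T : ℝ) (s : Fin m → ℝ), |T| ≤ 1 →
        |T - T₀| * Λ ^ (2 * (j + 1) * m + 2) ≤ 1 → Inj a P T (Λ⁻¹ ^ (j + 1)) →
        (∀ l γ, |(P *ᵥ uu a v s' T s l) γ| ≤ Λ⁻¹ ^ (q + 2 * (j + 1) * m + 2)) →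
        ∀ α, |s α - (G α).eval T| * Λ ^ q ≤ 1 := by
  classical
  obtain ⟨b, e, hb, hab, hae⟩ := a_bound a
  set N : ℕ := NN.card with hN
  have hMt : Fintype.card (Fin m) = m := Fintype.card_fin _
  have hNt : Fintype.card {γ // γ ∈ NN} = N := Fintype.card_coe _
  have hb0 : 0 < b := by linarith
  set bQ : ℝ := (m.factorial : ℝ) * (1 + c * (N : ℝ) ^ 2 * b ^ 2) ^ m with hbQ
  have hbQ0 : 0 ≤ bQ := by positivity
  set c1 : ℝ := m * bQ * (c * N * b) with hc1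
  set c2 : ℝ := m * bQ * (c * (N : ℝ) ^ 2 * (b * (n * (2 ^ n * (m * b))))) with hc2
  set c3 : ℝ := ((m * (2 * e) : ℕ) : ℝ) * bQ with hc3
  have hc10 : 0 ≤ c1 := by positivity
  have hc20 : 0 ≤ c2 := by positivity
  have hc30 : 0 ≤ c3 := by positivity
  refine ⟨1 + (c1 + c2 + c3), by linarith, ?_⟩
  intro q
  set E2 : ℕ := 2 * (j + 1) * m with hE2
  refine ⟨m * (2 * e) + (e + n) + (q + E2 + n + 3) * (m * (2 * e)), ?_⟩
  intro Λ v s' P T₀ hCΛ hv hs hs' hP hPP hent hT₀ hI₀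
  have hΛ1 : 1 ≤ Λ := by linarith only [hCΛ, hc10, hc20, hc30]
  have hΛ0 : 0 < Λ := by linarith only [hΛ1]
  set y : ℝ := Λ⁻¹ with hy
  have hy0 : 0 < y := inv_pos.mpr hΛ0
  have hΛy : Λ * y = 1 := mul_inv_cancel₀ hΛ0.ne'
  have hpow : ∀ i : ℕ, Λ ^ i * y ^ i = 1 := fun i => by rw [← mul_pow, hΛy, one_pow]
  have hdet : ∀ T, Inj a P T (y ^ (j + 1)) → y ^ E2 ≤ (Gm a P).det.eval T := by
    intro T hT
    have h1 := det_inj a hP hPP T (y ^ (j + 1)) hT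
    rw [hMt] at h1
    have h2 : E2 = (j + 1) * 2 * m := by rw [hE2]; ring
    rw [h2, pow_mul, pow_mul]
    exact h1
  obtain ⟨R, hRd, hRe⟩ := cell_poly a b (n * ((2 * Λ) ^ n * (m * (b * Λ)))) e n
    (q + E2 + n + 3) hb (by positivity) hab hae P hent (psi a v s')
    (fun l γ => psi_l1 a hb0.le hΛ1 hab hv hs hs' l γ)
    (fun l γ => psi_deg a v s' l γ) (y ^ E2) (by positivity) T₀ hT₀ (hdet T₀ hI₀)
  rw [hMt] at hRd
  simp only [hMt, hNt] at hRe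
  refine ⟨R, hRd, ?_⟩
  exact by
   intro T s hT hTT hI hσ α
   have hcell : c3 * |T - T₀| ≤ y * y ^ E2 := by
     have h1 : |T - T₀| ≤ y ^ (E2 + 2) := by
       have h2 : |T - T₀| = |T - T₀| * (Λ ^ (E2 + 2) * y ^ (E2 + 2)) := by
         rw [hpow, mul_one]
       rw [h2, ← mul_assoc]
       have h3 : 0 ≤ y ^ (E2 + 2) := by positivity
       calc |T - T₀| * Λ ^ (E2 + 2) * y ^ (E2 + 2) ≤ 1 * y ^ (E2 + 2) :=
             mul_le_mul_of_nonneg_right hTT h3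
         _ = _ := one_mul _
     have h4 : c3 ≤ Λ := by linarith only [hCΛ, hc10, hc20]
     calc c3 * |T - T₀| ≤ Λ * y ^ (E2 + 2) :=
           mul_le_mul h4 h1 (abs_nonneg _) hΛ0.le
       _ = (Λ * y) * (y * y ^ E2) := by ring
       _ = _ := by rw [hΛy, one_mul]
   have h1 := hRe T s y (y ^ (q + E2 + 2)) hT (by positivity) (hdet T hI) hcell hσ α
   have h2 : |s α - (R α).eval T| ≤ (c1 + c2) * y ^ (q + 2) := by
     refine h1.trans (le_of_eq ?_)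
     have e1 : m * bQ * (c * N * b * y ^ (q + E2 + 2)) / y ^ E2 = c1 * y ^ (q + 2) := by
       rw [hc1, div_eq_iff (by positivity)]
       ring
     have e2 : m * bQ * (c * (N : ℝ) ^ 2 * (b * (n * ((2 * Λ) ^ n * (m * (b * Λ)))))) /
         y ^ E2 * y ^ (q + E2 + n + 3) = c2 * y ^ (q + 2) := by
       have e3 : y ^ (q + E2 + n + 3) = y ^ E2 * y ^ (q + 2) * y ^ (n + 1) := by ring
       have e4 : (2 * Λ) ^ n = 2 ^ n * Λ ^ n := mul_pow _ _ _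
       have e5 := hpow (n + 1)
       have e6 : m * bQ * (c * (N : ℝ) ^ 2 * (b * (n * ((2 * Λ) ^ n * (m * (b * Λ)))))) =
           c2 * Λ ^ (n + 1) := by
         rw [hc2, e4]; ring
       rw [e6, e3]
       have h0 : y ^ E2 ≠ 0 := pow_ne_zero _ hy0.ne'
       rw [div_mul_eq_mul_div, div_eq_iff h0]
       calc c2 * Λ ^ (n + 1) * (y ^ E2 * y ^ (q + 2) * y ^ (n + 1)) =
             c2 * y ^ (q + 2) * y ^ E2 * (Λ ^ (n + 1) * y ^ (n + 1)) := by ring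
         _ = _ := by rw [e5, mul_one]
     rw [e1, e2]; ring
   have h4 : (c1 + c2) * y ^ (q + 2) * Λ ^ q = (c1 + c2) * y ^ 2 := by
     have e1 : y ^ (q + 2) = y ^ q * y ^ 2 := by ring
     rw [e1]
     calc (c1 + c2) * (y ^ q * y ^ 2) * Λ ^ q = (c1 + c2) * y ^ 2 * (Λ ^ q * y ^ q) := by ring
       _ = _ := by rw [hpow, mul_one]
   have h5 : (c1 + c2) * y ^ 2 ≤ 1 := by
     have e1 : c1 + c2 ≤ Λ := by linarith only [hCΛ, hc30]
     have e2 : y ^ 2 ≤ y := by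
       have : y ≤ 1 := inv_le_one_of_one_le₀ hΛ1
       nlinarith only [this, hy0]
     calc (c1 + c2) * y ^ 2 ≤ Λ * y := mul_le_mul e1 e2 (by positivity) hΛ0.le
       _ = 1 := hΛy
   calc _ ≤ (c1 + c2) * y ^ (q + 2) * Λ ^ q :=
         mul_le_mul_of_nonneg_right h2 (by positivity)
     _ ≤ 1 := by rw [h4]; exact h5

/-- The functionals of the earlier samples. -/
def WF (a : Fin c → {γ // γ ∈ NN} → Fin m → ℝ[X]) {r : ℕ} (v : Fin n → ℝ)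
    (s' : Fin n → Fin m → ℝ) (Ps : Fin r → ℝ × (Fin m → ℝ)) : Set ({γ // γ ∈ NN} → ℝ) :=
  {w | ∃ (i : Fin r) (l : Fin c), w = uu a v s' (Ps i).1 (Ps i).2 l}

/-- The projection. -/
noncomputable def PF (a : Fin c → {γ // γ ∈ NN} → Fin m → ℝ[X]) (ρ : ℝ) {r : ℕ} (v : Fin n → ℝ)
    (s' : Fin n → Fin m → ℝ) (Ps : Fin r → ℝ × (Fin m → ℝ)) :
    Matrix {γ // γ ∈ NN} {γ // γ ∈ NN} ℝ := by
  classical
  exact pm (mch ρ (WF a v s' Ps))

/-- The property of the polynomials on the cell. -/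
def GoodF (a : Fin c → {γ // γ ∈ NN} → Fin m → ℝ[X]) (Λ : ℝ) (j q K₂ : ℕ) {r : ℕ}
    (v : Fin n → ℝ) (s' : Fin n → Fin m → ℝ) (Ps : Fin r → ℝ × (Fin m → ℝ)) (z : ℤ)
    (G : Fin m → ℝ[X]) : Prop :=
  (∀ α, (G α).natDegree ≤ K₂) ∧ ∀ (T : ℝ) (s : Fin m → ℝ), |T| ≤ 1 →
    ⌊T * Λ ^ (2 * (j + 1) * m + 2)⌋ = z →
    Inj a (PF a (Λ⁻¹ ^ (q + 2 * (j + 1) * m + 2)) v s' Ps) T (Λ⁻¹ ^ (j + 1)) →
    (∀ l γ, |(PF a (Λ⁻¹ ^ (q + 2 * (j + 1) * m + 2)) v s' Ps *ᵥ uu a v s' T s l) γ| ≤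
      Λ⁻¹ ^ (q + 2 * (j + 1) * m + 2)) →
    ∀ α, |s α - (G α).eval T| * Λ ^ q ≤ 1

open Classical in
/-- The polynomials of the cell. -/
noncomputable def FF (a : Fin c → {γ // γ ∈ NN} → Fin m → ℝ[X]) (Λ : ℝ) (j q K₂ : ℕ) {r : ℕ}
    (v : Fin n → ℝ) (s' : Fin n → Fin m → ℝ) (Ps : Fin r → ℝ × (Fin m → ℝ)) (z : ℤ) :
    Fin m → ℝ[X] :=
  if h : ∃ G, GoodF a Λ j q K₂ v s' Ps z G then h.choose else 0

theorem FF_deg (a : Fin c → {γ // γ ∈ NN} → Fin m → ℝ[X]) (Λ : ℝ) (j q K₂ : ℕ) {r : ℕ}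
    (v : Fin n → ℝ) (s' : Fin n → Fin m → ℝ) (Ps : Fin r → ℝ × (Fin m → ℝ)) (z : ℤ)
    (α : Fin m) : (FF a Λ j q K₂ v s' Ps z α).natDegree ≤ K₂ := by
  unfold FF
  split_ifs with h
  · exact h.choose_spec.1 α
  · rw [Pi.zero_apply, Polynomial.natDegree_zero]; exact Nat.zero_le _

theorem FF_good (a : Fin c → {γ // γ ∈ NN} → Fin m → ℝ[X]) (Λ : ℝ) (j q K₂ : ℕ) {r : ℕ}
    (v : Fin n → ℝ) (s' : Fin n → Fin m → ℝ) (Ps : Fin r → ℝ × (Fin m → ℝ)) (z : ℤ)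
    (h : ∃ G, GoodF a Λ j q K₂ v s' Ps z G) :
    GoodF a Λ j q K₂ v s' Ps z (FF a Λ j q K₂ v s' Ps z) := by
  unfold FF
  rw [dif_pos h]
  exact h.choose_spec

end

/-- **General linear elimination.** -/
theorem glb_thm : GLBStmt := by
  classical
  intro h m c n NN a C₀ hC₀ j
  obtain ⟨b, e, hb, hab, hae⟩ := a_bound a
  obtain ⟨Cc, hCc1, hcell⟩ := cell_G a n j
  obtain ⟨Cv, hCv1, hCv⟩ := mo_bd (h := h) hC₀ NN
  set N : ℕ := NN.card with hN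
  have hNt : Fintype.card {γ // γ ∈ NN} = N := Fintype.card_coe _
  have hb0 : 0 < b := by linarith
  set C : ℝ := Cc + (1 + n * 2 ^ n) + m * b + (1 + N) + 2 + (N * m * Cv * 2 + N * m * b * 2)
    with hC
  have hx1 : (0 : ℝ) ≤ n * 2 ^ n := by positivity
  have hx2 : (0 : ℝ) ≤ m * b := by positivity
  have hx3 : (0 : ℝ) ≤ N := by positivity
  have hx4 : (0 : ℝ) ≤ N * m * Cv * 2 := by positivity
  have hx5 : (0 : ℝ) ≤ N * m * b * 2 := by positivity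
  refine ⟨C, 2 * (j + 1) * m + 2, by linarith, ?_⟩
  intro q
  obtain ⟨K₂, hK₂⟩ := hcell q
  set bb : ℕ := q + 2 * (j + 1) * m + 2 with hbb
  refine ⟨(n + 1) + (n + 5 + bb) * N + (j + 1), K₂, ?_⟩
  intro R Ω Γ _ p x β t v s s' g Gd Λ τ η hR hp hτ hCΛ hτΛ hgood hINJ
  have hΛ1 : 1 ≤ Λ := by linarith
  have hΛ0 : 0 < Λ := by linarith
  set y : ℝ := Λ⁻¹ with hy
  have hy0 : 0 < y := inv_pos.mpr hΛ0
  have hΛy : Λ * y = 1 := mul_inv_cancel₀ hΛ0.ne'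
  set ρ : ℝ := y ^ bb with hρ
  have hρ0 : 0 < ρ := by positivity
  set Ps : (r : ℕ) → Γ → Fin r → ℝ × (Fin m → ℝ) := fun r z i => (t i z, s i z) with hPs
  set W : (r : ℕ) → Γ → Set ({γ // γ ∈ NN} → ℝ) := fun r z =>
    WF a (v z) (s' z) (Ps r z) with hW
  have hWmono : ∀ r z, W r z ⊆ W (r + 1) z := by
    intro r z w hw
    obtain ⟨i, l, hw⟩ := hw
    exact ⟨i.castSucc, l, hw⟩
  obtain ⟨r, hr, hrP⟩ := rank_step p hp R N hR (fun r ω => rk ρ (W r (x ω)))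
    (fun r ω => rk_mono (hWmono r (x ω)))
    (fun r ω => (rk_le ρ (W r (x ω))).trans (le_of_eq hNt))
  refine ⟨r, hr, fun v s' Ps z => FF a Λ j q K₂ v s' Ps z, fun v s' Ps z α =>
    FF_deg a Λ j q K₂ v s' Ps z α, ?_⟩
  -- the numbers
  set δ : ℝ := (1 + n * (2 * Λ) ^ n) * τ with hδ
  set B : ℝ := (1 + n * (2 * Λ) ^ n) * (m * (b * Λ)) with hB
  set qq : ℝ := 1 + (1 + N * B) / ρ with hq
  have hδ0 : 0 ≤ δ := by positivity
  have hB0 : 0 ≤ B := by positivity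
  have hq1 : 1 ≤ qq := by
    have : 0 ≤ (1 + N * B) / ρ := by positivity
    linarith only [this, hq]
  have hΛn : 1 + n * (2 * Λ) ^ n ≤ Λ ^ (n + 1) := by
    have h1 : 1 ≤ Λ ^ n := one_le_pow₀ hΛ1
    have h2 : 1 + n * 2 ^ n ≤ Λ := by linarith
    calc 1 + n * (2 * Λ) ^ n = 1 + n * 2 ^ n * Λ ^ n := by rw [mul_pow]; ring
      _ ≤ Λ ^ n + n * 2 ^ n * Λ ^ n := by linarith only [h1]
      _ = (1 + n * 2 ^ n) * Λ ^ n := by ring
      _ ≤ Λ * Λ ^ n := mul_le_mul_of_nonneg_right h2 (by positivity)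
      _ = _ := by ring
  have hBΛ : B ≤ Λ ^ (n + 3) := by
    have h1 : m * (b * Λ) ≤ Λ * Λ := by
      have : m * b ≤ Λ := by linarith
      calc m * (b * Λ) = m * b * Λ := by ring
        _ ≤ Λ * Λ := mul_le_mul_of_nonneg_right this hΛ0.le
    calc B ≤ Λ ^ (n + 1) * (Λ * Λ) := mul_le_mul hΛn h1 (by positivity) (by positivity)
      _ = _ := by ring
  have hqΛ : qq ≤ Λ ^ (n + 5 + bb) := by
    have h0 : 1 ≤ Λ ^ (n + 3) := one_le_pow₀ hΛ1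
    have h1 : 1 + N * B ≤ Λ ^ (n + 4) := by
      have h2 : (1 : ℝ) + N ≤ Λ := by linarith
      calc 1 + N * B ≤ Λ ^ (n + 3) + N * Λ ^ (n + 3) := by
            have := mul_le_mul_of_nonneg_left hBΛ hx3
            linarith only [this, h0]
        _ = (1 + N) * Λ ^ (n + 3) := by ring
        _ ≤ Λ * Λ ^ (n + 3) := mul_le_mul_of_nonneg_right h2 (by positivity)
        _ = _ := by ring
    have h2 : (1 + N * B) / ρ ≤ Λ ^ (n + 4 + bb) := by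
      rw [div_le_iff₀ hρ0]
      have h3 : Λ ^ (n + 4 + bb) * ρ = Λ ^ (n + 4) * (Λ * y) ^ bb := by
        rw [hρ, mul_pow]; ring
      rw [h3, hΛy, one_pow, mul_one]
      exact h1
    have h3 : 1 ≤ Λ ^ (n + 4 + bb) := one_le_pow₀ hΛ1
    have h4 : (2 : ℝ) ≤ Λ := by linarith
    calc qq ≤ 2 * Λ ^ (n + 4 + bb) := by linarith only [hq, h2, h3]
      _ ≤ Λ * Λ ^ (n + 4 + bb) := mul_le_mul_of_nonneg_right h4 (by positivity)
      _ = _ := by ring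
  set dl : ℝ := δ * qq ^ N with hdl
  have hdl0 : 0 ≤ dl := by positivity
  have hdlΛ : dl * Λ ^ (j + 1) ≤ 1 := by
    have h1 : qq ^ N ≤ Λ ^ ((n + 5 + bb) * N) := by
      rw [pow_mul]
      exact pow_le_pow_left₀ (by linarith only [hq1]) hqΛ N
    have h2 : δ ≤ Λ ^ (n + 1) * τ := mul_le_mul_of_nonneg_right hΛn hτ.le
    calc dl * Λ ^ (j + 1) ≤ Λ ^ (n + 1) * τ * Λ ^ ((n + 5 + bb) * N) * Λ ^ (j + 1) :=
          mul_le_mul_of_nonneg_right (mul_le_mul h2 h1 (by positivity) (by positivity))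
            (by positivity)
      _ = τ * Λ ^ ((n + 1) + (n + 5 + bb) * N + (j + 1)) := by ring
      _ ≤ 1 := hτΛ
  -- the residue of the monomials
  have hres : ∀ ω, Gd ω → ∀ γ, |mo NN (β ω) γ -
      (PF a ρ (v (x ω)) (s' (x ω)) (Ps r (x ω)) *ᵥ mo NN (β ω)) γ| ≤ dl := by
    intro ω hω γ
    obtain ⟨hβ, ht, hv, hs, hg, hsc, hs'c, hown, hown'⟩ := hgood ω hω
    have h1 := res_bound hρ0 hB0 hδ0 (mo NN (β ω)) (mch ρ (W r (x ω)))
      (mch_ch ρ (W r (x ω))) (by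
        intro w hw i
        obtain ⟨i', l, rfl⟩ := mch_mem ρ (W r (x ω)) w hw
        exact uu_bd a hb0.le hΛ1 hab hv hs hs'c (ht i' (i'.2.trans hr))
          (hsc i' (i'.2.trans hr)) l i) (by
        intro w hw
        obtain ⟨i', l, rfl⟩ := mch_mem ρ (W r (x ω)) w hw
        exact uu_sm a hΛ1 hτ.le hv hs (ht i' (i'.2.trans hr)) l (β ω) (g ω l) (hg l)
          (hown i' (i'.2.trans hr) l) (fun i => hown' i l)) γ
    have h2 : (mch ρ (W r (x ω))).length ≤ N := by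
      rw [mch_len]
      exact (rk_le _ _).trans (le_of_eq hNt)
    have h3 : δ * (1 + (1 + Fintype.card {γ // γ ∈ NN} * B) / ρ) ^
        (mch ρ (W r (x ω))).length ≤ dl := by
      rw [hNt]
      exact mul_le_mul_of_nonneg_left (pow_le_pow_right₀ hq1 h2) hδ0
    have h4 : |mo NN (β ω) γ - (PF a ρ (v (x ω)) (s' (x ω)) (Ps r (x ω)) *ᵥ
        mo NN (β ω)) γ| = |mo NN (β ω) γ - (pm (mch ρ (W r (x ω))) *ᵥ mo NN (β ω)) γ| := rfl
    rw [h4]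
    linarith only [h1, h3, hδ0]
  -- the injectivity
  have hch : ∀ z : Γ, ∃ s₀ : Fin m → ℝ, (∀ α, |s₀ α| ≤ 1) ∧
      (Inj a (PF a ρ (v z) (s' z) (Ps r z)) (t r z) (y ^ (j + 1)) → s₀ = 0) ∧
      (¬ Inj a (PF a ρ (v z) (s' z) (Ps r z)) (t r z) (y ^ (j + 1)) → (∃ α, |s₀ α| = 1) ∧
      ∀ l γ, |(PF a ρ (v z) (s' z) (Ps r z) *ᵥ (Am a (t r z) l *ᵥ s₀)) γ| ≤
        y ^ (j + 1) * m) := by
    intro z
    by_cases hI : Inj a (PF a ρ (v z) (s' z) (Ps r z)) (t r z) (y ^ (j + 1))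
    · exact ⟨0, fun α => by rw [Pi.zero_apply, abs_zero]; norm_num, fun _ => rfl,
        fun h' => absurd hI h'⟩
    · obtain ⟨s₀, h1, h2, h3⟩ := not_inj a (PF a ρ (v z) (s' z) (Ps r z)) (t r z) (y ^ (j + 1))
        (by positivity) hI
      exact ⟨s₀, h1, fun h' => absurd h' hI, fun _ => ⟨h2, h3⟩⟩
  choose s₀ hs₀1 hs₀0 hs₀ using hch
  have hinjr : Pb p (fun ω => Gd ω ∧ ¬ Inj a (PF a ρ (v (x ω)) (s' (x ω)) (Ps r (x ω)))
      (t r (x ω)) (y ^ (j + 1))) ≤ η := by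
    refine (Pb_mono hp.nonneg (B := fun ω => Gd ω ∧ ∃ α, |s₀ (x ω) α| = 1) ?_).trans
      (hINJ r hr s₀ hs₀1 ?_)
    · intro ω hω
      exact ⟨hω.1, (hs₀ (x ω) hω.2).1⟩
    intro ω hGω hone l
    have hI : ¬ Inj a (PF a ρ (v (x ω)) (s' (x ω)) (Ps r (x ω))) (t r (x ω))
        (y ^ (j + 1)) := by
      intro hI
      obtain ⟨α, hα⟩ := hone
      rw [hs₀0 (x ω) hI, Pi.zero_apply, abs_zero] at hα
      exact zero_ne_one hα
    obtain ⟨hβ, ht, hv, hs, hg, hsc, hs'c, hown, hown'⟩ := hgood ω hGω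
    obtain ⟨h1, h2⟩ := hs₀ (x ω) hI
    set P := PF a ρ (v (x ω)) (s' (x ω)) (Ps r (x ω)) with hP
    set u := Am a (t r (x ω)) l *ᵥ s₀ (x ω) with hu
    have h3 : ev a (β ω) (t r (x ω)) (s₀ (x ω)) l = (P *ᵥ u) ⬝ᵥ mo NN (β ω) +
        u ⬝ᵥ (fun γ => mo NN (β ω) γ - (P *ᵥ mo NN (β ω)) γ) := by
      have h4 : (P *ᵥ u) ⬝ᵥ mo NN (β ω) = u ⬝ᵥ (P *ᵥ mo NN (β ω)) := pm_dot _ _ _
      have h5 : (fun γ => mo NN (β ω) γ - (P *ᵥ mo NN (β ω)) γ) =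
          mo NN (β ω) - P *ᵥ mo NN (β ω) := rfl
      rw [h4, h5, dotProduct_sub, ev_eq]
      ring
    have h6 : |(P *ᵥ u) ⬝ᵥ mo NN (β ω)| ≤ N * (y ^ (j + 1) * m) * Cv := by
      have := abs_dot_le (N := {γ // γ ∈ NN}) (x := P *ᵥ u) (y := mo NN (β ω))
        (B := y ^ (j + 1) * m) (a := Cv) (by positivity) (h2 l) (hCv (β ω) hβ)
      rwa [hNt] at this
    have h7 : |u ⬝ᵥ (fun γ => mo NN (β ω) γ - (P *ᵥ mo NN (β ω)) γ)| ≤
        N * (m * (b * 1)) * dl := by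
      have := abs_dot_le (N := {γ // γ ∈ NN}) (x := u)
        (y := fun γ => mo NN (β ω) γ - (P *ᵥ mo NN (β ω)) γ)
        (B := m * (b * 1)) (a := dl) (by positivity)
        (fun γ => Am_bd a hb0.le hab (ht r hr) _ (hs₀1 (x ω)) l γ) (hres ω hGω)
      rwa [hNt] at this
    have h8 : |ev a (β ω) (t r (x ω)) (s₀ (x ω)) l| ≤
        N * (y ^ (j + 1) * m) * Cv + N * (m * (b * 1)) * dl := by
      rw [h3]
      exact (abs_add_le _ _).trans (add_le_add h6 h7)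
    have hpow1 : y ^ (j + 1) * Λ ^ j = y := by
      have : y ^ (j + 1) * Λ ^ j = y * (Λ * y) ^ j := by rw [mul_pow]; ring
      rw [this, hΛy, one_pow, mul_one]
    have h9 : N * (y ^ (j + 1) * m) * Cv * Λ ^ j ≤ 1 / 2 := by
      have e1 : N * (y ^ (j + 1) * m) * Cv * Λ ^ j = (N * m * Cv) * (y ^ (j + 1) * Λ ^ j) := by
        ring
      rw [e1, hpow1]
      have e2 : N * m * Cv * 2 ≤ Λ := by linarith
      have e3 : N * m * Cv * 2 * y ≤ Λ * y := mul_le_mul_of_nonneg_right e2 hy0.le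
      rw [hΛy] at e3
      linarith only [e3]
    have h10 : N * (m * (b * 1)) * dl * Λ ^ j ≤ 1 / 2 := by
      have e1 : dl * Λ ^ j ≤ y := by
        have e2 : dl * Λ ^ j = dl * Λ ^ (j + 1) * y := by
          have : dl * Λ ^ (j + 1) * y = dl * Λ ^ j * (Λ * y) := by ring
          rw [this, hΛy, mul_one]
        rw [e2]
        have := mul_le_mul_of_nonneg_right hdlΛ hy0.le
        rwa [one_mul] at this
      have e3 : N * m * b * 2 ≤ Λ := by linarith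
      have e4 : N * m * b * 2 * y ≤ Λ * y := mul_le_mul_of_nonneg_right e3 hy0.le
      rw [hΛy] at e4
      have e5 : N * (m * (b * 1)) * dl * Λ ^ j = N * m * b * (dl * Λ ^ j) := by ring
      rw [e5]
      have e6 : (N : ℝ) * m * b * (dl * Λ ^ j) ≤ N * m * b * y :=
        mul_le_mul_of_nonneg_left e1 (by positivity)
      linarith only [e4, e6]
    calc |ev a (β ω) (t r (x ω)) (s₀ (x ω)) l| * Λ ^ j ≤
          (N * (y ^ (j + 1) * m) * Cv + N * (m * (b * 1)) * dl) * Λ ^ j :=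
          mul_le_mul_of_nonneg_right h8 (by positivity)
      _ = N * (y ^ (j + 1) * m) * Cv * Λ ^ j + N * (m * (b * 1)) * dl * Λ ^ j := by ring
      _ ≤ 1 := by linarith only [h9, h10]
  -- the inclusion
  have hincl : ∀ ω, (Gd ω ∧ ¬ ∀ α, |s r (x ω) α - (FF a Λ j q K₂ (v (x ω)) (s' (x ω))
      (fun i : Fin r => (t i (x ω), s i (x ω)))
        ⌊t r (x ω) * Λ ^ (2 * (j + 1) * m + 2)⌋ α).eval (t r (x ω))| * Λ ^ q ≤ 1) →
      (rk ρ (W r (x ω)) < rk ρ (W (r + 1) (x ω))) ∨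
      (Gd ω ∧ ¬ Inj a (PF a ρ (v (x ω)) (s' (x ω)) (Ps r (x ω))) (t r (x ω))
        (y ^ (j + 1))) := by
    intro ω hω
    obtain ⟨hGω, hne⟩ := hω
    by_contra hcon
    rw [not_or] at hcon
    obtain ⟨hrk, hI'⟩ := hcon
    have hrk' : rk ρ (W (r + 1) (x ω)) ≤ rk ρ (W r (x ω)) := not_lt.mp hrk
    have hI : Inj a (PF a ρ (v (x ω)) (s' (x ω)) (Ps r (x ω))) (t r (x ω))
        (y ^ (j + 1)) := by
      by_contra hI
      exact hI' ⟨hGω, hI⟩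
    obtain ⟨hβ, ht, hv, hs, hg, hsc, hs'c, hown, hown'⟩ := hgood ω hGω
    apply hne
    have hex : ∃ G, GoodF a Λ j q K₂ (v (x ω)) (s' (x ω))
        (fun i : Fin r => (t i (x ω), s i (x ω)))
          ⌊t r (x ω) * Λ ^ (2 * (j + 1) * m + 2)⌋ G := by
      obtain ⟨G, hG1, hG2⟩ := hK₂ Λ (v (x ω)) (s' (x ω))
        (PF a ρ (v (x ω)) (s' (x ω)) (Ps r (x ω))) (t r (x ω)) (by linarith) hv hs hs'c
        (pm_symm _) (pm_idem _) (pm_entry _) (ht r hr) hI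
      refine ⟨G, hG1, ?_⟩
      intro T s₁ hT hTz hIT hσ
      exact hG2 T s₁ hT (floor_near (by positivity) hTz) hIT hσ
    have hFF := (FF_good a Λ j q K₂ (v (x ω)) (s' (x ω))
        (fun i : Fin r => (t i (x ω), s i (x ω)))
          ⌊t r (x ω) * Λ ^ (2 * (j + 1) * m + 2)⌋ hex).2
      (t r (x ω)) (s r (x ω)) (ht r hr) rfl hI (by
        intro l γ
        have hu : uu a (v (x ω)) (s' (x ω)) (t r (x ω)) (s r (x ω)) l ∈
            W (r + 1) (x ω) := ⟨Fin.last r, l, rfl⟩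
        have h1 := near hρ0 (hWmono r (x ω)) hrk' hu
        set w := pm (mch ρ (W r (x ω))) *ᵥ
          uu a (v (x ω)) (s' (x ω)) (t r (x ω)) (s r (x ω)) l with hw
        have h2 : w γ ^ 2 ≤ w ⬝ᵥ w := by
          unfold dotProduct
          have := Finset.single_le_sum (f := fun j => w j * w j) (fun j _ => mul_self_nonneg _)
            (Finset.mem_univ γ)
          rw [sq]; exact this
        have h3 : |w γ| ≤ ρ := abs_le_of_sq_le_sq (h2.trans h1.le) hρ0.le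
        exact h3)
    exact hFF
  refine (Pb_mono hp.nonneg hincl).trans ((Pb_two hp.nonneg _ _).trans ?_)
  exact add_le_add hrP hinjr

end Pool.GLB
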