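import Mathlib

/-!
Projection matrices along a list of vectors, chains, and the rank of a set at a tolerance.
-/

set_option autoImplicit false

namespace Pool.LBL

open Finset Matrix

variable {N : Type*} [Fintype N] [DecidableEq N]

/-- The projection to the orthogonal complement of the span of the list. -/
noncomputable def pm : List (N → ℝ) → Matrix N N ℝ
  | [] => 1
  | w :: l => pm l - ((pm l *ᵥ w) ⬝ᵥ (pm l *ᵥ w))⁻¹ • vecMulVec (pm l *ᵥ w) (pm l *ᵥ w)

theorem pm_symm (l : List (N → ℝ)) : (pm l)ᵀ = pm l := by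
  induction l with
  | nil => simp [pm]
  | cons w l ih =>
    simp only [pm, Matrix.transpose_sub, Matrix.transpose_smul, ih]
    congr 2
    ext i j
    simp [Matrix.vecMulVec_apply, mul_comm]

theorem vecMul_pm (l : List (N → ℝ)) (x : N → ℝ) : x ᵥ* pm l = pm l *ᵥ x := by
  rw [← Matrix.mulVec_transpose, pm_symm]

theorem pm_idem (l : List (N → ℝ)) : pm l * pm l = pm l := by
  induction l with
  | nil => simp [pm]
  | cons w l ih =>
    set P := pm l with hP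
    set e := P *ᵥ w with he
    set c : ℝ := (e ⬝ᵥ e)⁻¹ with hc
    have hPe : P *ᵥ e = e := by rw [he, Matrix.mulVec_mulVec, ih]
    have h1 : P * vecMulVec e e = vecMulVec e e := by
      rw [Matrix.mul_vecMulVec, hPe]
    have h2 : vecMulVec e e * P = vecMulVec e e := by
      rw [Matrix.vecMulVec_mul, hP, vecMul_pm, ← hP, hPe]
    have h3 : vecMulVec e e * vecMulVec e e = (e ⬝ᵥ e) • vecMulVec e e := by
      ext i j
      simp only [Matrix.mul_apply, Matrix.vecMulVec_apply, Matrix.smul_apply, dotProduct,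
        smul_eq_mul]
      rw [Finset.sum_mul]
      refine Finset.sum_congr rfl fun k _ => ?_
      ring
    have h4 : c * c * (e ⬝ᵥ e) = c := by
      rw [hc]
      by_cases h0 : e ⬝ᵥ e = 0
      · rw [h0]; simp
      · field_simp
    have h5 : pm (w :: l) = P - c • vecMulVec e e := rfl
    rw [h5, Matrix.sub_mul, Matrix.mul_sub, Matrix.mul_sub, ih, Matrix.mul_smul, Matrix.smul_mul,
      Matrix.smul_mul, Matrix.mul_smul, h1, h2, h3, smul_smul, smul_smul, h4]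
    abel

theorem pm_diag (l : List (N → ℝ)) (i : N) : pm l i i = ∑ j, pm l i j ^ 2 := by
  have h1 := congrFun (congrFun (pm_idem l) i) i
  rw [Matrix.mul_apply] at h1
  rw [← h1]
  refine Finset.sum_congr rfl fun j _ => ?_
  have h2 : pm l j i = pm l i j := by
    have := congrFun (congrFun (pm_symm l) i) j
    rw [Matrix.transpose_apply] at this
    exact this
  rw [h2, sq]

theorem pm_entry (l : List (N → ℝ)) (i j : N) : |pm l i j| ≤ 1 := by
  have h1 : pm l i i ^ 2 ≤ pm l i i := by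
    conv_rhs => rw [pm_diag]
    exact Finset.single_le_sum (f := fun j => pm l i j ^ 2) (fun _ _ => sq_nonneg _)
      (Finset.mem_univ i)
  have h2 : pm l i j ^ 2 ≤ pm l i i := by
    conv_rhs => rw [pm_diag]
    exact Finset.single_le_sum (f := fun j => pm l i j ^ 2) (fun _ _ => sq_nonneg _)
      (Finset.mem_univ j)
  have h3 : pm l i i ≤ 1 := by nlinarith
  have h4 : pm l i j ^ 2 ≤ 1 := h2.trans h3
  exact (sq_le_one_iff_abs_le_one _).mp h4

theorem pm_dot (l : List (N → ℝ)) (x y : N → ℝ) : (pm l *ᵥ x) ⬝ᵥ y = x ⬝ᵥ (pm l *ᵥ y) := by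
  rw [← vecMul_pm, ← Matrix.dotProduct_mulVec]

/-- A chain: every vector is at distance at least ρ of the span of the later ones. -/
def Ch (ρ : ℝ) : List (N → ℝ) → Prop
  | [] => True
  | w :: l => ρ ^ 2 ≤ (pm l *ᵥ w) ⬝ᵥ (pm l *ᵥ w) ∧ Ch ρ l

theorem trace_pm {ρ : ℝ} (hρ : 0 < ρ) (l : List (N → ℝ)) (h : Ch ρ l) :
    (pm l).trace = (Fintype.card N : ℝ) - l.length := by
  induction l with
  | nil => simp [pm]
  | cons w l ih =>
    obtain ⟨h1, h2⟩ := h
    have h3 : (pm (w :: l)) = pm l - ((pm l *ᵥ w) ⬝ᵥ (pm l *ᵥ w))⁻¹ •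
      vecMulVec (pm l *ᵥ w) (pm l *ᵥ w) := rfl
    have h4 : (pm l *ᵥ w) ⬝ᵥ (pm l *ᵥ w) ≠ 0 := by
      have : 0 < ρ ^ 2 := by positivity
      linarith
    have h5 : (vecMulVec (pm l *ᵥ w) (pm l *ᵥ w)).trace = (pm l *ᵥ w) ⬝ᵥ (pm l *ᵥ w) := by
      simp only [Matrix.trace, Matrix.diag, Matrix.vecMulVec_apply, dotProduct]
    rw [h3, Matrix.trace_sub, Matrix.trace_smul, ih h2, h5, smul_eq_mul, inv_mul_cancel₀ h4,
      List.length_cons]
    push_cast
    ring

theorem chain_len {ρ : ℝ} (hρ : 0 < ρ) (l : List (N → ℝ)) (h : Ch ρ l) :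
    l.length ≤ Fintype.card N := by
  have h1 := trace_pm hρ l h
  have h2 : 0 ≤ (pm l).trace := by
    unfold Matrix.trace
    refine Finset.sum_nonneg fun i _ => ?_
    rw [Matrix.diag_apply, pm_diag]
    exact Finset.sum_nonneg fun j _ => sq_nonneg _
  have h3 : (l.length : ℝ) ≤ Fintype.card N := by linarith
  exact_mod_cast h3

theorem abs_dot_le {x y : N → ℝ} {B a : ℝ} (hB : 0 ≤ B) (hx : ∀ i, |x i| ≤ B)
    (hy : ∀ i, |y i| ≤ a) : |x ⬝ᵥ y| ≤ Fintype.card N * B * a := by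
  unfold dotProduct
  refine (Finset.abs_sum_le_sum_abs _ _).trans ?_
  have : ∀ i ∈ (Finset.univ : Finset N), |x i * y i| ≤ B * a := by
    intro i _
    rw [abs_mul]
    exact mul_le_mul (hx i) (hy i) (abs_nonneg _) hB
  refine (Finset.sum_le_sum this).trans (le_of_eq ?_)
  rw [Finset.sum_const, Finset.card_univ, nsmul_eq_mul, mul_assoc]

/-- A vector which is nearly orthogonal to the vectors of a chain is near its projection. -/
theorem res_bound {ρ B δ : ℝ} (hρ : 0 < ρ) (hB : 0 ≤ B) (hδ : 0 ≤ δ) (x : N → ℝ)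
    (l : List (N → ℝ)) (h : Ch ρ l) (hl : ∀ w ∈ l, ∀ i, |w i| ≤ B)
    (hx : ∀ w ∈ l, |w ⬝ᵥ x| ≤ δ) :
    ∀ i, |x i - (pm l *ᵥ x) i| + δ ≤ δ * (1 + (1 + Fintype.card N * B) / ρ) ^ l.length := by
  induction l with
  | nil =>
    intro i
    simp [pm]
  | cons w l ih =>
    obtain ⟨h1, h2⟩ := h
    have ih' := ih h2 (fun w' hw' => hl w' (List.mem_cons_of_mem _ hw'))
      (fun w' hw' => hx w' (List.mem_cons_of_mem _ hw'))
    set n : ℝ := (Fintype.card N : ℝ) with hn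
    have hn0 : 0 ≤ n := by positivity
    set q : ℝ := 1 + (1 + n * B) / ρ with hq
    set a : ℝ := δ * q ^ l.length - δ with ha
    set P := pm l with hP
    set e := P *ᵥ w with he
    have hEpos : 0 < e ⬝ᵥ e := lt_of_lt_of_le (by positivity) h1
    have ha' : ∀ i, |x i - (P *ᵥ x) i| ≤ a := fun i => by
      have := ih' i
      linarith
    have hex : |e ⬝ᵥ x| ≤ δ + n * B * a := by
      have e1 : e ⬝ᵥ x = w ⬝ᵥ x - w ⬝ᵥ (fun i => x i - (P *ᵥ x) i) := by
        rw [he, hP, pm_dot]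
        have : (fun i => x i - (pm l *ᵥ x) i) = x - pm l *ᵥ x := rfl
        rw [this, dotProduct_sub]
        ring
      rw [e1]
      refine (abs_sub _ _).trans (add_le_add (hx w List.mem_cons_self) ?_)
      exact abs_dot_le hB (hl w List.mem_cons_self) ha'
    intro i
    have e2 : (pm (w :: l) *ᵥ x) i = (P *ᵥ x) i - (e ⬝ᵥ e)⁻¹ * (e ⬝ᵥ x) * e i := by
      have h3 : (pm (w :: l)) = P - (e ⬝ᵥ e)⁻¹ • vecMulVec e e := rfl
      rw [h3, Matrix.sub_mulVec, Matrix.smul_mulVec, Matrix.vecMulVec_mulVec]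
      simp only [Pi.sub_apply, Pi.smul_apply, MulOpposite.smul_eq_mul_unop,
        MulOpposite.unop_op, smul_eq_mul]
      ring
    have e3 : |e i| * ρ ≤ e ⬝ᵥ e := by
      have h4 : e i ^ 2 ≤ e ⬝ᵥ e := by
        unfold dotProduct
        have := Finset.single_le_sum (f := fun j => e j * e j) (fun j _ => mul_self_nonneg _)
          (Finset.mem_univ i)
        rw [sq]; exact this
      have h5 : (|e i| * ρ) ^ 2 ≤ (e ⬝ᵥ e) ^ 2 := by
        rw [mul_pow, sq_abs]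
        calc e i ^ 2 * ρ ^ 2 ≤ (e ⬝ᵥ e) * (e ⬝ᵥ e) :=
              mul_le_mul h4 h1 (by positivity) hEpos.le
          _ = _ := by ring
      exact le_of_sq_le_sq h5 hEpos.le
    have e4 : |(e ⬝ᵥ e)⁻¹ * (e ⬝ᵥ x) * e i| ≤ (δ + n * B * a) / ρ := by
      rw [abs_mul, abs_mul, abs_inv, abs_of_pos hEpos, le_div_iff₀ hρ]
      calc (e ⬝ᵥ e)⁻¹ * |e ⬝ᵥ x| * |e i| * ρ = |e ⬝ᵥ x| * ((e ⬝ᵥ e)⁻¹ * (|e i| * ρ)) := by ring
        _ ≤ |e ⬝ᵥ x| * ((e ⬝ᵥ e)⁻¹ * (e ⬝ᵥ e)) := by gcongr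
        _ = |e ⬝ᵥ x| := by rw [inv_mul_cancel₀ hEpos.ne', mul_one]
        _ ≤ _ := hex
    have e5 : |x i - (pm (w :: l) *ᵥ x) i| ≤ a + (δ + n * B * a) / ρ := by
      rw [e2]
      have : x i - ((P *ᵥ x) i - (e ⬝ᵥ e)⁻¹ * (e ⬝ᵥ x) * e i) =
          (x i - (P *ᵥ x) i) + (e ⬝ᵥ e)⁻¹ * (e ⬝ᵥ x) * e i := by ring
      rw [this]
      exact (abs_add_le _ _).trans (add_le_add (ha' i) e4)
    have ha0 : 0 ≤ a := (abs_nonneg _).trans (ha' i)
    rw [List.length_cons, pow_succ]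
    have e6 : δ * (q ^ l.length * q) = (a + δ) * q := by rw [ha]; ring
    rw [e6]
    have e7 : (a + δ) * q = a + δ + (a + δ) * ((1 + n * B) / ρ) := by rw [hq]; ring
    rw [e7]
    have e8 : (δ + n * B * a) / ρ ≤ (a + δ) * ((1 + n * B) / ρ) := by
      rw [mul_div_assoc']
      refine div_le_div_of_nonneg_right ?_ hρ.le
      have : 0 ≤ n * B * δ := by positivity
      nlinarith
    linarith

open Classical in
/-- There is a chain of length j in W. -/
def HasCh (ρ : ℝ) (W : Set (N → ℝ)) (j : ℕ) : Prop :=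
  ∃ l : List (N → ℝ), l.length = j ∧ (∀ w ∈ l, w ∈ W) ∧ Ch ρ l

open Classical in
/-- The rank of a set at the tolerance ρ. -/
noncomputable def rk (ρ : ℝ) (W : Set (N → ℝ)) : ℕ :=
  Nat.findGreatest (HasCh ρ W) (Fintype.card N)

theorem rk_le (ρ : ℝ) (W : Set (N → ℝ)) : rk ρ W ≤ Fintype.card N := by
  classical
  exact Nat.findGreatest_le _

theorem hasCh_zero (ρ : ℝ) (W : Set (N → ℝ)) : HasCh ρ W 0 := by
  refine ⟨[], rfl, ?_, trivial⟩
  intro w hw
  exact absurd hw List.not_mem_nil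

theorem rk_spec (ρ : ℝ) (W : Set (N → ℝ)) : HasCh ρ W (rk ρ W) := by
  classical
  unfold rk
  exact Nat.findGreatest_spec (P := HasCh ρ W) (Nat.zero_le _) (hasCh_zero ρ W)

theorem hasCh_mono {ρ : ℝ} {W W' : Set (N → ℝ)} (h : W ⊆ W') {j : ℕ} (hj : HasCh ρ W j) :
    HasCh ρ W' j := by
  obtain ⟨l, h1, h2, h3⟩ := hj
  exact ⟨l, h1, fun w hw => h (h2 w hw), h3⟩

theorem rk_mono {ρ : ℝ} {W W' : Set (N → ℝ)} (h : W ⊆ W') : rk ρ W ≤ rk ρ W' := by
  classical
  exact Nat.le_findGreatest (rk_le _ _) (hasCh_mono h (rk_spec ρ W))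

/-- A maximal chain of W. -/
noncomputable def mch (ρ : ℝ) (W : Set (N → ℝ)) : List (N → ℝ) := (rk_spec ρ W).choose

theorem mch_len (ρ : ℝ) (W : Set (N → ℝ)) : (mch ρ W).length = rk ρ W :=
  (rk_spec ρ W).choose_spec.1

theorem mch_mem (ρ : ℝ) (W : Set (N → ℝ)) : ∀ w ∈ mch ρ W, w ∈ W :=
  (rk_spec ρ W).choose_spec.2.1

theorem mch_ch (ρ : ℝ) (W : Set (N → ℝ)) : Ch ρ (mch ρ W) :=
  (rk_spec ρ W).choose_spec.2.2

/-- If the rank does not grow, every new vector is near the span of the maximal chain. -/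
theorem near {ρ : ℝ} (hρ : 0 < ρ) {W W' : Set (N → ℝ)} (h : W ⊆ W') (hr : rk ρ W' ≤ rk ρ W)
    {u : N → ℝ} (hu : u ∈ W') :
    (pm (mch ρ W) *ᵥ u) ⬝ᵥ (pm (mch ρ W) *ᵥ u) < ρ ^ 2 := by
  classical
  by_contra hcon
  push Not at hcon
  have h1 : Ch ρ (u :: mch ρ W) := ⟨hcon, mch_ch ρ W⟩
  have h2 : HasCh ρ W' (rk ρ W + 1) := by
    refine ⟨u :: mch ρ W, by rw [List.length_cons, mch_len], ?_, h1⟩
    intro w hw
    rcases List.mem_cons.mp hw with rfl | hw
    · exact hu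
    · exact h (mch_mem ρ W w hw)
  have h3 : rk ρ W + 1 ≤ Fintype.card N := by
    have := chain_len hρ _ h1
    rw [List.length_cons, mch_len] at this
    exact this
  have h4 : rk ρ W + 1 ≤ rk ρ W' := Nat.le_findGreatest h3 h2
  omega

end Pool.LBL
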