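import Pool.Agent.H50.LBL.Ml1
import Pool.Agent.H50.LBL.Prj

/-!
The rational part with time-like variables: a vector `s` with `Pi (A(T) s - psi(T))` small, where
`Pi A(T)` is injective, is near a polynomial in `T` on a small cell.
-/

set_option autoImplicit false

namespace Pool.GLM

open Finset MvPolynomial Matrix

variable {d k : ℕ} {N m : Type*} [Fintype N] [DecidableEq N] [Fintype m] [DecidableEq m]

/-- The Gram matrix, with polynomial entries. -/
noncomputable def Gm (a : Fin k → N → m → (MvPolynomial (Fin d) ℝ)) (P : Matrix N N ℝ) : Matrix m m (MvPolynomial (Fin d) ℝ) :=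
  fun α α' => ∑ l, ∑ γ, ∑ γ', a l γ α * C (P γ γ') * a l γ' α'

/-- The right side. -/
noncomputable def gm (a : Fin k → N → m → (MvPolynomial (Fin d) ℝ)) (P : Matrix N N ℝ) (ψ : Fin k → N → (MvPolynomial (Fin d) ℝ)) :
    m → (MvPolynomial (Fin d) ℝ) := fun α => ∑ l, ∑ γ, ∑ γ', a l γ α * C (P γ γ') * ψ l γ'

/-- The value of the matrices. -/
noncomputable def Am (a : Fin k → N → m → (MvPolynomial (Fin d) ℝ)) (T : Fin d → ℝ) (l : Fin k) : Matrix N m ℝ :=
  fun γ α => eval T (a l γ α)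

/-- The value of the Gram matrix. -/
noncomputable def Gr (a : Fin k → N → m → (MvPolynomial (Fin d) ℝ)) (P : Matrix N N ℝ) (T : Fin d → ℝ) : Matrix m m ℝ :=
  fun α α' => eval T (Gm a P α α')

theorem Gr_eq (a : Fin k → N → m → (MvPolynomial (Fin d) ℝ)) (P : Matrix N N ℝ) (T : Fin d → ℝ) :
    Gr a P T = ∑ l, (Am a T l)ᵀ * P * Am a T l := by
  ext α α'
  rw [Matrix.sum_apply]
  unfold Gr Gm
  rw [map_sum]
  refine Finset.sum_congr rfl fun l _ => ?_
  rw [map_sum, Matrix.mul_apply]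
  have h1 : ∀ γ', ((Am a T l)ᵀ * P) α γ' * Am a T l γ' α' =
      ∑ γ, eval T (a l γ α) * P γ γ' * eval T (a l γ' α') := by
    intro γ'
    rw [Matrix.mul_apply, Finset.sum_mul]
    rfl
  simp only [h1]
  rw [Finset.sum_comm]
  refine Finset.sum_congr rfl fun γ _ => ?_
  rw [map_sum]
  refine Finset.sum_congr rfl fun γ' _ => ?_
  simp

theorem Gr_symm (a : Fin k → N → m → (MvPolynomial (Fin d) ℝ)) {P : Matrix N N ℝ} (hP : Pᵀ = P) (T : Fin d → ℝ) :
    (Gr a P T).IsSymm := by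
  unfold Matrix.IsSymm
  rw [Gr_eq, Matrix.transpose_sum]
  refine Finset.sum_congr rfl fun l _ => ?_
  rw [Matrix.transpose_mul, Matrix.transpose_mul, Matrix.transpose_transpose, hP, Matrix.mul_assoc]

theorem Gr_quad (a : Fin k → N → m → (MvPolynomial (Fin d) ℝ)) {P : Matrix N N ℝ} (hP : Pᵀ = P) (hPP : P * P = P)
    (T : Fin d → ℝ) (x : m → ℝ) : x ⬝ᵥ (Gr a P T *ᵥ x) =
      ∑ l, (P *ᵥ (Am a T l *ᵥ x)) ⬝ᵥ (P *ᵥ (Am a T l *ᵥ x)) := by
  rw [Gr_eq, Matrix.sum_mulVec, dotProduct_sum]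
  refine Finset.sum_congr rfl fun l _ => ?_
  rw [← Matrix.mulVec_mulVec, ← Matrix.mulVec_mulVec, Matrix.dotProduct_mulVec,
    Matrix.vecMul_transpose]
  have h1 : (P *ᵥ (Am a T l *ᵥ x)) ⬝ᵥ (P *ᵥ (Am a T l *ᵥ x)) =
      (Am a T l *ᵥ x) ⬝ᵥ (P *ᵥ (Am a T l *ᵥ x)) := by
    rw [Matrix.dotProduct_mulVec, ← Matrix.mulVec_transpose, hP, Matrix.mulVec_mulVec, hPP,
      dotProduct_comm]
  rw [h1]

theorem res_eq (a : Fin k → N → m → (MvPolynomial (Fin d) ℝ)) (P : Matrix N N ℝ) (ψ : Fin k → N → (MvPolynomial (Fin d) ℝ))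
    (T : Fin d → ℝ) (s : m → ℝ) (α : m) :
    (Gr a P T *ᵥ s) α - eval T (gm a P ψ α) =
      ∑ l, ∑ γ, Am a T l γ α * (P *ᵥ (Am a T l *ᵥ s - fun γ => eval T (ψ l γ))) γ := by
  rw [Gr_eq, Matrix.sum_mulVec, Finset.sum_apply]
  unfold gm
  rw [map_sum, ← Finset.sum_sub_distrib]
  refine Finset.sum_congr rfl fun l _ => ?_
  rw [← Matrix.mulVec_mulVec, ← Matrix.mulVec_mulVec, Matrix.mulVec_sub]
  have h1 : ((Am a T l)ᵀ *ᵥ (P *ᵥ (Am a T l *ᵥ s))) α =
      ∑ γ, Am a T l γ α * (P *ᵥ (Am a T l *ᵥ s)) γ := rfl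
  have h2 : eval T (∑ γ, ∑ γ', a l γ α * C (P γ γ') * ψ l γ') =
      ∑ γ, Am a T l γ α * (P *ᵥ fun γ => eval T (ψ l γ)) γ := by
    rw [map_sum]
    refine Finset.sum_congr rfl fun γ _ => ?_
    rw [map_sum]
    show _ = eval T (a l γ α) * ∑ γ', P γ γ' * eval T (ψ l γ')
    rw [Finset.mul_sum]
    refine Finset.sum_congr rfl fun γ' _ => ?_
    simp [mul_assoc]
  rw [h1, h2, ← Finset.sum_sub_distrib]
  refine Finset.sum_congr rfl fun γ _ => ?_
  rw [Pi.sub_apply]
  ring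

/-- Bounds for the entries of the Gram matrix. -/
theorem Gm_ml {a : Fin k → N → m → (MvPolynomial (Fin d) ℝ)} {b : ℝ} (hb : 1 ≤ b) (ha : ∀ l γ α, ml (a l γ α) ≤ b)
    {P : Matrix N N ℝ} (hP : ∀ i j, |P i j| ≤ 1) (α α' : m) :
    ml (Gm a P α α') ≤ 1 + k * (Fintype.card N) ^ 2 * b ^ 2 := by
  unfold Gm
  have h1 : ∀ l ∈ (Finset.univ : Finset (Fin k)),
      ml (∑ γ, ∑ γ', a l γ α * C (P γ γ') * a l γ' α') ≤ (Fintype.card N) ^ 2 * b ^ 2 := by
    intro l _
    have h2 : ∀ γ ∈ (Finset.univ : Finset N),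
        ml (∑ γ', a l γ α * C (P γ γ') * a l γ' α') ≤ (Fintype.card N) * b ^ 2 := by
      intro γ _
      refine (ml_sum_le _ _ (b ^ 2) ?_).trans (le_of_eq (by rw [Finset.card_univ]))
      intro γ' _
      have h3 : ml (C (P γ γ') : MvPolynomial (Fin d) ℝ) ≤ 1 := by rw [ml_C]; exact hP _ _
      have h4 := ml_mul_le (ml_mul_le (ha l γ α) h3) (ha l γ' α')
      rw [mul_one] at h4
      rw [sq]; exact h4
    refine (ml_sum_le _ _ _ h2).trans (le_of_eq ?_)
    rw [Finset.card_univ]; ring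
  refine (ml_sum_le _ _ _ h1).trans ?_
  rw [Finset.card_univ, Fintype.card_fin]
  nlinarith

theorem Gm_deg {a : Fin k → N → m → (MvPolynomial (Fin d) ℝ)} {e : ℕ} (ha : ∀ l γ α, (a l γ α).totalDegree ≤ e)
    (P : Matrix N N ℝ) (α α' : m) : (Gm a P α α').totalDegree ≤ 2 * e := by
  unfold Gm
  refine MvPolynomial.totalDegree_finsetSum_le fun l _ => ?_
  refine MvPolynomial.totalDegree_finsetSum_le fun γ _ => ?_
  refine MvPolynomial.totalDegree_finsetSum_le fun γ' _ => ?_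
  refine (MvPolynomial.totalDegree_mul _ _).trans ?_
  have h1 : (a l γ α * C (P γ γ')).totalDegree ≤ e := by
    refine (MvPolynomial.totalDegree_mul _ _).trans ?_
    rw [MvPolynomial.totalDegree_C, add_zero]; exact ha _ _ _
  have h2 := ha l γ' α'
  omega

theorem gm_ml {a : Fin k → N → m → (MvPolynomial (Fin d) ℝ)} {b : ℝ} (hb : 1 ≤ b) (ha : ∀ l γ α, ml (a l γ α) ≤ b)
    {P : Matrix N N ℝ} (hP : ∀ i j, |P i j| ≤ 1) {ψ : Fin k → N → (MvPolynomial (Fin d) ℝ)} {B : ℝ}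
    (hψ : ∀ l γ, ml (ψ l γ) ≤ B) (α : m) :
    ml (gm a P ψ α) ≤ k * (Fintype.card N) ^ 2 * (b * B) := by
  unfold gm
  have h1 : ∀ l ∈ (Finset.univ : Finset (Fin k)),
      ml (∑ γ, ∑ γ', a l γ α * C (P γ γ') * ψ l γ') ≤ (Fintype.card N) ^ 2 * (b * B) := by
    intro l _
    have h2 : ∀ γ ∈ (Finset.univ : Finset N),
        ml (∑ γ', a l γ α * C (P γ γ') * ψ l γ') ≤ (Fintype.card N) * (b * B) := by
      intro γ _
      refine (ml_sum_le _ _ (b * B) ?_).trans (le_of_eq (by rw [Finset.card_univ]))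
      intro γ' _
      have h3 : ml (C (P γ γ') : MvPolynomial (Fin d) ℝ) ≤ 1 := by rw [ml_C]; exact hP _ _
      have h4 := ml_mul_le (ml_mul_le (ha l γ α) h3) (hψ l γ')
      rwa [mul_one] at h4
    refine (ml_sum_le _ _ _ h2).trans (le_of_eq ?_)
    rw [Finset.card_univ]; ring
  refine (ml_sum_le _ _ _ h1).trans (le_of_eq ?_)
  rw [Finset.card_univ, Fintype.card_fin]; ring

theorem gm_deg {a : Fin k → N → m → (MvPolynomial (Fin d) ℝ)} {e e' : ℕ} (ha : ∀ l γ α, (a l γ α).totalDegree ≤ e)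
    (P : Matrix N N ℝ) {ψ : Fin k → N → (MvPolynomial (Fin d) ℝ)} (hψ : ∀ l γ, (ψ l γ).totalDegree ≤ e') (α : m) :
    (gm a P ψ α).totalDegree ≤ e + e' := by
  unfold gm
  refine MvPolynomial.totalDegree_finsetSum_le fun l _ => ?_
  refine MvPolynomial.totalDegree_finsetSum_le fun γ _ => ?_
  refine MvPolynomial.totalDegree_finsetSum_le fun γ' _ => ?_
  refine (MvPolynomial.totalDegree_mul _ _).trans ?_
  have h1 : (a l γ α * C (P γ γ')).totalDegree ≤ e := by
    refine (MvPolynomial.totalDegree_mul _ _).trans ?_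
    rw [MvPolynomial.totalDegree_C, add_zero]; exact ha _ _ _
  have h2 := hψ l γ'
  omega

theorem eval_det (M : Matrix m m (MvPolynomial (Fin d) ℝ)) (T : Fin d → ℝ) :
    eval T (M.det) = (Matrix.det (fun i j => eval T (M i j))) := by
  have h1 := RingHom.map_det (MvPolynomial.eval T) M
  rw [h1]
  rfl

theorem eval_adj (M : Matrix m m (MvPolynomial (Fin d) ℝ)) (T : Fin d → ℝ) (i j : m) :
    eval T (M.adjugate i j) = (Matrix.adjugate (fun i j => eval T (M i j))) i j := by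
  have h1 := RingHom.map_adjugate (MvPolynomial.eval T) M
  have h2 := congrFun (congrFun h1 i) j
  exact h2

/-- Lower bound for the determinant at an injective point. -/
theorem det_inj (a : Fin k → N → m → (MvPolynomial (Fin d) ℝ)) {P : Matrix N N ℝ} (hP : Pᵀ = P) (hPP : P * P = P)
    (T : Fin d → ℝ) (μ : ℝ) (h : ∀ x : m → ℝ, μ ^ 2 * (x ⬝ᵥ x) ≤
      ∑ l, (P *ᵥ (Am a T l *ᵥ x)) ⬝ᵥ (P *ᵥ (Am a T l *ᵥ x))) :
    (μ ^ 2) ^ (Fintype.card m) ≤ eval T ((Gm a P).det) := by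
  rw [eval_det]
  refine Pool.LBL.det_lower (Gr a P T) (Gr_symm a hP T) (μ ^ 2) (sq_nonneg _) ?_
  intro x
  rw [Gr_quad a hP hPP]
  exact h x

/-- The polynomial on the cell. -/
theorem cell_poly (a : Fin k → N → m → (MvPolynomial (Fin d) ℝ)) (b B : ℝ) (e e' K : ℕ) (hb : 1 ≤ b) (hB : 0 ≤ B)
    (ha : ∀ l γ α, ml (a l γ α) ≤ b) (hae : ∀ l γ α, (a l γ α).totalDegree ≤ e)
    (P : Matrix N N ℝ) (hent : ∀ i j, |P i j| ≤ 1)
    (ψ : Fin k → N → (MvPolynomial (Fin d) ℝ)) (hψ : ∀ l γ, ml (ψ l γ) ≤ B) (hψe : ∀ l γ, (ψ l γ).totalDegree ≤ e')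
    (q₀ : ℝ) (hq₀ : 0 < q₀) (T₀ : Fin d → ℝ) (hT₀ : ∀ i, |T₀ i| ≤ 1) (hQ₀ : q₀ ≤ eval T₀ ((Gm a P).det)) :
    ∃ R : m → (MvPolynomial (Fin d) ℝ), (∀ α, (R α).totalDegree ≤
        Fintype.card m * (2 * e) + (e + e') + K * (Fintype.card m * (2 * e))) ∧
      ∀ (T : Fin d → ℝ) (s : m → ℝ) (x σ r : ℝ), (∀ i, |T i| ≤ 1) → 0 ≤ r →
        (∀ i, |T₀ i - T i| ≤ r) → 0 ≤ σ → q₀ ≤ eval T ((Gm a P).det) →
        (Fintype.card m * (2 * e) : ℕ) * ((Fintype.card m).factorial *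
          (1 + k * (Fintype.card N) ^ 2 * b ^ 2) ^ (Fintype.card m)) * r ≤ x * q₀ →
        (∀ l γ, |(P *ᵥ (Am a T l *ᵥ s - fun γ => eval T (ψ l γ))) γ| ≤ σ) →
        ∀ α, |s α - eval T (R α)| ≤
          ((Fintype.card m) * ((Fintype.card m).factorial *
            (1 + k * (Fintype.card N) ^ 2 * b ^ 2) ^ (Fintype.card m)) *
              (k * Fintype.card N * b * σ)) / q₀ +
          ((Fintype.card m) * ((Fintype.card m).factorial *
            (1 + k * (Fintype.card N) ^ 2 * b ^ 2) ^ (Fintype.card m)) *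
              (k * (Fintype.card N) ^ 2 * (b * B))) / q₀ * x ^ K := by
  classical
  set M : ℕ := Fintype.card m with hM
  set n : ℕ := Fintype.card N with hn
  set bG : ℝ := 1 + k * (n:ℝ) ^ 2 * b ^ 2 with hbG
  have hbG1 : 1 ≤ bG := by
    have : 0 ≤ (k:ℝ) * (n:ℝ) ^ 2 * b ^ 2 := by positivity
    linarith
  set bQ : ℝ := (M.factorial : ℝ) * bG ^ M with hbQ
  have hbQ0 : 0 ≤ bQ := by positivity
  set Q : (MvPolynomial (Fin d) ℝ) := (Gm a P).det with hQ
  have hQml : ml Q ≤ bQ := ml_det _ bG (by linarith) (fun i j => Gm_ml hb ha hent i j)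
  have hQdeg : Q.totalDegree ≤ M * (2 * e) := mdeg_det _ _ (fun i j => Gm_deg hae P i j)
  set Pp : m → (MvPolynomial (Fin d) ℝ) := fun α => ∑ β, (Gm a P).adjugate α β * gm a P ψ β with hPp
  set bP : ℝ := M * bQ * (k * (n:ℝ) ^ 2 * (b * B)) with hbP
  have hPml : ∀ α, ml (Pp α) ≤ bP := by
    intro α
    refine (ml_sum_le _ _ (bQ * (k * (n:ℝ) ^ 2 * (b * B))) ?_).trans (le_of_eq ?_)
    · intro β _
      exact ml_mul_le (madj_ml _ bG hbG1 (fun i j => Gm_ml hb ha hent i j) α β)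
        (gm_ml hb ha hent hψ β)
    · rw [Finset.card_univ]; ring
  have hPdeg : ∀ α, (Pp α).totalDegree ≤ M * (2 * e) + (e + e') := by
    intro α
    refine MvPolynomial.totalDegree_finsetSum_le fun β _ => ?_
    refine (MvPolynomial.totalDegree_mul _ _).trans (add_le_add ?_ ?_)
    · exact madj_deg _ _ (fun i j => Gm_deg hae P i j) α β
    · exact gm_deg hae P hψe β
  set Q₀ : ℝ := eval T₀ Q with hQ₀d
  have hQ₀pos : 0 < Q₀ := lt_of_lt_of_le hq₀ hQ₀
  set D : (MvPolynomial (Fin d) ℝ) := 1 - C (Q₀⁻¹) * Q with hD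
  have hDdeg : D.totalDegree ≤ M * (2 * e) := by
    refine (MvPolynomial.totalDegree_sub _ _).trans (max_le ?_ ?_)
    · rw [MvPolynomial.totalDegree_one]; exact Nat.zero_le _
    · refine (MvPolynomial.totalDegree_mul _ _).trans ?_
      rw [MvPolynomial.totalDegree_C, zero_add]; exact hQdeg
  refine ⟨fun α => C (Q₀⁻¹) * Pp α * ∑ q ∈ Finset.range K, D ^ q, ?_, ?_⟩
  · intro α
    refine (MvPolynomial.totalDegree_mul _ _).trans (add_le_add ?_ ?_)
    · refine (MvPolynomial.totalDegree_mul _ _).trans ?_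
      rw [MvPolynomial.totalDegree_C, zero_add]; exact hPdeg α
    · refine MvPolynomial.totalDegree_finsetSum_le fun q hq => ?_
      refine (MvPolynomial.totalDegree_pow _ _).trans ?_
      exact Nat.mul_le_mul (Finset.mem_range.mp hq).le hDdeg
  · intro T s x σ r hT hr0 hr hσ hQT hx hu α
    have hQTpos : 0 < eval T Q := lt_of_lt_of_le hq₀ hQT
    -- first part
    have hGs : ∀ β, |(Gr a P T *ᵥ s) β - eval T (gm a P ψ β)| ≤ k * n * b * σ := by
      intro β
      rw [res_eq]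
      refine (Finset.abs_sum_le_sum_abs _ _).trans ?_
      have h1 : ∀ l ∈ (Finset.univ : Finset (Fin k)), |∑ γ, Am a T l γ β *
          (P *ᵥ (Am a T l *ᵥ s - fun γ => eval T (ψ l γ))) γ| ≤ n * (b * σ) := by
        intro l _
        refine (Finset.abs_sum_le_sum_abs _ _).trans ?_
        have h2 : ∀ γ ∈ (Finset.univ : Finset N), |Am a T l γ β *
          (P *ᵥ (Am a T l *ᵥ s - fun γ => eval T (ψ l γ))) γ| ≤ b * σ := by
          intro γ _
          rw [abs_mul]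
          exact mul_le_mul ((eval_ml _ hT).trans (ha l γ β)) (hu l γ) (abs_nonneg _)
            (by linarith)
        refine (Finset.sum_le_sum h2).trans (le_of_eq ?_)
        rw [Finset.sum_const, Finset.card_univ, nsmul_eq_mul]
      refine (Finset.sum_le_sum h1).trans (le_of_eq ?_)
      rw [Finset.sum_const, Finset.card_univ, Fintype.card_fin, nsmul_eq_mul]; ring
    have hadj : eval T Q * s α - eval T (Pp α) =
        ∑ β, (Gr a P T).adjugate α β * ((Gr a P T *ᵥ s) β - eval T (gm a P ψ β)) := by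
      have h1 : (Gr a P T).adjugate *ᵥ (Gr a P T *ᵥ s) = (Gr a P T).det • s := by
        rw [Matrix.mulVec_mulVec, Matrix.adjugate_mul, Matrix.smul_mulVec, Matrix.one_mulVec]
      have h2 : eval T Q * s α = ((Gr a P T).adjugate *ᵥ (Gr a P T *ᵥ s)) α := by
        rw [h1, Pi.smul_apply, smul_eq_mul, hQ, eval_det]
        rfl
      have h3 : eval T (Pp α) = ∑ β, (Gr a P T).adjugate α β * eval T (gm a P ψ β) := by
        rw [hPp]
        simp only
        rw [map_sum]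
        refine Finset.sum_congr rfl fun β _ => ?_
        rw [map_mul, eval_adj]
        rfl
      rw [h2, h3]
      show ∑ β, (Gr a P T).adjugate α β * (Gr a P T *ᵥ s) β - _ = _
      rw [← Finset.sum_sub_distrib]
      refine Finset.sum_congr rfl fun β _ => ?_
      ring
    have hfirst : |eval T Q * s α - eval T (Pp α)| ≤ M * bQ * (k * n * b * σ) := by
      rw [hadj]
      refine (Finset.abs_sum_le_sum_abs _ _).trans ?_
      have h2 : ∀ β ∈ (Finset.univ : Finset m), |(Gr a P T).adjugate α β *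
          ((Gr a P T *ᵥ s) β - eval T (gm a P ψ β))| ≤ bQ * (k * n * b * σ) := by
        intro β _
        rw [abs_mul]
        refine mul_le_mul ?_ (hGs β) (abs_nonneg _) hbQ0
        have h4 : (Gr a P T).adjugate α β = eval T ((Gm a P).adjugate α β) := by
          rw [eval_adj]; rfl
        rw [h4]
        exact (eval_ml _ hT).trans (madj_ml _ bG hbG1 (fun i j => Gm_ml hb ha hent i j) α β)
      refine (Finset.sum_le_sum h2).trans (le_of_eq ?_)
      rw [Finset.sum_const, Finset.card_univ, nsmul_eq_mul]; ring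
    have hA : |s α - eval T (Pp α) / eval T Q| ≤ (M * bQ * (k * n * b * σ)) / q₀ := by
      have h1 : s α - eval T (Pp α) / eval T Q = (eval T Q * s α - eval T (Pp α)) / eval T Q := by
        field_simp
      rw [h1, abs_div, abs_of_pos hQTpos]
      have hb0 : 0 < b := by linarith
      exact div_le_div₀ (by positivity) hfirst hq₀ hQT
    -- second part
    set y : ℝ := eval T D with hy
    have hyv : y = 1 - Q₀⁻¹ * eval T Q := by
      rw [hy, hD]; simp
    have hyx : |y| ≤ x := by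
      have h1 : y = Q₀⁻¹ * (eval T₀ Q - eval T Q) := by
        rw [hyv, mul_sub, ← hQ₀d, inv_mul_cancel₀ hQ₀pos.ne']
      rw [h1, abs_mul, abs_inv, abs_of_pos hQ₀pos, inv_mul_le_iff₀ hQ₀pos]
      have h2 := lip_ml Q hT₀ hT hr0 hr
      have h3 : (Q.totalDegree : ℝ) * ml Q * r ≤ ((M * (2 * e) : ℕ) : ℝ) * bQ * r := by
        have : (Q.totalDegree : ℝ) ≤ ((M * (2 * e) : ℕ) : ℝ) := by exact_mod_cast hQdeg
        have h4 := ml_nn Q
        gcongr
      have hx0 : 0 ≤ x * q₀ := le_trans (by positivity) hx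
      have hx0' : 0 ≤ x := by
        by_contra hneg
        push Not at hneg
        have := mul_neg_of_neg_of_pos hneg hq₀
        linarith
      calc |eval T₀ Q - eval T Q| ≤ _ := h2
        _ ≤ _ := h3
        _ ≤ x * q₀ := hx
        _ ≤ Q₀ * x := by rw [mul_comm]; exact mul_le_mul_of_nonneg_right hQ₀ hx0'
    have hgeo : (∑ q ∈ Finset.range K, y ^ q) * (Q₀⁻¹ * eval T Q) = 1 - y ^ K := by
      have h1 := geom_sum_mul_neg y K
      have h2 : 1 - y = Q₀⁻¹ * eval T Q := by rw [hyv]; ring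
      rw [h2] at h1
      exact h1
    have hRv : eval T (C (Q₀⁻¹) * Pp α * ∑ q ∈ Finset.range K, D ^ q) =
        eval T (Pp α) / eval T Q * (1 - y ^ K) := by
      have h1 : eval T (∑ q ∈ Finset.range K, D ^ q) = ∑ q ∈ Finset.range K, y ^ q := by
        rw [map_sum]
        refine Finset.sum_congr rfl fun q _ => ?_
        rw [map_pow]
      rw [map_mul, map_mul, MvPolynomial.eval_C, h1, ← hgeo]
      field_simp
    have hB2 : |eval T (Pp α) / eval T Q - eval T (C (Q₀⁻¹) * Pp α *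
        ∑ q ∈ Finset.range K, D ^ q)| ≤ bP / q₀ * x ^ K := by
      rw [hRv]
      have h1 : eval T (Pp α) / eval T Q - eval T (Pp α) / eval T Q * (1 - y ^ K) =
          eval T (Pp α) / eval T Q * y ^ K := by ring
      rw [h1, abs_mul, abs_div, abs_of_pos hQTpos, abs_pow]
      have h2 : |eval T (Pp α)| ≤ bP := (eval_ml _ hT).trans (hPml α)
      have hbP0 : 0 ≤ bP := (ml_nn _).trans (hPml α)
      have h3 : |eval T (Pp α)| / eval T Q ≤ bP / q₀ := div_le_div₀ hbP0 h2 hq₀ hQT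
      exact mul_le_mul h3 (pow_le_pow_left₀ (abs_nonneg _) hyx K) (by positivity) (by positivity)
    have hfin : s α - eval T (C (Q₀⁻¹) * Pp α * ∑ q ∈ Finset.range K, D ^ q) =
        (s α - eval T (Pp α) / eval T Q) + (eval T (Pp α) / eval T Q - eval T (C (Q₀⁻¹) * Pp α *
        ∑ q ∈ Finset.range K, D ^ q)) := by ring
    rw [hfin]
    exact (abs_add_le _ _).trans (add_le_add hA hB2)

end Pool.GLM
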