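import Pool.Agent.H50.LBL.Pre
import Pool.Agent.H50.LBL.Mrat

/-!
# General linear elimination with time-like variables

As `Pool.GLB`, with the time replaced by a vector `t` of `d` time-like variables. The right sides
`g` are any functions which are reproduced from their values at the nodes by polynomials `LB`, which
are functions of the nodes.
-/

set_option autoImplicit false

namespace Pool.GLM

open Finset Matrix
open Pool.Agent.H49.Ent Pool.Agent.H32.Dense Pool.STK Pool.KS3 Pool.BFL Pool.GNB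

section

variable {h m c n d : ℕ} {NN : Finset (Fin h →₀ ℕ)}

/-- The monomials of the line data. -/
noncomputable def mo (NN : Finset (Fin h →₀ ℕ)) (β : Fin h → ℝ) : {γ // γ ∈ NN} → ℝ :=
  fun γ => γ.1.prod fun i d => β i ^ d

/-- The value of the equation `l` on the vector `s` at the time `T` along the line `β`. -/
noncomputable def ev (a : Fin c → {γ // γ ∈ NN} → Fin m → MvPolynomial (Fin d) ℝ)
    (β : Fin h → ℝ) (T : Fin d → ℝ) (s : Fin m → ℝ) (l : Fin c) : ℝ :=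
  ∑ γ : {γ // γ ∈ NN}, (∑ α, MvPolynomial.eval T (a l γ α) * s α) *
    γ.1.prod fun i d => β i ^ d

end

/-- **General linear elimination with time-like variables.** -/
def GLMStmt : Prop :=
  ∀ (h m c n d KL : ℕ) (NN : Finset (Fin h →₀ ℕ))
    (a : Fin c → {γ // γ ∈ NN} → Fin m → MvPolynomial (Fin d) ℝ) (C₀ : ℝ),
    1 ≤ C₀ → ∀ j : ℕ, ∃ (C : ℝ) (A₂ : ℕ), 1 ≤ C ∧ ∀ q : ℕ, ∃ A K₂ : ℕ,
    ∀ (R : ℕ) (Ω Γ : Type) [Fintype Ω] (p : Ω → ℝ) (x : Ω → Γ) (β : Ω → Fin h → ℝ)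
      (t : ℕ → Γ → Fin d → ℝ) (v : Γ → Fin n → Fin d → ℝ)
      (LB : (Fin n → Fin d → ℝ) → Fin n → MvPolynomial (Fin d) ℝ)
      (s : ℕ → Γ → Fin m → ℝ) (s' : Γ → Fin n → Fin m → ℝ)
      (g : Ω → Fin c → (Fin d → ℝ) → ℝ) (Gd : Ω → Prop) (Λ τ η : ℝ),
      0 < R → IsLaw p → 0 < τ → C ≤ Λ → τ * Λ ^ A ≤ 1 →
      (∀ ω, Gd ω → (∀ i, |β ω i| ≤ C₀) ∧ (∀ r < R, ∀ i, |t r (x ω) i| ≤ 1) ∧
        (∀ i i', |v (x ω) i i'| ≤ 1) ∧
        (∀ i, ml (LB (v (x ω)) i) ≤ Λ ∧ (LB (v (x ω)) i).totalDegree ≤ KL) ∧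
        (∀ r < R, ∀ l, g ω l (t r (x ω)) =
          ∑ i, MvPolynomial.eval (t r (x ω)) (LB (v (x ω)) i) * g ω l (v (x ω) i)) ∧
        (∀ r < R, ∀ α, |s r (x ω) α| ≤ Λ) ∧ (∀ i α, |s' (x ω) i α| ≤ Λ) ∧
        (∀ r < R, ∀ l, |ev a (β ω) (t r (x ω)) (s r (x ω)) l - g ω l (t r (x ω))| ≤ τ) ∧
        (∀ i l, |ev a (β ω) (v (x ω) i) (s' (x ω) i) l - g ω l (v (x ω) i)| ≤ τ)) →
      (∀ r < R, ∀ s₀ : Γ → Fin m → ℝ, (∀ y α, |s₀ y α| ≤ 1) →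
        (∀ ω, Gd ω → (∃ α, |s₀ (x ω) α| = 1) →
          ∀ l, |ev a (β ω) (t r (x ω)) (s₀ (x ω)) l| * Λ ^ j ≤ 1) →
        Pb p (fun ω => Gd ω ∧ ∃ α, |s₀ (x ω) α| = 1) ≤ η) →
      ∃ r < R, ∃ F : (Fin n → Fin d → ℝ) → (Fin n → Fin m → ℝ) →
          (Fin r → (Fin d → ℝ) × (Fin m → ℝ)) → (Fin d → ℤ) → Fin m → MvPolynomial (Fin d) ℝ,
        (∀ v s' P z α, (F v s' P z α).totalDegree ≤ K₂) ∧
        Pb p (fun ω => Gd ω ∧ ¬ ∀ α, |s r (x ω) α - MvPolynomial.eval (t r (x ω))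
          (F (v (x ω)) (s' (x ω)) (fun i : Fin r => (t i (x ω), s i (x ω)))
            (fun i => ⌊t r (x ω) i * Λ ^ A₂⌋) α)| * Λ ^ q ≤ 1) ≤ (NN.card : ℝ) / R + η

section

variable {h m c n d : ℕ} {NN : Finset (Fin h →₀ ℕ)}

theorem ev_eq (a : Fin c → {γ // γ ∈ NN} → Fin m → MvPolynomial (Fin d) ℝ) (β : Fin h → ℝ)
    (T : Fin d → ℝ) (s : Fin m → ℝ) (l : Fin c) :
    ev a β T s l = (Am a T l *ᵥ s) ⬝ᵥ mo NN β := rfl

/-- The part of the nodes. -/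
noncomputable def psi (a : Fin c → {γ // γ ∈ NN} → Fin m → MvPolynomial (Fin d) ℝ)
    (LB : (Fin n → Fin d → ℝ) → Fin n → MvPolynomial (Fin d) ℝ)
    (v : Fin n → Fin d → ℝ) (s' : Fin n → Fin m → ℝ) (l : Fin c) (γ : {γ // γ ∈ NN}) :
    MvPolynomial (Fin d) ℝ :=
  ∑ j, LB v j * MvPolynomial.C ((Am a (v j) l *ᵥ s' j) γ)

/-- The functional of a sample. -/
noncomputable def uu (a : Fin c → {γ // γ ∈ NN} → Fin m → MvPolynomial (Fin d) ℝ)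
    (LB : (Fin n → Fin d → ℝ) → Fin n → MvPolynomial (Fin d) ℝ)
    (v : Fin n → Fin d → ℝ) (s' : Fin n → Fin m → ℝ) (T : Fin d → ℝ) (s : Fin m → ℝ)
    (l : Fin c) : {γ // γ ∈ NN} → ℝ :=
  Am a T l *ᵥ s - fun γ => MvPolynomial.eval T (psi a LB v s' l γ)

theorem dot_uu (a : Fin c → {γ // γ ∈ NN} → Fin m → MvPolynomial (Fin d) ℝ)
    (LB : (Fin n → Fin d → ℝ) → Fin n → MvPolynomial (Fin d) ℝ)
    (v : Fin n → Fin d → ℝ) (s' : Fin n → Fin m → ℝ) (T : Fin d → ℝ) (s : Fin m → ℝ)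
    (l : Fin c) (β : Fin h → ℝ) :
    uu a LB v s' T s l ⬝ᵥ mo NN β = ev a β T s l -
      ∑ j, MvPolynomial.eval T (LB v j) * ev a β (v j) (s' j) l := by
  unfold uu
  rw [sub_dotProduct, ev_eq]
  congr 1
  have h1 : (fun γ => MvPolynomial.eval T (psi a LB v s' l γ)) =
      ∑ j, MvPolynomial.eval T (LB v j) • (Am a (v j) l *ᵥ s' j) := by
    funext γ
    unfold psi
    rw [map_sum, Finset.sum_apply]
    refine Finset.sum_congr rfl fun j _ => ?_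
    rw [map_mul, MvPolynomial.eval_C, Pi.smul_apply, smul_eq_mul]
  rw [h1, sum_dotProduct]
  refine Finset.sum_congr rfl fun j _ => ?_
  rw [smul_dotProduct, smul_eq_mul, ev_eq]

theorem Am_bd (a : Fin c → {γ // γ ∈ NN} → Fin m → MvPolynomial (Fin d) ℝ) {b Λ : ℝ}
    (hb : 0 ≤ b) (hab : ∀ l γ α, ml (a l γ α) ≤ b) {T : Fin d → ℝ} (hT : ∀ i, |T i| ≤ 1)
    (s : Fin m → ℝ) (hs : ∀ α, |s α| ≤ Λ) (l : Fin c) (γ : {γ // γ ∈ NN}) :
    |(Am a T l *ᵥ s) γ| ≤ m * (b * Λ) := by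
  show |∑ α, Am a T l γ α * s α| ≤ _
  refine (Finset.abs_sum_le_sum_abs _ _).trans ?_
  have h1 : ∀ α ∈ (Finset.univ : Finset (Fin m)), |Am a T l γ α * s α| ≤ b * Λ := by
    intro α _
    rw [abs_mul]
    exact mul_le_mul ((eval_ml _ hT).trans (hab l γ α)) (hs α) (abs_nonneg _) hb
  refine (Finset.sum_le_sum h1).trans (le_of_eq ?_)
  rw [Finset.sum_const, Finset.card_univ, Fintype.card_fin, nsmul_eq_mul]

theorem psi_ml (a : Fin c → {γ // γ ∈ NN} → Fin m → MvPolynomial (Fin d) ℝ)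
    {LB : (Fin n → Fin d → ℝ) → Fin n → MvPolynomial (Fin d) ℝ} {b Λ : ℝ} (hb : 0 ≤ b)
    (hab : ∀ l γ α, ml (a l γ α) ≤ b) {v : Fin n → Fin d → ℝ} (hv : ∀ i i', |v i i'| ≤ 1)
    (hLB : ∀ i, ml (LB v i) ≤ Λ) {s' : Fin n → Fin m → ℝ}
    (hs' : ∀ j α, |s' j α| ≤ Λ) (l : Fin c) (γ : {γ // γ ∈ NN}) :
    ml (psi a LB v s' l γ) ≤ n * (Λ * (m * (b * Λ))) := by
  unfold psi
  refine (ml_sum_le _ _ (Λ * (m * (b * Λ))) ?_).trans (le_of_eq ?_)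
  · intro j _
    refine ml_mul_le (hLB j) ?_
    rw [ml_C]
    exact Am_bd a hb hab (hv j) _ (fun α => hs' j α) l γ
  · rw [Finset.card_univ, Fintype.card_fin]

theorem psi_deg (a : Fin c → {γ // γ ∈ NN} → Fin m → MvPolynomial (Fin d) ℝ)
    {LB : (Fin n → Fin d → ℝ) → Fin n → MvPolynomial (Fin d) ℝ} {KL : ℕ} {v : Fin n → Fin d → ℝ}
    (hLB : ∀ i, (LB v i).totalDegree ≤ KL)
    (s' : Fin n → Fin m → ℝ) (l : Fin c) (γ : {γ // γ ∈ NN}) :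
    (psi a LB v s' l γ).totalDegree ≤ KL := by
  unfold psi
  refine MvPolynomial.totalDegree_finsetSum_le fun j _ => ?_
  refine (MvPolynomial.totalDegree_mul _ _).trans ?_
  rw [MvPolynomial.totalDegree_C, add_zero]
  exact hLB j

theorem uu_bd (a : Fin c → {γ // γ ∈ NN} → Fin m → MvPolynomial (Fin d) ℝ)
    {LB : (Fin n → Fin d → ℝ) → Fin n → MvPolynomial (Fin d) ℝ} {b Λ : ℝ} (hb : 0 ≤ b)
    (hab : ∀ l γ α, ml (a l γ α) ≤ b) {v : Fin n → Fin d → ℝ} (hv : ∀ i i', |v i i'| ≤ 1)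
    (hLB : ∀ i, ml (LB v i) ≤ Λ) {s' : Fin n → Fin m → ℝ}
    (hs' : ∀ j α, |s' j α| ≤ Λ) {T : Fin d → ℝ} (hT : ∀ i, |T i| ≤ 1) {s : Fin m → ℝ}
    (hS : ∀ α, |s α| ≤ Λ) (l : Fin c) (γ : {γ // γ ∈ NN}) :
    |uu a LB v s' T s l γ| ≤ (1 + n * Λ) * (m * (b * Λ)) := by
  unfold uu
  rw [Pi.sub_apply]
  refine (abs_sub _ _).trans ?_
  have h1 := Am_bd a hb hab hT s hS l γ
  have h2 := (eval_ml (psi a LB v s' l γ) hT).trans (psi_ml a hb hab hv hLB hs' l γ)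
  calc _ ≤ m * (b * Λ) + n * (Λ * (m * (b * Λ))) := add_le_add h1 h2
    _ = _ := by ring

theorem uu_sm (a : Fin c → {γ // γ ∈ NN} → Fin m → MvPolynomial (Fin d) ℝ)
    {LB : (Fin n → Fin d → ℝ) → Fin n → MvPolynomial (Fin d) ℝ}
    {Λ τ : ℝ} {v : Fin n → Fin d → ℝ}
    (hLB : ∀ i, ml (LB v i) ≤ Λ) {s' : Fin n → Fin m → ℝ}
    {T : Fin d → ℝ} (hT : ∀ i, |T i| ≤ 1) {s : Fin m → ℝ}
    (l : Fin c) (β : Fin h → ℝ) (q : (Fin d → ℝ) → ℝ)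
    (hq : q T = ∑ i, MvPolynomial.eval T (LB v i) * q (v i))
    (h1 : |ev a β T s l - q T| ≤ τ) (h2 : ∀ j, |ev a β (v j) (s' j) l - q (v j)| ≤ τ) :
    |uu a LB v s' T s l ⬝ᵥ mo NN β| ≤ (1 + n * Λ) * τ := by
  rw [dot_uu a LB v s' T s l β]
  set a₀ := ev a β T s l with ha₀
  set a' : Fin n → ℝ := fun j => ev a β (v j) (s' j) l with ha'
  have h4 : a₀ - ∑ j, MvPolynomial.eval T (LB v j) * a' j = (a₀ - q T) -
      ∑ j, MvPolynomial.eval T (LB v j) * (a' j - q (v j)) := by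
    simp only [mul_sub, Finset.sum_sub_distrib]
    rw [← hq]
    ring
  have h5 : |∑ j, MvPolynomial.eval T (LB v j) * (a' j - q (v j))| ≤ n * (Λ * τ) := by
    refine (Finset.abs_sum_le_sum_abs _ _).trans ?_
    have h6 : ∀ j ∈ (Finset.univ : Finset (Fin n)),
        |MvPolynomial.eval T (LB v j) * (a' j - q (v j))| ≤ Λ * τ := by
      intro j _
      rw [abs_mul]
      have h7 : |MvPolynomial.eval T (LB v j)| ≤ Λ := (eval_ml _ hT).trans (hLB j)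
      exact mul_le_mul h7 (h2 j) (abs_nonneg _) ((abs_nonneg _).trans h7)
    refine (Finset.sum_le_sum h6).trans (le_of_eq ?_)
    rw [Finset.sum_const, Finset.card_univ, Fintype.card_fin, nsmul_eq_mul]
  rw [h4]
  refine (abs_sub _ _).trans ?_
  calc |a₀ - q T| + |∑ j, MvPolynomial.eval T (LB v j) * (a' j - q (v j))| ≤
        τ + n * (Λ * τ) := add_le_add h1 h5
    _ = _ := by ring

theorem mo_bd {C₀ : ℝ} (hC₀ : 1 ≤ C₀) (NN : Finset (Fin h →₀ ℕ)) :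
    ∃ Cv : ℝ, 1 ≤ Cv ∧ ∀ β : Fin h → ℝ, (∀ i, |β i| ≤ C₀) →
      ∀ γ : {γ // γ ∈ NN}, |mo NN β γ| ≤ Cv := by
  refine ⟨1 + ∑ γ ∈ NN, C₀ ^ (γ.sum fun _ d => d), ?_, ?_⟩
  · have : 0 ≤ ∑ γ ∈ NN, C₀ ^ (γ.sum fun _ d => d) :=
      Finset.sum_nonneg fun _ _ => by positivity
    linarith
  · intro β hβ γ
    have h1 : |mo NN β γ| ≤ C₀ ^ (γ.1.sum fun _ d => d) := by
      unfold mo
      rw [Finsupp.prod, Finset.abs_prod, Finsupp.sum, ← Finset.prod_pow_eq_pow_sum]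
      refine Finset.prod_le_prod (fun _ _ => abs_nonneg _) fun q _ => ?_
      rw [abs_pow]
      exact pow_le_pow_left₀ (abs_nonneg _) (hβ _) _
    have h2 : C₀ ^ (γ.1.sum fun _ d => d) ≤ ∑ γ ∈ NN, C₀ ^ (γ.sum fun _ d => d) :=
      Finset.single_le_sum (f := fun γ : Fin h →₀ ℕ => C₀ ^ (γ.sum fun _ d => d))
        (fun _ _ => by positivity) γ.2
    linarith

/-- Injectivity at the tolerance. -/
def Inj (a : Fin c → {γ // γ ∈ NN} → Fin m → MvPolynomial (Fin d) ℝ)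
    (P : Matrix {γ // γ ∈ NN} {γ // γ ∈ NN} ℝ) (T : Fin d → ℝ) (μ : ℝ) : Prop :=
  ∀ x : Fin m → ℝ, μ ^ 2 * (x ⬝ᵥ x) ≤
    ∑ l, (P *ᵥ (Am a T l *ᵥ x)) ⬝ᵥ (P *ᵥ (Am a T l *ᵥ x))

theorem not_inj (a : Fin c → {γ // γ ∈ NN} → Fin m → MvPolynomial (Fin d) ℝ)
    (P : Matrix {γ // γ ∈ NN} {γ // γ ∈ NN} ℝ) (T : Fin d → ℝ) (μ : ℝ) (hμ : 0 ≤ μ)
    (hI : ¬ Inj a P T μ) :
    ∃ s : Fin m → ℝ, (∀ α, |s α| ≤ 1) ∧ (∃ α, |s α| = 1) ∧
      ∀ l γ, |(P *ᵥ (Am a T l *ᵥ s)) γ| ≤ μ * m := by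
  unfold Inj at hI
  push Not at hI
  obtain ⟨x, hx⟩ := hI
  have hx0 : 0 < x ⬝ᵥ x := by
    have h0 : 0 ≤ x ⬝ᵥ x := by
      unfold dotProduct
      exact Finset.sum_nonneg fun i _ => mul_self_nonneg _
    rcases h0.lt_or_eq with h1 | h1
    · exact h1
    · exfalso
      rw [← h1, mul_zero] at hx
      have : 0 ≤ ∑ l, (P *ᵥ (Am a T l *ᵥ x)) ⬝ᵥ (P *ᵥ (Am a T l *ᵥ x)) := by
        refine Finset.sum_nonneg fun l _ => ?_
        unfold dotProduct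
        exact Finset.sum_nonneg fun i _ => mul_self_nonneg _
      linarith
  have hne : (Finset.univ : Finset (Fin m)).Nonempty := by
    by_contra hcon
    rw [Finset.not_nonempty_iff_eq_empty] at hcon
    unfold dotProduct at hx0
    rw [hcon, Finset.sum_empty] at hx0
    exact lt_irrefl _ hx0
  obtain ⟨α₀, _, hα₀⟩ := Finset.exists_max_image _ (fun α => |x α|) hne
  set σ : ℝ := |x α₀| with hσ
  have hσm : ∀ α, |x α| ≤ σ := fun α => hα₀ α (Finset.mem_univ α)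
  have hM : x ⬝ᵥ x ≤ m * σ ^ 2 := by
    unfold dotProduct
    have h1 : ∀ α ∈ (Finset.univ : Finset (Fin m)), x α * x α ≤ σ ^ 2 := by
      intro α _
      rw [← sq, ← sq_abs]
      exact pow_le_pow_left₀ (abs_nonneg _) (hσm α) 2
    refine (Finset.sum_le_sum h1).trans (le_of_eq ?_)
    rw [Finset.sum_const, Finset.card_univ, Fintype.card_fin, nsmul_eq_mul]
  have hσ0 : 0 < σ := by
    rcases (abs_nonneg (x α₀)).lt_or_eq with h1 | h1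
    · exact h1
    · exfalso
      rw [← hσ] at h1
      rw [← h1] at hM
      simp at hM
      linarith
  have hcard : (1 : ℝ) ≤ m := by
    have h2 : 0 < m := by
      have := Finset.card_pos.mpr hne
      rwa [Finset.card_univ, Fintype.card_fin] at this
    exact_mod_cast h2
  refine ⟨fun α => x α / σ, ?_, ⟨α₀, ?_⟩, ?_⟩
  · intro α
    rw [abs_div, abs_of_pos hσ0, div_le_one hσ0]
    exact hσm α
  · rw [abs_div, abs_of_pos hσ0, ← hσ, div_self hσ0.ne']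
  · intro l γ
    have h1 : (fun α => x α / σ) = σ⁻¹ • x := by
      funext α
      rw [Pi.smul_apply, smul_eq_mul, div_eq_inv_mul]
    rw [h1, Matrix.mulVec_smul, Matrix.mulVec_smul, Pi.smul_apply, smul_eq_mul, abs_mul, abs_inv,
      abs_of_pos hσ0, inv_mul_le_iff₀ hσ0]
    have h2 : (P *ᵥ (Am a T l *ᵥ x)) γ ^ 2 ≤ (σ * (μ * m)) ^ 2 := by
      have h3 : (P *ᵥ (Am a T l *ᵥ x)) γ ^ 2 ≤
          (P *ᵥ (Am a T l *ᵥ x)) ⬝ᵥ (P *ᵥ (Am a T l *ᵥ x)) := by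
        rw [sq]
        unfold dotProduct
        exact Finset.single_le_sum (f := fun γ => (P *ᵥ (Am a T l *ᵥ x)) γ *
          (P *ᵥ (Am a T l *ᵥ x)) γ) (fun _ _ => mul_self_nonneg _) (Finset.mem_univ γ)
      have h4 : (P *ᵥ (Am a T l *ᵥ x)) ⬝ᵥ (P *ᵥ (Am a T l *ᵥ x)) ≤
          ∑ l, (P *ᵥ (Am a T l *ᵥ x)) ⬝ᵥ (P *ᵥ (Am a T l *ᵥ x)) :=
        Finset.single_le_sum (f := fun l => (P *ᵥ (Am a T l *ᵥ x)) ⬝ᵥ (P *ᵥ (Am a T l *ᵥ x)))
          (fun l _ => by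
            unfold dotProduct
            exact Finset.sum_nonneg fun i _ => mul_self_nonneg _) (Finset.mem_univ l)
      have h5 : μ ^ 2 * (x ⬝ᵥ x) ≤ μ ^ 2 * (m * σ ^ 2) :=
        mul_le_mul_of_nonneg_left hM (sq_nonneg _)
      have h6 : μ ^ 2 * (m * σ ^ 2) ≤ (σ * (μ * m)) ^ 2 := by
        have h7 : (σ * (μ * m)) ^ 2 = μ ^ 2 * σ ^ 2 * (m : ℝ) ^ 2 := by ring
        rw [h7]
        have h8 : (m : ℝ) ≤ (m : ℝ) ^ 2 := by nlinarith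
        have h9 : 0 ≤ μ ^ 2 * σ ^ 2 := by positivity
        nlinarith
      linarith
    have h3 : 0 ≤ σ * (μ * m) := by positivity
    exact abs_le_of_sq_le_sq h2 h3

theorem a_bound (a : Fin c → {γ // γ ∈ NN} → Fin m → MvPolynomial (Fin d) ℝ) :
    ∃ (b : ℝ) (e : ℕ), 1 ≤ b ∧
    (∀ l γ α, ml (a l γ α) ≤ b) ∧ ∀ l γ α, (a l γ α).totalDegree ≤ e := by
  classical
  refine ⟨1 + ∑ l, ∑ γ, ∑ α, ml (a l γ α), ∑ l, ∑ γ, ∑ α, (a l γ α).totalDegree, ?_, ?_, ?_⟩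
  · have : 0 ≤ ∑ l, ∑ γ, ∑ α, ml (a l γ α) :=
      Finset.sum_nonneg fun _ _ => Finset.sum_nonneg fun _ _ => Finset.sum_nonneg fun _ _ => ml_nn _
    linarith
  · intro l γ α
    have h1 : ml (a l γ α) ≤ ∑ α, ml (a l γ α) :=
      Finset.single_le_sum (f := fun α => ml (a l γ α)) (fun _ _ => ml_nn _) (Finset.mem_univ α)
    have h2 : ∑ α, ml (a l γ α) ≤ ∑ γ, ∑ α, ml (a l γ α) :=
      Finset.single_le_sum (f := fun γ => ∑ α, ml (a l γ α))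
        (fun _ _ => Finset.sum_nonneg fun _ _ => ml_nn _) (Finset.mem_univ γ)
    have h3 : ∑ γ, ∑ α, ml (a l γ α) ≤ ∑ l, ∑ γ, ∑ α, ml (a l γ α) :=
      Finset.single_le_sum (f := fun l => ∑ γ, ∑ α, ml (a l γ α))
        (fun _ _ => Finset.sum_nonneg fun _ _ => Finset.sum_nonneg fun _ _ => ml_nn _)
        (Finset.mem_univ l)
    linarith
  · intro l γ α
    have h1 : (a l γ α).totalDegree ≤ ∑ α, (a l γ α).totalDegree :=
      Finset.single_le_sum (f := fun α => (a l γ α).totalDegree) (fun _ _ => Nat.zero_le _)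
        (Finset.mem_univ α)
    have h2 : ∑ α, (a l γ α).totalDegree ≤ ∑ γ, ∑ α, (a l γ α).totalDegree :=
      Finset.single_le_sum (f := fun γ => ∑ α, (a l γ α).totalDegree)
        (fun _ _ => Nat.zero_le _) (Finset.mem_univ γ)
    have h3 : ∑ γ, ∑ α, (a l γ α).totalDegree ≤ ∑ l, ∑ γ, ∑ α, (a l γ α).totalDegree :=
      Finset.single_le_sum (f := fun l => ∑ γ, ∑ α, (a l γ α).totalDegree)
        (fun _ _ => Nat.zero_le _) (Finset.mem_univ l)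
    omega

end

end Pool.GLM
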