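import Pool.Agent.H50.LBL.Pre

/-!
LEMMA B, linear form: the matrices are injective outside a small event (Remez for entropies).
-/

set_option autoImplicit false

namespace Pool.LBL

open Finset Polynomial Matrix
open Pool.Agent.H49.Ent Pool.Agent.H32.Dense Pool.STK Pool.KS3 Pool.BFL Pool.GNB

section

variable {k n D E : ℕ} {NN : Finset ((Fin k × Fin (E + 1)) →₀ ℕ)}

/-- Injectivity at the tolerance. -/
def Inj (a : Fin k → {γ // γ ∈ NN} → {α // α ∈ mx k D} → ℝ[X])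
    (P : Matrix {γ // γ ∈ NN} {γ // γ ∈ NN} ℝ) (T μ : ℝ) : Prop :=
  ∀ x : {α // α ∈ mx k D} → ℝ, μ ^ 2 * (x ⬝ᵥ x) ≤
    ∑ l, (P *ᵥ (Am a T l *ᵥ x)) ⬝ᵥ (P *ᵥ (Am a T l *ᵥ x))

theorem not_inj (a : Fin k → {γ // γ ∈ NN} → {α // α ∈ mx k D} → ℝ[X])
    (P : Matrix {γ // γ ∈ NN} {γ // γ ∈ NN} ℝ) (T μ : ℝ) (hμ : 0 ≤ μ) (h : ¬ Inj a P T μ) :
    ∃ s : {α // α ∈ mx k D} → ℝ, (∀ α, |s α| ≤ 1) ∧ (∃ α, |s α| = 1) ∧
      ∀ l γ, |(P *ᵥ (Am a T l *ᵥ s)) γ| ≤ μ * (mx k D).card := by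
  unfold Inj at h
  push Not at h
  obtain ⟨x, hx⟩ := h
  have hx0 : 0 < x ⬝ᵥ x := by
    have h0 : 0 ≤ x ⬝ᵥ x := by
      unfold dotProduct
      exact Finset.sum_nonneg fun i _ => mul_self_nonneg _
    rcases h0.lt_or_eq with h1 | h1
    · exact h1
    · exfalso
      rw [← h1, mul_zero] at hx
      have : 0 ≤ ∑ l, (P *ᵥ (Am a T l *ᵥ x)) ⬝ᵥ (P *ᵥ (Am a T l *ᵥ x)) := by
        refine Finset.sum_nonneg fun l _ => ?_
        unfold dotProduct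
        exact Finset.sum_nonneg fun i _ => mul_self_nonneg _
      linarith
  have hne : (Finset.univ : Finset {α // α ∈ mx k D}).Nonempty := by
    by_contra hcon
    rw [Finset.not_nonempty_iff_eq_empty] at hcon
    unfold dotProduct at hx0
    rw [hcon, Finset.sum_empty] at hx0
    exact lt_irrefl _ hx0
  obtain ⟨α₀, _, hα₀⟩ := Finset.exists_max_image _ (fun α => |x α|) hne
  set σ : ℝ := |x α₀| with hσ
  have hσm : ∀ α, |x α| ≤ σ := fun α => hα₀ α (Finset.mem_univ α)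
  have hM : x ⬝ᵥ x ≤ (mx k D).card * σ ^ 2 := by
    unfold dotProduct
    have h1 : ∀ α ∈ (Finset.univ : Finset {α // α ∈ mx k D}), x α * x α ≤ σ ^ 2 := by
      intro α _
      rw [← sq, ← sq_abs]
      exact pow_le_pow_left₀ (abs_nonneg _) (hσm α) 2
    refine (Finset.sum_le_sum h1).trans (le_of_eq ?_)
    rw [Finset.sum_const, Finset.card_univ, Fintype.card_coe, nsmul_eq_mul]
  have hσ0 : 0 < σ := by
    rcases (abs_nonneg (x α₀)).lt_or_eq with h1 | h1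
    · exact h1
    · exfalso
      rw [← hσ] at h1
      rw [← h1] at hM
      simp at hM
      linarith
  have hcard : (1 : ℝ) ≤ (mx k D).card := by
    have h2 : 0 < (mx k D).card := by
      have := Finset.card_pos.mpr hne
      rwa [Finset.card_univ, Fintype.card_coe] at this
    exact_mod_cast h2
  refine ⟨fun α => x α / σ, ?_, ⟨α₀, ?_⟩, ?_⟩
  · intro α
    rw [abs_div, abs_of_pos hσ0, div_le_one hσ0]
    exact hσm α
  · rw [abs_div, abs_of_pos hσ0, ← hσ, div_self hσ0.ne']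
  · intro l γ
    have h1 : (fun α => x α / σ) = σ⁻¹ • x := by
      funext α
      rw [Pi.smul_apply, smul_eq_mul, div_eq_inv_mul]
    rw [h1, Matrix.mulVec_smul, Matrix.mulVec_smul, Pi.smul_apply, smul_eq_mul, abs_mul, abs_inv,
      abs_of_pos hσ0, inv_mul_le_iff₀ hσ0]
    have h2 : (P *ᵥ (Am a T l *ᵥ x)) γ ^ 2 ≤ (σ * (μ * (mx k D).card)) ^ 2 := by
      have h3 : (P *ᵥ (Am a T l *ᵥ x)) γ ^ 2 ≤
          (P *ᵥ (Am a T l *ᵥ x)) ⬝ᵥ (P *ᵥ (Am a T l *ᵥ x)) := by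
        rw [sq]
        unfold dotProduct
        exact Finset.single_le_sum (f := fun γ => (P *ᵥ (Am a T l *ᵥ x)) γ *
          (P *ᵥ (Am a T l *ᵥ x)) γ) (fun _ _ => mul_self_nonneg _) (Finset.mem_univ γ)
      have h4 : (P *ᵥ (Am a T l *ᵥ x)) ⬝ᵥ (P *ᵥ (Am a T l *ᵥ x)) ≤
          ∑ l, (P *ᵥ (Am a T l *ᵥ x)) ⬝ᵥ (P *ᵥ (Am a T l *ᵥ x)) :=
        Finset.single_le_sum (f := fun l => (P *ᵥ (Am a T l *ᵥ x)) ⬝ᵥ (P *ᵥ (Am a T l *ᵥ x)))
          (fun l _ => by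
            unfold dotProduct
            exact Finset.sum_nonneg fun i _ => mul_self_nonneg _) (Finset.mem_univ l)
      have h5 : μ ^ 2 * (x ⬝ᵥ x) ≤ μ ^ 2 * ((mx k D).card * σ ^ 2) :=
        mul_le_mul_of_nonneg_left hM (sq_nonneg _)
      have h6 : μ ^ 2 * ((mx k D).card * σ ^ 2) ≤ (σ * (μ * (mx k D).card)) ^ 2 := by
        have h7 : (σ * (μ * (mx k D).card)) ^ 2 = μ ^ 2 * σ ^ 2 * ((mx k D).card : ℝ) ^ 2 := by
          ring
        rw [h7]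
        have h8 : ((mx k D).card : ℝ) ≤ ((mx k D).card : ℝ) ^ 2 := by nlinarith
        have h9 : 0 ≤ μ ^ 2 * σ ^ 2 := by positivity
        nlinarith
      linarith
    have h3 : 0 ≤ σ * (μ * (mx k D).card) := by positivity
    exact abs_le_of_sq_le_sq h2 h3

/-- The polynomial of a coefficient vector. -/
noncomputable def Sp (s : {α // α ∈ mx k D} → ℝ) : Pl k :=
  ∑ α : {α // α ∈ mx k D}, MvPolynomial.monomial α.1 (s α)

theorem coeff_Sp (s : {α // α ∈ mx k D} → ℝ) (α : {α // α ∈ mx k D}) :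
    MvPolynomial.coeff α.1 (Sp s) = s α := by
  classical
  unfold Sp
  rw [MvPolynomial.coeff_sum]
  rw [Finset.sum_eq_single α]
  · rw [MvPolynomial.coeff_monomial, if_pos rfl]
  · intro α' _ hne
    rw [MvPolynomial.coeff_monomial, if_neg]
    intro h
    exact hne (Subtype.ext h)
  · intro h
    exact absurd (Finset.mem_univ α) h

theorem Sp_bx (s : {α // α ∈ mx k D} → ℝ) (α : Fin k →₀ ℕ)
    (hα : MvPolynomial.coeff α (Sp s) ≠ 0) : α ∈ Pool.Agent.H36.KBX.bx k D := by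
  classical
  unfold Sp at hα
  rw [MvPolynomial.coeff_sum] at hα
  obtain ⟨α', _, h1⟩ := Finset.exists_ne_zero_of_sum_ne_zero hα
  rw [MvPolynomial.coeff_monomial] at h1
  have h2 : α'.1 = α := by
    by_contra hne
    rw [if_neg hne] at h1
    exact h1 rfl
  have h3 := α'.2
  unfold mx at h3
  rw [← h2]
  exact (Finset.mem_erase.mp h3).2

theorem Sp_deg (s : {α // α ∈ mx k D} → ℝ) : (Sp s).totalDegree ≤ k * D := by
  classical
  refine MvPolynomial.totalDegree_finsetSum_le fun α _ => ?_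
  refine (MvPolynomial.totalDegree_monomial_le _ _).trans ?_
  have h3 := α.2
  unfold mx at h3
  have h4 := Pool.Agent.H36.KBX.mem_bx.mp (Finset.mem_erase.mp h3).2
  rw [Finsupp.sum_fintype _ _ (fun _ => rfl)]
  refine (Finset.sum_le_sum fun i _ => h4 i).trans (le_of_eq ?_)
  rw [Finset.sum_const, Finset.card_univ, Fintype.card_fin, smul_eq_mul]

theorem sv_Sp (s : {α // α ∈ mx k D} → ℝ) : sv D (Sp s) = s := by
  funext α
  exact coeff_Sp s α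

/-- The matrices are injective outside a small event. -/
theorem inj_prob (a : Fin k → {γ // γ ∈ NN} → {α // α ∈ mx k D} → ℝ[X]) (ha : HU a) {b : ℝ}
    (hb : 1 ≤ b) (hab : ∀ l γ α, l1 (a l γ α) ≤ b) (C₀ : ℝ) (hC₀ : 1 ≤ C₀) :
    ∃ C : ℝ, 1 ≤ C ∧ ∀ (Ω Γ : Type) [Fintype Ω] (p : Ω → ℝ) (L : ℕ) (Y : Ω → Fin k → ℕ)
      (c : Ω → Γ) (β : Ω → Fin k → Fin (E + 1) → ℝ) (t : Γ → ℝ)
      (P : Γ → Matrix {γ // γ ∈ NN} {γ // γ ∈ NN} ℝ) (Gd : Ω → Prop) (Λ dl θ η : ℝ),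
      IsLaw p → (∀ ω i, Y ω i < 2 ^ L) → 0 ≤ θ → 0 < η → η ≤ 1 →
      k * (L * Real.log 2) - θ ≤ CH p Y c →
      Pb p (fun ω => ¬ Gd ω) ≤ η / 4 → C * (θ + 1) / η ≤ L * Real.log 2 →
      Real.exp (C * (θ + 1) / η) ≤ Λ → C ≤ Λ → 0 ≤ dl → dl * Λ ^ 3 ≤ 1 →
      (∀ x u w, (P x *ᵥ u) ⬝ᵥ w = u ⬝ᵥ (P x *ᵥ w)) →
      (∀ ω, Gd ω → (∀ i e, |β ω i e| ≤ C₀) ∧ |t (c ω)| ≤ 1 ∧
        (∀ i, |pos (β ω) (t (c ω)) i - (Y ω i : ℝ) / 2 ^ L| ≤ C₀ / 2 ^ L) ∧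
        ∀ γ, |mv NN (β ω) γ - (P (c ω) *ᵥ mv NN (β ω)) γ| ≤ dl) →
      Pb p (fun ω => Gd ω ∧ ¬ Inj a (P (c ω)) (t (c ω)) (Λ⁻¹ ^ 2)) ≤ k * η := by
  classical
  obtain ⟨C₁, hC₁, hren⟩ := Pool.Agent.H33.BFL.ren_thm k (k * D) C₀ hC₀
  obtain ⟨Cc, hCc0, hCc⟩ := Pool.Agent.H36.KBX.coef_bound k (k * D)
  obtain ⟨Cv, hCv1, hCv⟩ := mon_bound (k := k) (E := E) hC₀ NN
  set M : ℝ := ((mx k D).card : ℝ) with hM
  set N : ℝ := (Fintype.card {γ // γ ∈ NN} : ℝ) with hN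
  have hM0 : 0 ≤ M := by positivity
  have hN0 : 0 ≤ N := by positivity
  set C₂ : ℝ := (Cc + 1) * (N * M * Cv + 1) + N * M * b + 1 with hC₂
  have hx1 : 0 ≤ N * M * Cv := by positivity
  have hx2 : 0 ≤ N * M * b := by positivity
  have hC₂1 : 1 ≤ C₂ := by
    have : 0 ≤ (Cc + 1) * (N * M * Cv + 1) := by positivity
    linarith
  refine ⟨max C₁ C₂, hC₁.trans (le_max_left _ _), ?_⟩
  intro Ω Γ _ p L Y c β t P Gd Λ dl θ η hp hY hθ hη hη1 hH hGd hL hexp hCΛ hdl hdlΛ hPs hgood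
  have hC1 : C₁ ≤ max C₁ C₂ := le_max_left _ _
  have hC2 : C₂ ≤ Λ := (le_max_right _ _).trans hCΛ
  have hΛ1 : 1 ≤ Λ := hC₂1.trans hC2
  have hΛ0 : 0 < Λ := by linarith
  have hlog : C₁ * (θ + 1) / η ≤ max C₁ C₂ * (θ + 1) / η := by
    refine div_le_div_of_nonneg_right ?_ hη.le
    exact mul_le_mul_of_nonneg_right hC1 (by linarith)
  have hexp' : Real.exp (C₁ * (θ + 1) / η) ≤ Λ := (Real.exp_le_exp.2 hlog).trans hexp
  -- the vectors
  have hch : ∀ x : Γ, ∃ s : {α // α ∈ mx k D} → ℝ, ¬ Inj a (P x) (t x) (Λ⁻¹ ^ 2) →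
      (∀ α, |s α| ≤ 1) ∧ (∃ α, |s α| = 1) ∧
      ∀ l γ, |(P x *ᵥ (Am a (t x) l *ᵥ s)) γ| ≤ Λ⁻¹ ^ 2 * M := by
    intro x
    by_cases h : Inj a (P x) (t x) (Λ⁻¹ ^ 2)
    · exact ⟨0, fun h' => absurd h h'⟩
    · obtain ⟨s, hs⟩ := not_inj a (P x) (t x) (Λ⁻¹ ^ 2) (by positivity) h
      exact ⟨s, fun _ => hs⟩
  choose s hs using hch
  set Q : Γ → Pl k := fun x => if Inj a (P x) (t x) (Λ⁻¹ ^ 2) then 0 else Sp (s x) with hQ
  have hQdeg : ∀ x, (Q x).totalDegree ≤ k * D := by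
    intro x
    simp only [hQ]
    split_ifs
    · rw [MvPolynomial.totalDegree_zero]; exact Nat.zero_le _
    · exact Sp_deg _
  set S₀ : ℝ := (N * M * Cv + 1) * Λ⁻¹ ^ 2 with hS₀
  have hS₀0 : 0 < S₀ := by positivity
  have key : ∀ l : Fin k, Pb p (fun ω => ¬ ∀ y : Fin k → ℝ, (∀ i, |y i| ≤ C₀) →
      |MvPolynomial.eval y (MvPolynomial.pderiv l (Q (c ω)))| ≤
        Real.exp (C₁ * (θ + 1) / η) * S₀) ≤ η := by
    intro l
    refine hren Ω Γ p L Y c (fun x => MvPolynomial.pderiv l (Q x)) Gd (fun _ => S₀) θ η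
      hp hY (fun x => td_pd (hQdeg x) l) hθ hη hη1 hH hGd (fun _ => hS₀0) (hlog.trans hL) ?_
    intro ω hω
    obtain ⟨hβ, ht, hy, hmv⟩ := hgood ω hω
    refine ⟨pos (β ω) (t (c ω)), hy, ?_⟩
    by_cases hI : Inj a (P (c ω)) (t (c ω)) (Λ⁻¹ ^ 2)
    · simp only [hQ]
      rw [if_pos hI, map_zero, map_zero, abs_zero]
      exact hS₀0.le
    · simp only [hQ]
      rw [if_neg hI]
      obtain ⟨hs1, hs2, hs3⟩ := hs (c ω) hI
      set u := Am a (t (c ω)) l *ᵥ s (c ω) with hu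
      set x := mv NN (β ω) with hx
      have h1 : MvPolynomial.eval (pos (β ω) (t (c ω))) (MvPolynomial.pderiv l (Sp (s (c ω)))) =
          u ⬝ᵥ x := by
        rw [ha (Sp (s (c ω))) (Sp_bx _) (t (c ω)) (β ω) l]
        have h2 : u = Am a (t (c ω)) l *ᵥ sv D (Sp (s (c ω))) := by rw [sv_Sp]
        rw [h2]
        rfl
      have h2 : u ⬝ᵥ x = (P (c ω) *ᵥ u) ⬝ᵥ x + u ⬝ᵥ (fun γ => x γ - (P (c ω) *ᵥ x) γ) := by
        rw [hPs]
        have : (fun γ => x γ - (P (c ω) *ᵥ x) γ) = x - P (c ω) *ᵥ x := rfl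
        rw [this, dotProduct_sub]
        ring
      have h3 : |(P (c ω) *ᵥ u) ⬝ᵥ x| ≤ N * (Λ⁻¹ ^ 2 * M) * Cv :=
        abs_dot_le (by positivity) (hs3 l) (hCv (β ω) hβ)
      have h4 : |u ⬝ᵥ (fun γ => x γ - (P (c ω) *ᵥ x) γ)| ≤ N * (M * (b * 1)) * dl :=
        abs_dot_le (by positivity) (fun γ => Am_bound a (by linarith) hab ht _ hs1 l γ) hmv
      rw [h1, h2]
      refine (abs_add_le _ _).trans ((add_le_add h3 h4).trans ?_)
      have h5 : N * (M * (b * 1)) * dl ≤ Λ⁻¹ ^ 2 := by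
        have h6 : N * M * b ≤ Λ := by
          have : 0 ≤ (Cc + 1) * (N * M * Cv + 1) := by positivity
          linarith
        have h7 : dl * Λ ≤ Λ⁻¹ ^ 2 := by
          rw [inv_pow, ← one_div, le_div_iff₀ (by positivity)]
          calc dl * Λ * Λ ^ 2 = dl * Λ ^ 3 := by ring
            _ ≤ 1 := hdlΛ
        calc N * (M * (b * 1)) * dl = (N * M * b) * dl := by ring
          _ ≤ Λ * dl := mul_le_mul_of_nonneg_right h6 hdl
          _ = dl * Λ := mul_comm _ _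
          _ ≤ _ := h7
      rw [hS₀]
      calc N * (Λ⁻¹ ^ 2 * M) * Cv + N * (M * (b * 1)) * dl ≤
            N * (Λ⁻¹ ^ 2 * M) * Cv + Λ⁻¹ ^ 2 := by linarith
        _ = _ := by ring
  have hfin : Pb p (fun ω => Gd ω ∧ ¬ Inj a (P (c ω)) (t (c ω)) (Λ⁻¹ ^ 2)) ≤
      Pb p (fun ω => ∃ l : Fin k, ¬ ∀ y : Fin k → ℝ, (∀ i, |y i| ≤ C₀) →
      |MvPolynomial.eval y (MvPolynomial.pderiv l (Q (c ω)))| ≤
        Real.exp (C₁ * (θ + 1) / η) * S₀) := by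
    refine Pb_mono hp.nonneg fun ω hω => ?_
    obtain ⟨hGω, hI⟩ := hω
    by_contra hcon
    push Not at hcon
    obtain ⟨hs1, ⟨α₀, hα₀⟩, hs3⟩ := hs (c ω) hI
    have hQω : Q (c ω) = Sp (s (c ω)) := by
      simp only [hQ]
      rw [if_neg hI]
    have hα₀m := α₀.2
    unfold mx at hα₀m
    have hne : α₀.1 ≠ 0 := (Finset.mem_erase.mp hα₀m).1
    obtain ⟨l, hl⟩ : ∃ l, α₀.1 l ≠ 0 := by
      by_contra hall
      push Not at hall
      exact hne (Finsupp.ext hall)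
    have h1 : ∀ y : Fin k → ℝ, (∀ i, |y i| ≤ 1) →
        |MvPolynomial.eval y (MvPolynomial.pderiv l (Sp (s (c ω))))| ≤ Λ * S₀ := by
      intro y hy
      have h2 := hcon l y (fun i => (hy i).trans hC₀)
      rw [hQω] at h2
      exact h2.trans (mul_le_mul_of_nonneg_right hexp' hS₀0.le)
    have h2 := hCc (MvPolynomial.pderiv l (Sp (s (c ω)))) (Λ * S₀) (td_pd (Sp_deg _) l) h1
      (α₀.1 - Finsupp.single l 1)
    rw [MvPolynomial.coeff_pderiv] at h2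
    have h3 : α₀.1 - Finsupp.single l 1 + Finsupp.single l 1 = α₀.1 := by
      refine tsub_add_cancel_of_le ?_
      rw [Finsupp.single_le_iff]
      omega
    rw [h3, coeff_Sp, abs_mul, hα₀, one_mul] at h2
    have h4 : (1 : ℝ) ≤ |(((α₀.1 - Finsupp.single l 1 : Fin k →₀ ℕ) l : ℕ) : ℝ) + 1| := by
      rw [abs_of_nonneg (by positivity)]
      have : (0 : ℝ) ≤ (((α₀.1 - Finsupp.single l 1 : Fin k →₀ ℕ) l : ℕ) : ℝ) := by positivity
      linarith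
    have h5 : Cc * (Λ * S₀) < 1 := by
      rw [hS₀]
      have h6 : Cc * (Λ * ((N * M * Cv + 1) * Λ⁻¹ ^ 2)) = Cc * (N * M * Cv + 1) / Λ := by
        field_simp
      rw [h6, div_lt_one hΛ0]
      have h7 : (Cc + 1) * (N * M * Cv + 1) = Cc * (N * M * Cv + 1) + (N * M * Cv + 1) := by ring
      linarith
    linarith
  refine hfin.trans ((Pb_ex hp.nonneg _).trans ?_)
  refine (Finset.sum_le_sum fun l _ => key l).trans (le_of_eq ?_)
  rw [Finset.sum_const, Finset.card_univ, Fintype.card_fin, nsmul_eq_mul]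

end

end Pool.LBL
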