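import Pool.Agent.H50.LBL.Stm

/-!
LEMMA B, linear form: preparations (rank step, Lagrange part, injectivity by entropic Remez).
-/

set_option autoImplicit false

namespace Pool.LBL

open Finset Polynomial Matrix
open Pool.Agent.H49.Ent Pool.Agent.H32.Dense Pool.STK Pool.KS3 Pool.BFL Pool.GNB

theorem rank_step {Ω : Type} [Fintype Ω] (p : Ω → ℝ) (hp : IsLaw p) (R n : ℕ) (hR : 0 < R)
    (f : ℕ → Ω → ℕ) (hmono : ∀ r ω, f r ω ≤ f (r + 1) ω) (hle : ∀ r ω, f r ω ≤ n) :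
    ∃ r < R, Pb p (fun ω => f r ω < f (r + 1) ω) ≤ (n : ℝ) / R := by
  classical
  by_contra hcon
  push Not at hcon
  have h1 : ∑ r ∈ Finset.range R, (n : ℝ) / R <
      ∑ r ∈ Finset.range R, Pb p (fun ω => f r ω < f (r + 1) ω) :=
    Finset.sum_lt_sum_of_nonempty (Finset.nonempty_range_iff.mpr hR.ne')
      fun r hr => hcon r (Finset.mem_range.mp hr)
  have hR0 : (0 : ℝ) < R := by exact_mod_cast hR
  rw [Finset.sum_const, Finset.card_range, nsmul_eq_mul, mul_div_cancel₀ _ hR0.ne'] at h1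
  have h2 : ∑ r ∈ Finset.range R, Pb p (fun ω => f r ω < f (r + 1) ω) ≤
      ∑ ω, p ω * n := by
    unfold Pb
    rw [Finset.sum_comm]
    refine Finset.sum_le_sum fun ω _ => ?_
    refine le_trans (Finset.sum_le_sum (g := fun r => p ω * ((f (r + 1) ω : ℝ) - f r ω)) ?_) ?_
    · intro r _
      have hm := hmono r ω
      have hm' : (f r ω : ℝ) ≤ f (r + 1) ω := by exact_mod_cast hm
      split_ifs with h
      · have : (f r ω : ℝ) + 1 ≤ f (r + 1) ω := by exact_mod_cast h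
        have h0 := hp.nonneg ω
        nlinarith
      · exact mul_nonneg (hp.nonneg ω) (by linarith)
    rw [← Finset.mul_sum, Finset.sum_range_sub (fun r => (f r ω : ℝ))]
    refine mul_le_mul_of_nonneg_left ?_ (hp.nonneg ω)
    have h4 : (f R ω : ℝ) ≤ n := by exact_mod_cast hle R ω
    have h5 : (0 : ℝ) ≤ f 0 ω := by positivity
    linarith
  rw [← Finset.sum_mul, hp.sum_one, one_mul] at h2
  linarith

theorem basis_l1 {n : ℕ} {v : Fin n → ℝ} {Λ : ℝ} (hΛ : 1 ≤ Λ) (hv : ∀ i, |v i| ≤ 1)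
    (hs : ∀ i j, i ≠ j → 1 ≤ Λ * |v i - v j|) (j : Fin n) :
    l1 (Lagrange.basis Finset.univ v j) ≤ (2 * Λ) ^ n := by
  unfold Lagrange.basis
  have h1 : ∀ i ∈ univ.erase j, l1 (Lagrange.basisDivisor (v j) (v i)) ≤ 2 * Λ := by
    intro i hi
    have hne := Finset.ne_of_mem_erase hi
    unfold Lagrange.basisDivisor
    have h2 : l1 (C (v j - v i)⁻¹) ≤ Λ := by
      rw [l1_C, abs_inv]
      have h3 := hs j i hne.symm
      have h4 : 0 < |v j - v i| := by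
        by_contra hneg
        push Not at hneg
        have : Λ * |v j - v i| ≤ 0 := mul_nonpos_of_nonneg_of_nonpos (by linarith) hneg
        linarith
      rw [inv_le_iff_one_le_mul₀ h4]; exact h3
    have h3 : l1 (X - C (v i)) ≤ 2 := by
      refine (l1_sub _ _).trans ?_
      have h5 : l1 (X : ℝ[X]) ≤ 1 := by
        rw [← monomial_one_one_eq_X, l1_monomial, abs_one]
      have h6 := hv i
      rw [l1_C]; linarith
    have := l1_mul_le h2 h3
    linarith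
  refine (l1_prod _ _ (2 * Λ) (by linarith) h1).trans ?_
  refine pow_le_pow_right₀ (by linarith) ?_
  refine (Finset.card_le_univ _).trans ?_
  simp

theorem basis_deg {n : ℕ} (v : Fin n → ℝ) (j : Fin n) :
    (Lagrange.basis Finset.univ v j).natDegree ≤ n := by
  unfold Lagrange.basis
  refine (Polynomial.natDegree_prod_le _ _).trans ?_
  have h1 : ∀ i ∈ univ.erase j, (Lagrange.basisDivisor (v j) (v i)).natDegree ≤ 1 := by
    intro i _
    unfold Lagrange.basisDivisor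
    refine Polynomial.natDegree_mul_le.trans ?_
    rw [Polynomial.natDegree_C, zero_add]
    exact Polynomial.natDegree_X_sub_C_le _
  refine (Finset.sum_le_sum h1).trans ?_
  rw [Finset.sum_const, smul_eq_mul, mul_one]
  refine (Finset.card_le_univ _).trans ?_
  simp

section

variable {k n D E : ℕ} {NN : Finset ((Fin k × Fin (E + 1)) →₀ ℕ)}

/-- The universal formula for the gradient along the path. -/
def HU (a : Fin k → {γ // γ ∈ NN} → {α // α ∈ mx k D} → ℝ[X]) : Prop :=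
  ∀ (S : Pl k), (∀ α, MvPolynomial.coeff α S ≠ 0 → α ∈ Pool.Agent.H36.KBX.bx k D) →
    ∀ (T : ℝ) (β : Fin k → Fin (E + 1) → ℝ) (l : Fin k),
    MvPolynomial.eval (pos β T) (MvPolynomial.pderiv l S) =
      ∑ γ : {γ // γ ∈ NN}, (∑ α : {α // α ∈ mx k D},
        (a l γ α).eval T * MvPolynomial.coeff α.1 S) * mon β γ.1

theorem bx_deg {S : Pl k} (hS : S.totalDegree ≤ D) (α : Fin k →₀ ℕ)
    (hα : MvPolynomial.coeff α S ≠ 0) : α ∈ Pool.Agent.H36.KBX.bx k D :=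
  Pool.Agent.H36.KBX.support_bx S hS (MvPolynomial.mem_support_iff.mpr hα)

/-- The coefficient vector. -/
noncomputable def sv (D : ℕ) (S : Pl k) : {α // α ∈ mx k D} → ℝ :=
  fun α => MvPolynomial.coeff α.1 S

/-- The part of the nodes. -/
noncomputable def psi (a : Fin k → {γ // γ ∈ NN} → {α // α ∈ mx k D} → ℝ[X])
    (v : Fin n → ℝ) (S' : Fin n → Pl k) (l : Fin k) (γ : {γ // γ ∈ NN}) : ℝ[X] :=
  ∑ j, Lagrange.basis Finset.univ v j * C ((Am a (v j) l *ᵥ sv D (S' j)) γ)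

/-- The functional of a sample. -/
noncomputable def uu (a : Fin k → {γ // γ ∈ NN} → {α // α ∈ mx k D} → ℝ[X])
    (v : Fin n → ℝ) (S' : Fin n → Pl k) (T : ℝ) (S : Pl k) (l : Fin k) : {γ // γ ∈ NN} → ℝ :=
  Am a T l *ᵥ sv D S - fun γ => (psi a v S' l γ).eval T

/-- The monomials of the line data. -/
noncomputable def mv (NN : Finset ((Fin k × Fin (E + 1)) →₀ ℕ)) (β : Fin k → Fin (E + 1) → ℝ) :
    {γ // γ ∈ NN} → ℝ := fun γ => mon β γ.1

theorem dot_uu (a : Fin k → {γ // γ ∈ NN} → {α // α ∈ mx k D} → ℝ[X])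
    (ha : HU a)
    (v : Fin n → ℝ) (S' : Fin n → Pl k) (hS' : ∀ j, (S' j).totalDegree ≤ D) (T : ℝ) (S : Pl k)
    (hS : S.totalDegree ≤ D) (l : Fin k) (β : Fin k → Fin (E + 1) → ℝ) :
    uu a v S' T S l ⬝ᵥ mv NN β = MvPolynomial.eval (pos β T) (MvPolynomial.pderiv l S) -
      ∑ j, lw v j T * MvPolynomial.eval (pos β (v j)) (MvPolynomial.pderiv l (S' j)) := by
  have h0 : ∀ (S : Pl k), S.totalDegree ≤ D → ∀ T, (Am a T l *ᵥ sv D S) ⬝ᵥ mv NN β =
      MvPolynomial.eval (pos β T) (MvPolynomial.pderiv l S) := by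
    intro S hS T
    rw [ha S (fun α => bx_deg hS α) T β l]
    rfl
  unfold uu
  rw [sub_dotProduct, h0 S hS T]
  congr 1
  have h1 : (fun γ => (psi a v S' l γ).eval T) = ∑ j, lw v j T • (Am a (v j) l *ᵥ sv D (S' j)) := by
    funext γ
    unfold psi lw
    rw [Polynomial.eval_finsetSum, Finset.sum_apply]
    refine Finset.sum_congr rfl fun j _ => ?_
    rw [Polynomial.eval_mul, Polynomial.eval_C, Pi.smul_apply, smul_eq_mul]
  rw [h1, sum_dotProduct]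
  refine Finset.sum_congr rfl fun j _ => ?_
  rw [smul_dotProduct, smul_eq_mul, h0 (S' j) (hS' j) (v j)]

theorem Am_bound (a : Fin k → {γ // γ ∈ NN} → {α // α ∈ mx k D} → ℝ[X]) {b Λ : ℝ} (hb : 0 ≤ b)
    (hab : ∀ l γ α, l1 (a l γ α) ≤ b) {T : ℝ} (hT : |T| ≤ 1) (s : {α // α ∈ mx k D} → ℝ)
    (hs : ∀ α, |s α| ≤ Λ) (l : Fin k) (γ : {γ // γ ∈ NN}) :
    |(Am a T l *ᵥ s) γ| ≤ (mx k D).card * (b * Λ) := by
  show |∑ α, Am a T l γ α * s α| ≤ _
  refine (Finset.abs_sum_le_sum_abs _ _).trans ?_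
  have h1 : ∀ α ∈ (Finset.univ : Finset {α // α ∈ mx k D}), |Am a T l γ α * s α| ≤ b * Λ := by
    intro α _
    rw [abs_mul]
    exact mul_le_mul ((eval_l1 _ hT).trans (hab l γ α)) (hs α) (abs_nonneg _) hb
  refine (Finset.sum_le_sum h1).trans (le_of_eq ?_)
  rw [Finset.sum_const, Finset.card_univ, Fintype.card_coe, nsmul_eq_mul]

theorem psi_l1 (a : Fin k → {γ // γ ∈ NN} → {α // α ∈ mx k D} → ℝ[X]) {b Λ : ℝ} (hb : 0 ≤ b)
    (hΛ : 1 ≤ Λ)
    (hab : ∀ l γ α, l1 (a l γ α) ≤ b) {v : Fin n → ℝ} (hv : ∀ i, |v i| ≤ 1)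
    (hs : ∀ i j, i ≠ j → 1 ≤ Λ * |v i - v j|) {S' : Fin n → Pl k}
    (hS' : ∀ j α, |MvPolynomial.coeff α (S' j)| ≤ Λ) (l : Fin k) (γ : {γ // γ ∈ NN}) :
    l1 (psi a v S' l γ) ≤ n * ((2 * Λ) ^ n * ((mx k D).card * (b * Λ))) := by
  unfold psi
  refine (l1_sum_le _ _ ((2 * Λ) ^ n * ((mx k D).card * (b * Λ))) ?_).trans (le_of_eq ?_)
  · intro j _
    refine l1_mul_le (basis_l1 hΛ hv hs j) ?_
    rw [l1_C]
    exact Am_bound a hb hab (hv j) _ (fun α => hS' j α.1) l γ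
  · rw [Finset.card_univ, Fintype.card_fin]

theorem psi_deg (a : Fin k → {γ // γ ∈ NN} → {α // α ∈ mx k D} → ℝ[X]) (v : Fin n → ℝ)
    (S' : Fin n → Pl k) (l : Fin k) (γ : {γ // γ ∈ NN}) : (psi a v S' l γ).natDegree ≤ n := by
  unfold psi
  refine Polynomial.natDegree_sum_le_of_forall_le _ _ fun j _ => ?_
  refine Polynomial.natDegree_mul_le.trans ?_
  rw [Polynomial.natDegree_C, add_zero]
  exact basis_deg v j

theorem uu_bound (a : Fin k → {γ // γ ∈ NN} → {α // α ∈ mx k D} → ℝ[X]) {b Λ : ℝ} (hb : 0 ≤ b)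
    (hΛ : 1 ≤ Λ)
    (hab : ∀ l γ α, l1 (a l γ α) ≤ b) {v : Fin n → ℝ} (hv : ∀ i, |v i| ≤ 1)
    (hs : ∀ i j, i ≠ j → 1 ≤ Λ * |v i - v j|) {S' : Fin n → Pl k}
    (hS' : ∀ j α, |MvPolynomial.coeff α (S' j)| ≤ Λ) {T : ℝ} (hT : |T| ≤ 1) {S : Pl k}
    (hS : ∀ α, |MvPolynomial.coeff α S| ≤ Λ) (l : Fin k) (γ : {γ // γ ∈ NN}) :
    |uu a v S' T S l γ| ≤ (1 + n * (2 * Λ) ^ n) * ((mx k D).card * (b * Λ)) := by
  unfold uu
  rw [Pi.sub_apply]
  refine (abs_sub _ _).trans ?_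
  have h1 := Am_bound a hb hab hT (sv D S) (fun α => hS α.1) l γ
  have h2 := (eval_l1 (psi a v S' l γ) hT).trans (psi_l1 a hb hΛ hab hv hs hS' l γ)
  calc _ ≤ (mx k D).card * (b * Λ) + n * ((2 * Λ) ^ n * ((mx k D).card * (b * Λ))) :=
        add_le_add h1 h2
    _ = _ := by ring

theorem uu_small (a : Fin k → {γ // γ ∈ NN} → {α // α ∈ mx k D} → ℝ[X])
    (ha : HU a)
    {Λ τ : ℝ} (hΛ : 1 ≤ Λ) (hτ : 0 ≤ τ) {v : Fin n → ℝ} (hv : ∀ i, |v i| ≤ 1)
    (hs : ∀ i j, i ≠ j → 1 ≤ Λ * |v i - v j|) {S' : Fin n → Pl k}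
    (hS' : ∀ j, (S' j).totalDegree ≤ D) {T : ℝ} (hT : |T| ≤ 1) {S : Pl k}
    (hS : S.totalDegree ≤ D) (l : Fin k) (β : Fin k → Fin (E + 1) → ℝ) (q : ℝ[X])
    (hq : q.degree < n)
    (h1 : |MvPolynomial.eval (pos β T) (MvPolynomial.pderiv l S) - q.eval T| ≤ τ)
    (h2 : ∀ j, |MvPolynomial.eval (pos β (v j)) (MvPolynomial.pderiv l (S' j)) -
      q.eval (v j)| ≤ τ) :
    |uu a v S' T S l ⬝ᵥ mv NN β| ≤ (1 + n * (2 * Λ) ^ n) * τ := by
  rw [dot_uu a ha v S' hS' T S hS l β]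
  have hΛ0 : 0 < Λ := by linarith
  have hsep : ∀ i j, i ≠ j → Λ⁻¹ ≤ |v i - v j| := by
    intro i j hij
    rw [inv_le_iff_one_le_mul₀ hΛ0, mul_comm]
    exact hs i j hij
  have hinj : Function.Injective v := by
    intro i j hij
    by_contra hne
    have h3 := hs i j hne
    rw [hij, sub_self, abs_zero, mul_zero] at h3
    linarith
  have h3 := lw_sum hinj hq T
  set a₀ := MvPolynomial.eval (pos β T) (MvPolynomial.pderiv l S) with ha₀
  set a' : Fin n → ℝ := fun j => MvPolynomial.eval (pos β (v j)) (MvPolynomial.pderiv l (S' j))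
    with ha'
  have h4 : a₀ - ∑ j, lw v j T * a' j = (a₀ - q.eval T) -
      ∑ j, lw v j T * (a' j - q.eval (v j)) := by
    simp only [mul_sub, Finset.sum_sub_distrib]
    rw [h3]
    ring
  have h5 : |∑ j, lw v j T * (a' j - q.eval (v j))| ≤ n * ((2 * Λ) ^ n * τ) := by
    refine (Finset.abs_sum_le_sum_abs _ _).trans ?_
    have h6 : ∀ j ∈ (Finset.univ : Finset (Fin n)),
        |lw v j T * (a' j - q.eval (v j))| ≤ (2 * Λ) ^ n * τ := by
      intro j _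
      rw [abs_mul]
      refine mul_le_mul ?_ (h2 j) (abs_nonneg _) (by positivity)
      have h7 := lw_bound (inv_pos.mpr hΛ0) (inv_le_one_of_one_le₀ hΛ) hT hv hsep j
      rw [div_inv_eq_mul] at h7
      exact h7
    refine (Finset.sum_le_sum h6).trans (le_of_eq ?_)
    rw [Finset.sum_const, Finset.card_univ, Fintype.card_fin, nsmul_eq_mul]
  rw [h4]
  refine (abs_sub _ _).trans ?_
  calc |a₀ - q.eval T| + |∑ j, lw v j T * (a' j - q.eval (v j))| ≤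
        τ + n * ((2 * Λ) ^ n * τ) := add_le_add h1 h5
    _ = _ := by ring

theorem mon_bound {C₀ : ℝ} (hC₀ : 1 ≤ C₀) (NN : Finset ((Fin k × Fin (E + 1)) →₀ ℕ)) :
    ∃ Cv : ℝ, 1 ≤ Cv ∧ ∀ β : Fin k → Fin (E + 1) → ℝ, (∀ i e, |β i e| ≤ C₀) →
      ∀ γ : {γ // γ ∈ NN}, |mv NN β γ| ≤ Cv := by
  refine ⟨1 + ∑ γ ∈ NN, C₀ ^ (γ.sum fun _ d => d), ?_, ?_⟩
  · have : 0 ≤ ∑ γ ∈ NN, C₀ ^ (γ.sum fun _ d => d) :=
      Finset.sum_nonneg fun _ _ => by positivity
    linarith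
  · intro β hβ γ
    have h1 : |mv NN β γ| ≤ C₀ ^ (γ.1.sum fun _ d => d) := by
      unfold mv mon
      rw [Finsupp.prod, Finset.abs_prod, Finsupp.sum, ← Finset.prod_pow_eq_pow_sum]
      refine Finset.prod_le_prod (fun _ _ => abs_nonneg _) fun q _ => ?_
      rw [abs_pow]
      exact pow_le_pow_left₀ (abs_nonneg _) (hβ _ _) _
    have h2 : C₀ ^ (γ.1.sum fun _ d => d) ≤ ∑ γ ∈ NN, C₀ ^ (γ.sum fun _ d => d) :=
      Finset.single_le_sum (f := fun γ : (Fin k × Fin (E + 1)) →₀ ℕ =>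
        C₀ ^ (γ.sum fun _ d => d)) (fun _ _ => by positivity) γ.2
    linarith

end

end Pool.LBL
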