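import Pool.Agent.H50.LBL.Pl1
import Pool.Agent.H50.LBL.Prj

/-!
The rational part: a vector `s` with `Pi (A(T) s - psi(T))` small, where `Pi A(T)` is injective, is
near a polynomial in `T` on a small cell.
-/

set_option autoImplicit false

namespace Pool.LBL

open Finset Polynomial Matrix

variable {k : ℕ} {N m : Type*} [Fintype N] [DecidableEq N] [Fintype m] [DecidableEq m]

/-- The Gram matrix, with polynomial entries. -/
noncomputable def Gm (a : Fin k → N → m → ℝ[X]) (P : Matrix N N ℝ) : Matrix m m ℝ[X] :=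
  fun α α' => ∑ l, ∑ γ, ∑ γ', a l γ α * C (P γ γ') * a l γ' α'

/-- The right side. -/
noncomputable def gm (a : Fin k → N → m → ℝ[X]) (P : Matrix N N ℝ) (ψ : Fin k → N → ℝ[X]) :
    m → ℝ[X] := fun α => ∑ l, ∑ γ, ∑ γ', a l γ α * C (P γ γ') * ψ l γ'

/-- The value of the matrices. -/
noncomputable def Am (a : Fin k → N → m → ℝ[X]) (T : ℝ) (l : Fin k) : Matrix N m ℝ :=
  fun γ α => (a l γ α).eval T

/-- The value of the Gram matrix. -/
noncomputable def Gr (a : Fin k → N → m → ℝ[X]) (P : Matrix N N ℝ) (T : ℝ) : Matrix m m ℝ :=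
  fun α α' => (Gm a P α α').eval T

theorem Gr_eq (a : Fin k → N → m → ℝ[X]) (P : Matrix N N ℝ) (T : ℝ) :
    Gr a P T = ∑ l, (Am a T l)ᵀ * P * Am a T l := by
  ext α α'
  rw [Matrix.sum_apply]
  unfold Gr Gm
  rw [Polynomial.eval_finsetSum]
  refine Finset.sum_congr rfl fun l _ => ?_
  rw [Polynomial.eval_finsetSum, Matrix.mul_apply]
  have h1 : ∀ γ', ((Am a T l)ᵀ * P) α γ' * Am a T l γ' α' =
      ∑ γ, (a l γ α).eval T * P γ γ' * (a l γ' α').eval T := by
    intro γ'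
    rw [Matrix.mul_apply, Finset.sum_mul]
    rfl
  simp only [h1]
  rw [Finset.sum_comm]
  refine Finset.sum_congr rfl fun γ _ => ?_
  rw [Polynomial.eval_finsetSum]
  refine Finset.sum_congr rfl fun γ' _ => ?_
  simp

theorem Gr_symm (a : Fin k → N → m → ℝ[X]) {P : Matrix N N ℝ} (hP : Pᵀ = P) (T : ℝ) :
    (Gr a P T).IsSymm := by
  unfold Matrix.IsSymm
  rw [Gr_eq, Matrix.transpose_sum]
  refine Finset.sum_congr rfl fun l _ => ?_
  rw [Matrix.transpose_mul, Matrix.transpose_mul, Matrix.transpose_transpose, hP, Matrix.mul_assoc]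

theorem Gr_quad (a : Fin k → N → m → ℝ[X]) {P : Matrix N N ℝ} (hP : Pᵀ = P) (hPP : P * P = P)
    (T : ℝ) (x : m → ℝ) : x ⬝ᵥ (Gr a P T *ᵥ x) =
      ∑ l, (P *ᵥ (Am a T l *ᵥ x)) ⬝ᵥ (P *ᵥ (Am a T l *ᵥ x)) := by
  rw [Gr_eq, Matrix.sum_mulVec, dotProduct_sum]
  refine Finset.sum_congr rfl fun l _ => ?_
  rw [← Matrix.mulVec_mulVec, ← Matrix.mulVec_mulVec, Matrix.dotProduct_mulVec,
    Matrix.vecMul_transpose]
  have h1 : (P *ᵥ (Am a T l *ᵥ x)) ⬝ᵥ (P *ᵥ (Am a T l *ᵥ x)) =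
      (Am a T l *ᵥ x) ⬝ᵥ (P *ᵥ (Am a T l *ᵥ x)) := by
    rw [Matrix.dotProduct_mulVec, ← Matrix.mulVec_transpose, hP, Matrix.mulVec_mulVec, hPP,
      dotProduct_comm]
  rw [h1]

theorem res_eq (a : Fin k → N → m → ℝ[X]) (P : Matrix N N ℝ) (ψ : Fin k → N → ℝ[X])
    (T : ℝ) (s : m → ℝ) (α : m) :
    (Gr a P T *ᵥ s) α - (gm a P ψ α).eval T =
      ∑ l, ∑ γ, Am a T l γ α * (P *ᵥ (Am a T l *ᵥ s - fun γ => (ψ l γ).eval T)) γ := by
  rw [Gr_eq, Matrix.sum_mulVec, Finset.sum_apply]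
  unfold gm
  rw [Polynomial.eval_finsetSum, ← Finset.sum_sub_distrib]
  refine Finset.sum_congr rfl fun l _ => ?_
  rw [← Matrix.mulVec_mulVec, ← Matrix.mulVec_mulVec, Matrix.mulVec_sub]
  have h1 : ((Am a T l)ᵀ *ᵥ (P *ᵥ (Am a T l *ᵥ s))) α =
      ∑ γ, Am a T l γ α * (P *ᵥ (Am a T l *ᵥ s)) γ := rfl
  have h2 : (∑ γ, ∑ γ', a l γ α * C (P γ γ') * ψ l γ').eval T =
      ∑ γ, Am a T l γ α * (P *ᵥ fun γ => (ψ l γ).eval T) γ := by
    rw [Polynomial.eval_finsetSum]
    refine Finset.sum_congr rfl fun γ _ => ?_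
    rw [Polynomial.eval_finsetSum]
    show _ = (a l γ α).eval T * ∑ γ', P γ γ' * (ψ l γ').eval T
    rw [Finset.mul_sum]
    refine Finset.sum_congr rfl fun γ' _ => ?_
    simp [mul_assoc]
  rw [h1, h2, ← Finset.sum_sub_distrib]
  refine Finset.sum_congr rfl fun γ _ => ?_
  rw [Pi.sub_apply]
  ring

/-- Bounds for the entries of the Gram matrix. -/
theorem Gm_l1 {a : Fin k → N → m → ℝ[X]} {b : ℝ} (hb : 1 ≤ b) (ha : ∀ l γ α, l1 (a l γ α) ≤ b)
    {P : Matrix N N ℝ} (hP : ∀ i j, |P i j| ≤ 1) (α α' : m) :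
    l1 (Gm a P α α') ≤ 1 + k * (Fintype.card N) ^ 2 * b ^ 2 := by
  unfold Gm
  have h1 : ∀ l ∈ (Finset.univ : Finset (Fin k)),
      l1 (∑ γ, ∑ γ', a l γ α * C (P γ γ') * a l γ' α') ≤ (Fintype.card N) ^ 2 * b ^ 2 := by
    intro l _
    have h2 : ∀ γ ∈ (Finset.univ : Finset N),
        l1 (∑ γ', a l γ α * C (P γ γ') * a l γ' α') ≤ (Fintype.card N) * b ^ 2 := by
      intro γ _
      refine (l1_sum_le _ _ (b ^ 2) ?_).trans (le_of_eq (by rw [Finset.card_univ]))
      intro γ' _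
      have h3 : l1 (C (P γ γ')) ≤ 1 := by rw [l1_C]; exact hP _ _
      have h4 := l1_mul_le (l1_mul_le (ha l γ α) h3) (ha l γ' α')
      rw [mul_one] at h4
      rw [sq]; exact h4
    refine (l1_sum_le _ _ _ h2).trans (le_of_eq ?_)
    rw [Finset.card_univ]; ring
  refine (l1_sum_le _ _ _ h1).trans ?_
  rw [Finset.card_univ, Fintype.card_fin]
  nlinarith

theorem Gm_deg {a : Fin k → N → m → ℝ[X]} {e : ℕ} (ha : ∀ l γ α, (a l γ α).natDegree ≤ e)
    (P : Matrix N N ℝ) (α α' : m) : (Gm a P α α').natDegree ≤ 2 * e := by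
  unfold Gm
  refine Polynomial.natDegree_sum_le_of_forall_le _ _ fun l _ => ?_
  refine Polynomial.natDegree_sum_le_of_forall_le _ _ fun γ _ => ?_
  refine Polynomial.natDegree_sum_le_of_forall_le _ _ fun γ' _ => ?_
  refine Polynomial.natDegree_mul_le.trans ?_
  have h1 : (a l γ α * C (P γ γ')).natDegree ≤ e := by
    refine Polynomial.natDegree_mul_le.trans ?_
    rw [Polynomial.natDegree_C, add_zero]; exact ha _ _ _
  have h2 := ha l γ' α'
  omega

theorem gm_l1 {a : Fin k → N → m → ℝ[X]} {b : ℝ} (hb : 1 ≤ b) (ha : ∀ l γ α, l1 (a l γ α) ≤ b)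
    {P : Matrix N N ℝ} (hP : ∀ i j, |P i j| ≤ 1) {ψ : Fin k → N → ℝ[X]} {B : ℝ}
    (hψ : ∀ l γ, l1 (ψ l γ) ≤ B) (α : m) :
    l1 (gm a P ψ α) ≤ k * (Fintype.card N) ^ 2 * (b * B) := by
  unfold gm
  have h1 : ∀ l ∈ (Finset.univ : Finset (Fin k)),
      l1 (∑ γ, ∑ γ', a l γ α * C (P γ γ') * ψ l γ') ≤ (Fintype.card N) ^ 2 * (b * B) := by
    intro l _
    have h2 : ∀ γ ∈ (Finset.univ : Finset N),
        l1 (∑ γ', a l γ α * C (P γ γ') * ψ l γ') ≤ (Fintype.card N) * (b * B) := by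
      intro γ _
      refine (l1_sum_le _ _ (b * B) ?_).trans (le_of_eq (by rw [Finset.card_univ]))
      intro γ' _
      have h3 : l1 (C (P γ γ')) ≤ 1 := by rw [l1_C]; exact hP _ _
      have h4 := l1_mul_le (l1_mul_le (ha l γ α) h3) (hψ l γ')
      rwa [mul_one] at h4
    refine (l1_sum_le _ _ _ h2).trans (le_of_eq ?_)
    rw [Finset.card_univ]; ring
  refine (l1_sum_le _ _ _ h1).trans (le_of_eq ?_)
  rw [Finset.card_univ, Fintype.card_fin]; ring

theorem gm_deg {a : Fin k → N → m → ℝ[X]} {e e' : ℕ} (ha : ∀ l γ α, (a l γ α).natDegree ≤ e)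
    (P : Matrix N N ℝ) {ψ : Fin k → N → ℝ[X]} (hψ : ∀ l γ, (ψ l γ).natDegree ≤ e') (α : m) :
    (gm a P ψ α).natDegree ≤ e + e' := by
  unfold gm
  refine Polynomial.natDegree_sum_le_of_forall_le _ _ fun l _ => ?_
  refine Polynomial.natDegree_sum_le_of_forall_le _ _ fun γ _ => ?_
  refine Polynomial.natDegree_sum_le_of_forall_le _ _ fun γ' _ => ?_
  refine Polynomial.natDegree_mul_le.trans ?_
  have h1 : (a l γ α * C (P γ γ')).natDegree ≤ e := by
    refine Polynomial.natDegree_mul_le.trans ?_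
    rw [Polynomial.natDegree_C, add_zero]; exact ha _ _ _
  have h2 := hψ l γ'
  omega

theorem eval_det (M : Matrix m m ℝ[X]) (T : ℝ) :
    M.det.eval T = (Matrix.det (fun i j => (M i j).eval T)) := by
  have h1 := RingHom.map_det (Polynomial.evalRingHom T) M
  rw [Polynomial.coe_evalRingHom] at h1
  rw [h1]
  rfl

theorem eval_adj (M : Matrix m m ℝ[X]) (T : ℝ) (i j : m) :
    (M.adjugate i j).eval T = (Matrix.adjugate (fun i j => (M i j).eval T)) i j := by
  have h1 := RingHom.map_adjugate (Polynomial.evalRingHom T) M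
  have h2 := congrFun (congrFun h1 i) j
  exact h2

/-- Lower bound for the determinant at an injective point. -/
theorem det_inj (a : Fin k → N → m → ℝ[X]) {P : Matrix N N ℝ} (hP : Pᵀ = P) (hPP : P * P = P)
    (T μ : ℝ) (h : ∀ x : m → ℝ, μ ^ 2 * (x ⬝ᵥ x) ≤
      ∑ l, (P *ᵥ (Am a T l *ᵥ x)) ⬝ᵥ (P *ᵥ (Am a T l *ᵥ x))) :
    (μ ^ 2) ^ (Fintype.card m) ≤ (Gm a P).det.eval T := by
  rw [eval_det]
  refine det_lower (Gr a P T) (Gr_symm a hP T) (μ ^ 2) (sq_nonneg _) ?_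
  intro x
  rw [Gr_quad a hP hPP]
  exact h x

/-- The polynomial on the cell. -/
theorem cell_poly (a : Fin k → N → m → ℝ[X]) (b B : ℝ) (e e' K : ℕ) (hb : 1 ≤ b) (hB : 0 ≤ B)
    (ha : ∀ l γ α, l1 (a l γ α) ≤ b) (hae : ∀ l γ α, (a l γ α).natDegree ≤ e)
    (P : Matrix N N ℝ) (hent : ∀ i j, |P i j| ≤ 1)
    (ψ : Fin k → N → ℝ[X]) (hψ : ∀ l γ, l1 (ψ l γ) ≤ B) (hψe : ∀ l γ, (ψ l γ).natDegree ≤ e')
    (q₀ : ℝ) (hq₀ : 0 < q₀) (T₀ : ℝ) (hT₀ : |T₀| ≤ 1) (hQ₀ : q₀ ≤ (Gm a P).det.eval T₀) :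
    ∃ R : m → ℝ[X], (∀ α, (R α).natDegree ≤
        Fintype.card m * (2 * e) + (e + e') + K * (Fintype.card m * (2 * e))) ∧
      ∀ (T : ℝ) (s : m → ℝ) (x σ : ℝ), |T| ≤ 1 → 0 ≤ σ → q₀ ≤ (Gm a P).det.eval T →
        (Fintype.card m * (2 * e) : ℕ) * ((Fintype.card m).factorial *
          (1 + k * (Fintype.card N) ^ 2 * b ^ 2) ^ (Fintype.card m)) * |T - T₀| ≤ x * q₀ →
        (∀ l γ, |(P *ᵥ (Am a T l *ᵥ s - fun γ => (ψ l γ).eval T)) γ| ≤ σ) →
        ∀ α, |s α - (R α).eval T| ≤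
          ((Fintype.card m) * ((Fintype.card m).factorial *
            (1 + k * (Fintype.card N) ^ 2 * b ^ 2) ^ (Fintype.card m)) *
              (k * Fintype.card N * b * σ)) / q₀ +
          ((Fintype.card m) * ((Fintype.card m).factorial *
            (1 + k * (Fintype.card N) ^ 2 * b ^ 2) ^ (Fintype.card m)) *
              (k * (Fintype.card N) ^ 2 * (b * B))) / q₀ * x ^ K := by
  classical
  set M : ℕ := Fintype.card m with hM
  set n : ℕ := Fintype.card N with hn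
  set bG : ℝ := 1 + k * (n:ℝ) ^ 2 * b ^ 2 with hbG
  have hbG1 : 1 ≤ bG := by
    have : 0 ≤ (k:ℝ) * (n:ℝ) ^ 2 * b ^ 2 := by positivity
    linarith
  set bQ : ℝ := (M.factorial : ℝ) * bG ^ M with hbQ
  have hbQ0 : 0 ≤ bQ := by positivity
  set Q : ℝ[X] := (Gm a P).det with hQ
  have hQl1 : l1 Q ≤ bQ := l1_det _ bG (by linarith) (fun i j => Gm_l1 hb ha hent i j)
  have hQdeg : Q.natDegree ≤ M * (2 * e) := deg_det _ _ (fun i j => Gm_deg hae P i j)
  set Pp : m → ℝ[X] := fun α => ∑ β, (Gm a P).adjugate α β * gm a P ψ β with hPp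
  set bP : ℝ := M * bQ * (k * (n:ℝ) ^ 2 * (b * B)) with hbP
  have hPl1 : ∀ α, l1 (Pp α) ≤ bP := by
    intro α
    refine (l1_sum_le _ _ (bQ * (k * (n:ℝ) ^ 2 * (b * B))) ?_).trans (le_of_eq ?_)
    · intro β _
      exact l1_mul_le (adj_entry_l1 _ bG hbG1 (fun i j => Gm_l1 hb ha hent i j) α β)
        (gm_l1 hb ha hent hψ β)
    · rw [Finset.card_univ]; ring
  have hPdeg : ∀ α, (Pp α).natDegree ≤ M * (2 * e) + (e + e') := by
    intro α
    refine Polynomial.natDegree_sum_le_of_forall_le _ _ fun β _ => ?_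
    refine Polynomial.natDegree_mul_le.trans (add_le_add ?_ ?_)
    · exact adj_entry_deg _ _ (fun i j => Gm_deg hae P i j) α β
    · exact gm_deg hae P hψe β
  set Q₀ : ℝ := Q.eval T₀ with hQ₀d
  have hQ₀pos : 0 < Q₀ := lt_of_lt_of_le hq₀ hQ₀
  set D : ℝ[X] := 1 - C (Q₀⁻¹) * Q with hD
  have hDdeg : D.natDegree ≤ M * (2 * e) := by
    refine (Polynomial.natDegree_sub_le _ _).trans (max_le ?_ ?_)
    · rw [Polynomial.natDegree_one]; exact Nat.zero_le _
    · refine Polynomial.natDegree_mul_le.trans ?_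
      rw [Polynomial.natDegree_C, zero_add]; exact hQdeg
  refine ⟨fun α => C (Q₀⁻¹) * Pp α * ∑ q ∈ Finset.range K, D ^ q, ?_, ?_⟩
  · intro α
    refine Polynomial.natDegree_mul_le.trans (add_le_add ?_ ?_)
    · refine Polynomial.natDegree_mul_le.trans ?_
      rw [Polynomial.natDegree_C, zero_add]; exact hPdeg α
    · refine Polynomial.natDegree_sum_le_of_forall_le _ _ fun q hq => ?_
      refine (Polynomial.natDegree_pow_le).trans ?_
      exact Nat.mul_le_mul (Finset.mem_range.mp hq).le hDdeg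
  · intro T s x σ hT hσ hQT hx hu α
    have hQTpos : 0 < Q.eval T := lt_of_lt_of_le hq₀ hQT
    -- first part
    have hGs : ∀ β, |(Gr a P T *ᵥ s) β - (gm a P ψ β).eval T| ≤ k * n * b * σ := by
      intro β
      rw [res_eq]
      refine (Finset.abs_sum_le_sum_abs _ _).trans ?_
      have h1 : ∀ l ∈ (Finset.univ : Finset (Fin k)), |∑ γ, Am a T l γ β *
          (P *ᵥ (Am a T l *ᵥ s - fun γ => (ψ l γ).eval T)) γ| ≤ n * (b * σ) := by
        intro l _
        refine (Finset.abs_sum_le_sum_abs _ _).trans ?_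
        have h2 : ∀ γ ∈ (Finset.univ : Finset N), |Am a T l γ β *
          (P *ᵥ (Am a T l *ᵥ s - fun γ => (ψ l γ).eval T)) γ| ≤ b * σ := by
          intro γ _
          rw [abs_mul]
          exact mul_le_mul ((eval_l1 _ hT).trans (ha l γ β)) (hu l γ) (abs_nonneg _)
            (by linarith)
        refine (Finset.sum_le_sum h2).trans (le_of_eq ?_)
        rw [Finset.sum_const, Finset.card_univ, nsmul_eq_mul]
      refine (Finset.sum_le_sum h1).trans (le_of_eq ?_)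
      rw [Finset.sum_const, Finset.card_univ, Fintype.card_fin, nsmul_eq_mul]; ring
    have hadj : Q.eval T * s α - (Pp α).eval T =
        ∑ β, (Gr a P T).adjugate α β * ((Gr a P T *ᵥ s) β - (gm a P ψ β).eval T) := by
      have h1 : (Gr a P T).adjugate *ᵥ (Gr a P T *ᵥ s) = (Gr a P T).det • s := by
        rw [Matrix.mulVec_mulVec, Matrix.adjugate_mul, Matrix.smul_mulVec, Matrix.one_mulVec]
      have h2 : Q.eval T * s α = ((Gr a P T).adjugate *ᵥ (Gr a P T *ᵥ s)) α := by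
        rw [h1, Pi.smul_apply, smul_eq_mul, hQ, eval_det]
        rfl
      have h3 : (Pp α).eval T = ∑ β, (Gr a P T).adjugate α β * (gm a P ψ β).eval T := by
        rw [hPp]
        simp only
        rw [Polynomial.eval_finsetSum]
        refine Finset.sum_congr rfl fun β _ => ?_
        rw [Polynomial.eval_mul, eval_adj]
        rfl
      rw [h2, h3]
      show ∑ β, (Gr a P T).adjugate α β * (Gr a P T *ᵥ s) β - _ = _
      rw [← Finset.sum_sub_distrib]
      refine Finset.sum_congr rfl fun β _ => ?_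
      ring
    have hfirst : |Q.eval T * s α - (Pp α).eval T| ≤ M * bQ * (k * n * b * σ) := by
      rw [hadj]
      refine (Finset.abs_sum_le_sum_abs _ _).trans ?_
      have h2 : ∀ β ∈ (Finset.univ : Finset m), |(Gr a P T).adjugate α β *
          ((Gr a P T *ᵥ s) β - (gm a P ψ β).eval T)| ≤ bQ * (k * n * b * σ) := by
        intro β _
        rw [abs_mul]
        refine mul_le_mul ?_ (hGs β) (abs_nonneg _) hbQ0
        have h4 : (Gr a P T).adjugate α β = ((Gm a P).adjugate α β).eval T := by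
          rw [eval_adj]; rfl
        rw [h4]
        exact (eval_l1 _ hT).trans (adj_entry_l1 _ bG hbG1 (fun i j => Gm_l1 hb ha hent i j) α β)
      refine (Finset.sum_le_sum h2).trans (le_of_eq ?_)
      rw [Finset.sum_const, Finset.card_univ, nsmul_eq_mul]; ring
    have hA : |s α - (Pp α).eval T / Q.eval T| ≤ (M * bQ * (k * n * b * σ)) / q₀ := by
      have h1 : s α - (Pp α).eval T / Q.eval T = (Q.eval T * s α - (Pp α).eval T) / Q.eval T := by
        field_simp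
      rw [h1, abs_div, abs_of_pos hQTpos]
      have hb0 : 0 < b := by linarith
      exact div_le_div₀ (by positivity) hfirst hq₀ hQT
    -- second part
    set y : ℝ := D.eval T with hy
    have hyv : y = 1 - Q₀⁻¹ * Q.eval T := by
      rw [hy, hD]; simp
    have hyx : |y| ≤ x := by
      have h1 : y = Q₀⁻¹ * (Q.eval T₀ - Q.eval T) := by
        rw [hyv, mul_sub, ← hQ₀d, inv_mul_cancel₀ hQ₀pos.ne']
      rw [h1, abs_mul, abs_inv, abs_of_pos hQ₀pos, inv_mul_le_iff₀ hQ₀pos]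
      have h2 := lip_l1 Q hT₀ hT
      have h3 : (Q.natDegree : ℝ) * l1 Q * |T₀ - T| ≤ ((M * (2 * e) : ℕ) : ℝ) * bQ * |T - T₀| := by
        rw [abs_sub_comm T₀ T]
        have : (Q.natDegree : ℝ) ≤ ((M * (2 * e) : ℕ) : ℝ) := by exact_mod_cast hQdeg
        have h4 := l1_nn Q
        gcongr
      have hx0 : 0 ≤ x * q₀ := le_trans (by positivity) hx
      have hx0' : 0 ≤ x := by
        by_contra hneg
        push Not at hneg
        have := mul_neg_of_neg_of_pos hneg hq₀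
        linarith
      calc |Q.eval T₀ - Q.eval T| ≤ _ := h2
        _ ≤ _ := h3
        _ ≤ x * q₀ := hx
        _ ≤ Q₀ * x := by rw [mul_comm]; exact mul_le_mul_of_nonneg_right hQ₀ hx0'
    have hgeo : (∑ q ∈ Finset.range K, y ^ q) * (Q₀⁻¹ * Q.eval T) = 1 - y ^ K := by
      have h1 := geom_sum_mul_neg y K
      have h2 : 1 - y = Q₀⁻¹ * Q.eval T := by rw [hyv]; ring
      rw [h2] at h1
      exact h1
    have hRv : (C (Q₀⁻¹) * Pp α * ∑ q ∈ Finset.range K, D ^ q).eval T =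
        (Pp α).eval T / Q.eval T * (1 - y ^ K) := by
      have h1 : (∑ q ∈ Finset.range K, D ^ q).eval T = ∑ q ∈ Finset.range K, y ^ q := by
        rw [Polynomial.eval_finsetSum]
        refine Finset.sum_congr rfl fun q _ => ?_
        rw [Polynomial.eval_pow]
      rw [Polynomial.eval_mul, Polynomial.eval_mul, Polynomial.eval_C, h1, ← hgeo]
      field_simp
    have hB2 : |(Pp α).eval T / Q.eval T - (C (Q₀⁻¹) * Pp α *
        ∑ q ∈ Finset.range K, D ^ q).eval T| ≤ bP / q₀ * x ^ K := by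
      rw [hRv]
      have h1 : (Pp α).eval T / Q.eval T - (Pp α).eval T / Q.eval T * (1 - y ^ K) =
          (Pp α).eval T / Q.eval T * y ^ K := by ring
      rw [h1, abs_mul, abs_div, abs_of_pos hQTpos, abs_pow]
      have h2 : |(Pp α).eval T| ≤ bP := (eval_l1 _ hT).trans (hPl1 α)
      have hbP0 : 0 ≤ bP := (l1_nn _).trans (hPl1 α)
      have h3 : |(Pp α).eval T| / Q.eval T ≤ bP / q₀ := div_le_div₀ hbP0 h2 hq₀ hQT
      exact mul_le_mul h3 (pow_le_pow_left₀ (abs_nonneg _) hyx K) (by positivity) (by positivity)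
    have hfin : s α - (C (Q₀⁻¹) * Pp α * ∑ q ∈ Finset.range K, D ^ q).eval T =
        (s α - (Pp α).eval T / Q.eval T) + ((Pp α).eval T / Q.eval T - (C (Q₀⁻¹) * Pp α *
        ∑ q ∈ Finset.range K, D ^ q).eval T) := by ring
    rw [hfin]
    exact (abs_add_le _ _).trans (add_le_add hA hB2)

end Pool.LBL
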